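import Mathlib

/-!
# MP_670a4f_lc, Dens: Walsh characters of 0-1 sequences, upper Banach density
-/

set_option autoImplicit false

namespace Pool.Agent.H.MP_670a4f_lc

open Set

/-- the sign of one coordinate -/
def sg (n : ℕ) (r : ℕ → Bool) (i : ℕ) : ℤ := if n.testBit i && r i then -1 else 1

/-- the Walsh character of the sequence `r` at the number `n` -/
def ch (r : ℕ → Bool) (n : ℕ) : ℤ := ∏ i ∈ Finset.range n, sg n r i

theorem sg_high {n i : ℕ} (r : ℕ → Bool) (h : n < 2 ^ i) : sg n r i = 1 := by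
  rw [sg, Nat.testBit_lt_two_pow h]
  rfl

theorem ch_eq {n K : ℕ} (r : ℕ → Bool) (h : n < 2 ^ K) : ch r n = ∏ i ∈ Finset.range K, sg n r i := by
  have h1 : ∏ i ∈ Finset.range n, sg n r i = ∏ i ∈ Finset.range (n + K), sg n r i := by
    apply Finset.prod_subset
    · intro i hi
      rw [Finset.mem_range] at hi ⊢
      omega
    · intro i _ hi
      rw [Finset.mem_range, not_lt] at hi
      apply sg_high
      exact Nat.lt_two_pow_self.trans_le (Nat.pow_le_pow_right (by norm_num) hi)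
  have h2 : ∏ i ∈ Finset.range K, sg n r i = ∏ i ∈ Finset.range (n + K), sg n r i := by
    apply Finset.prod_subset
    · intro i hi
      rw [Finset.mem_range] at hi ⊢
      omega
    · intro i _ hi
      rw [Finset.mem_range, not_lt] at hi
      apply sg_high
      exact h.trans_le (Nat.pow_le_pow_right (by norm_num) hi)
  rw [ch, h1, h2]

theorem sg_sq (n : ℕ) (r : ℕ → Bool) (i : ℕ) : sg n r i * sg n r i = 1 := by
  unfold sg
  split_ifs <;> norm_num

theorem ch_sq (r : ℕ → Bool) (n : ℕ) : ch r n * ch r n = 1 := by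
  rw [ch, ← Finset.prod_mul_distrib]
  exact Finset.prod_eq_one fun i _ => sg_sq n r i

/-- Flipping the bit `p`. -/
theorem ch_flip (r : ℕ → Bool) (n p : ℕ) :
    ch r (n ^^^ 2 ^ p) = (if r p then -1 else 1) * ch r n := by
  have hK : n < 2 ^ (n + p + 1) :=
    Nat.lt_two_pow_self.trans_le (Nat.pow_le_pow_right (by norm_num) (by omega))
  have hK' : n ^^^ 2 ^ p < 2 ^ (n + p + 1) :=
    Nat.xor_lt_two_pow hK (Nat.pow_lt_pow_right (by norm_num) (by omega))
  have hp : p ∈ Finset.range (n + p + 1) := by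
    rw [Finset.mem_range]
    omega
  rw [ch_eq r hK, ch_eq r hK', ← Finset.mul_prod_erase _ _ hp, ← Finset.mul_prod_erase _ _ hp]
  have h1 : ∀ i ∈ (Finset.range (n + p + 1)).erase p, sg (n ^^^ 2 ^ p) r i = sg n r i := by
    intro i hi
    have hne : i ≠ p := (Finset.mem_erase.1 hi).1
    rw [sg, sg, Nat.testBit_xor, Nat.testBit_two_pow, decide_eq_false hne.symm, Bool.xor_false]
  rw [Finset.prod_congr rfl h1, ← mul_assoc]
  congr 1
  rw [sg, sg, Nat.testBit_xor, Nat.testBit_two_pow, decide_eq_true rfl, Bool.xor_true]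
  cases r p <;> cases n.testBit p <;> simp

theorem flip_mem {n j p M : ℕ} (hn : n ∈ Finset.Ico (M * 2 ^ j) ((M + 1) * 2 ^ j)) (hp : p < j) :
    n ^^^ 2 ^ p ∈ Finset.Ico (M * 2 ^ j) ((M + 1) * 2 ^ j) := by
  have hpos : 0 < 2 ^ j := by positivity
  have key : ∀ x : ℕ, x ∈ Finset.Ico (M * 2 ^ j) ((M + 1) * 2 ^ j) ↔ x / 2 ^ j = M := by
    intro x
    rw [Finset.mem_Ico]
    constructor
    · rintro ⟨h1, h2⟩
      exact Nat.div_eq_of_lt_le h1 h2
    · intro h
      subst h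
      exact ⟨Nat.div_mul_le_self x _, by
        have := Nat.lt_div_mul_add (a := x) hpos
        linarith [this, Nat.succ_mul (x / 2 ^ j) (2 ^ j)]⟩
  rw [key] at hn ⊢
  rw [← Nat.shiftRight_eq_div_pow, Nat.shiftRight_xor_distrib, Nat.shiftRight_eq_div_pow,
    Nat.shiftRight_eq_div_pow, hn, Nat.div_eq_of_lt (Nat.pow_lt_pow_right (by norm_num) hp),
    Nat.xor_zero]

theorem sum_orth {r r' : ℕ → Bool} {p j M : ℕ} (hp : p < j) (hne : r p ≠ r' p) :
    ∑ n ∈ Finset.Ico (M * 2 ^ j) ((M + 1) * 2 ^ j), ch r n * ch r' n = 0 := by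
  have hflip : ∀ n, ch r (n ^^^ 2 ^ p) * ch r' (n ^^^ 2 ^ p) = -(ch r n * ch r' n) := by
    intro n
    rw [ch_flip, ch_flip]
    cases h1 : r p <;> cases h2 : r' p
    · exact absurd (h1.trans h2.symm) hne
    · simp
    · simp
    · exact absurd (h1.trans h2.symm) hne
  apply Finset.sum_involution (fun n _ => n ^^^ 2 ^ p)
  · intro n _
    rw [hflip]
    ring
  · intro n _ h0 heq
    have := hflip n
    rw [heq] at this
    apply h0
    omega
  · intro n _
    rw [Nat.xor_assoc, Nat.xor_self, Nat.xor_zero]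
  · intro n hn
    exact flip_mem hn hp

/-- In an aligned window of length `2 ^ j` at most a proportion `1 / m` of the numbers does not distinguish `m` sequences
with different initial parts of length `j`. -/
theorem window_bound {m j W : ℕ} (r : Fin m → ℕ → Bool) (hr : ∀ i i', i ≠ i' → ∃ p < j, r i p ≠ r i' p)
    (M : Finset ℕ) (hM : M ⊆ Finset.Ico (W * 2 ^ j) ((W + 1) * 2 ^ j))
    (hc : ∀ n ∈ M, ∀ i i', ch (r i) n = ch (r i') n) : m * M.card ≤ 2 ^ j := by
  rcases Nat.eq_zero_or_pos m with hm | hm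
  · subst hm
    rw [zero_mul]
    exact Nat.zero_le _
  have h1 : ∑ n ∈ Finset.Ico (W * 2 ^ j) ((W + 1) * 2 ^ j), (∑ i, ch (r i) n) ^ 2 =
      (m : ℤ) * 2 ^ j := by
    have h2 : ∀ n : ℕ, (∑ i, ch (r i) n) ^ 2 = ∑ i, ∑ i', ch (r i) n * ch (r i') n := by
      intro n
      rw [sq, Finset.sum_mul_sum]
    rw [Finset.sum_congr rfl fun n _ => h2 n, Finset.sum_comm]
    have h3 : ∀ i : Fin m, ∑ n ∈ Finset.Ico (W * 2 ^ j) ((W + 1) * 2 ^ j),
        ∑ i', ch (r i) n * ch (r i') n = 2 ^ j := by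
      intro i
      rw [Finset.sum_comm, Finset.sum_eq_single i]
      · rw [Finset.sum_congr rfl fun n _ => ch_sq _ _, Finset.sum_const, Nat.card_Ico,
          nsmul_eq_mul, mul_one]
        have : (W + 1) * 2 ^ j - W * 2 ^ j = 2 ^ j := by
          rw [Nat.succ_mul, Nat.add_sub_cancel_left]
        rw [this]
        push_cast
        rfl
      · intro i' _ hi'
        obtain ⟨p, hp, hne⟩ := hr i i' hi'.symm
        exact sum_orth hp hne
      · intro h
        exact absurd (Finset.mem_univ i) h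
    rw [Finset.sum_congr rfl fun i _ => h3 i, Finset.sum_const, Finset.card_univ, Fintype.card_fin,
      nsmul_eq_mul]
  have h4 : (M.card : ℤ) * (m : ℤ) ^ 2 ≤ (m : ℤ) * 2 ^ j := by
    rw [← h1]
    have h5 : ∑ n ∈ M, (∑ i, ch (r i) n) ^ 2 = (M.card : ℤ) * (m : ℤ) ^ 2 := by
      have h6 : ∀ n ∈ M, (∑ i, ch (r i) n) ^ 2 = (m : ℤ) ^ 2 := by
        intro n hn
        have h7 : ∀ i, ch (r i) n = ch (r ⟨0, hm⟩) n := fun i => hc n hn i ⟨0, hm⟩
        rw [Finset.sum_congr rfl fun i _ => h7 i, Finset.sum_const, Finset.card_univ,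
          Fintype.card_fin, nsmul_eq_mul, mul_pow, sq (ch _ _), ch_sq, mul_one]
      rw [Finset.sum_congr rfl h6, Finset.sum_const, nsmul_eq_mul]
    rw [← h5]
    exact Finset.sum_le_sum_of_subset_of_nonneg hM fun n _ _ => sq_nonneg _
  have h8 : (m : ℤ) * ((m : ℤ) * M.card) ≤ (m : ℤ) * 2 ^ j := by
    have : (m : ℤ) * ((m : ℤ) * M.card) = (M.card : ℤ) * (m : ℤ) ^ 2 := by ring
    rw [this]
    exact h4
  have h9 : (m : ℤ) * M.card ≤ 2 ^ j := le_of_mul_le_mul_left h8 (by exact_mod_cast hm)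
  exact_mod_cast h9

/-- All windows. -/
theorem window_count {V : Type*} {r : V → ℕ → Bool} (hr : Function.Injective r) {X : Set V}
    (hX : X.Infinite) (m : ℕ) : ∃ C : ℕ, ∀ (s L : ℕ) (M : Finset ℕ),
      (∀ n ∈ M, s ≤ n ∧ n < s + L) →
      (∀ n ∈ M, ∀ a ∈ X, ∀ b ∈ X, ch (r a) n = ch (r b) n) → m * M.card ≤ L + C := by
  classical
  let a : ℕ → V := fun i => (hX.natEmbedding X i : X)
  have haX : ∀ i, a i ∈ X := fun i => (hX.natEmbedding X i).2
  have hainj : Function.Injective a := Subtype.val_injective.comp (hX.natEmbedding X).injective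
  have hp : ∀ i i' : ℕ, ∃ p, i ≠ i' → r (a i) p ≠ r (a i') p := by
    intro i i'
    by_cases h : i = i'
    · exact ⟨0, fun h' => absurd h h'⟩
    · obtain ⟨p, hp⟩ := Function.ne_iff.1 (hr.ne (hainj.ne h))
      exact ⟨p, fun _ => hp⟩
  choose p hp using hp
  obtain ⟨j, hj⟩ : ∃ j, ∀ i < m, ∀ i' < m, p i i' < j := by
    refine ⟨1 + ∑ i ∈ Finset.range m, ∑ i' ∈ Finset.range m, p i i', ?_⟩
    intro i hi i' hi'
    have h1 := Finset.single_le_sum (f := fun i => ∑ i' ∈ Finset.range m, p i i')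
      (fun _ _ => Nat.zero_le _) (Finset.mem_range.2 hi)
    have h2 := Finset.single_le_sum (f := fun i' => p i i')
      (fun _ _ => Nat.zero_le _) (Finset.mem_range.2 hi')
    have h3 := h2.trans h1
    omega
  have hwin : ∀ (W : ℕ) (M : Finset ℕ), M ⊆ Finset.Ico (W * 2 ^ j) ((W + 1) * 2 ^ j) →
      (∀ n ∈ M, ∀ a ∈ X, ∀ b ∈ X, ch (r a) n = ch (r b) n) → m * M.card ≤ 2 ^ j := by
    intro W M hM hc
    apply window_bound (fun i : Fin m => r (a i)) _ M hM
    · intro n hn i i'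
      exact hc n hn _ (haX i) _ (haX i')
    · intro i i' hne
      have hne' : (i : ℕ) ≠ (i' : ℕ) := fun h => hne (Fin.ext h)
      exact ⟨p i i', hj i i.2 i' i'.2, hp i i' hne'⟩
  have hpos : 0 < 2 ^ j := by positivity
  refine ⟨2 * 2 ^ j, ?_⟩
  intro s L M hM hc
  -- cover by the aligned windows with index in `[s / 2 ^ j, s / 2 ^ j + L / 2 ^ j + 2)`
  let I : Finset ℕ := Finset.Ico (s / 2 ^ j) (s / 2 ^ j + L / 2 ^ j + 2)
  have hcov : ∀ n ∈ M, n / 2 ^ j ∈ I := by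
    intro n hn
    obtain ⟨h1, h2⟩ := hM n hn
    rw [Finset.mem_Ico]
    refine ⟨Nat.div_le_div_right h1, ?_⟩
    rw [Nat.div_lt_iff_lt_mul hpos]
    have h3 := Nat.lt_div_mul_add (a := s) hpos
    have h4 := Nat.lt_div_mul_add (a := L) hpos
    have h5 : (s / 2 ^ j + L / 2 ^ j + 2) * 2 ^ j =
      s / 2 ^ j * 2 ^ j + L / 2 ^ j * 2 ^ j + 2 * 2 ^ j := by ring
    omega
  have hcard : M.card = ∑ W ∈ I, (M.filter (fun n => n / 2 ^ j = W)).card :=
    Finset.card_eq_sum_card_fiberwise hcov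
  rw [hcard, Finset.mul_sum]
  have h6 : ∀ W ∈ I, m * (M.filter (fun n => n / 2 ^ j = W)).card ≤ 2 ^ j := by
    intro W _
    apply hwin W
    · intro n hn
      rw [Finset.mem_filter] at hn
      rw [Finset.mem_Ico]
      obtain ⟨-, rfl⟩ := hn
      refine ⟨Nat.div_mul_le_self n _, ?_⟩
      have := Nat.lt_div_mul_add (a := n) hpos
      linarith [this, Nat.succ_mul (n / 2 ^ j) (2 ^ j)]
    · intro n hn
      exact hc n (Finset.mem_filter.1 hn).1
  refine (Finset.sum_le_sum h6).trans ?_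
  rw [Finset.sum_const, smul_eq_mul, Nat.card_Ico]
  have h7 := Nat.div_mul_le_self L (2 ^ j)
  have h8 : (s / 2 ^ j + L / 2 ^ j + 2 - s / 2 ^ j) * 2 ^ j = L / 2 ^ j * 2 ^ j + 2 * 2 ^ j := by
    have : s / 2 ^ j + L / 2 ^ j + 2 - s / 2 ^ j = L / 2 ^ j + 2 := by
      rw [add_assoc, Nat.add_sub_cancel_left]
    rw [this]
    ring
  rw [h8]
  omega

/-- Upper Banach density zero. -/
theorem banach_zero {M : Set ℕ}
    (h : ∀ m : ℕ, ∃ C : ℕ, ∀ s L : ℕ, m * (M ∩ Ico s (s + L)).ncard ≤ L + C) :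
    ∀ ε : ℝ, 0 < ε → ∃ L₀ : ℕ, ∀ L ≥ L₀, ∀ s : ℕ, ((M ∩ Ico s (s + L)).ncard : ℝ) ≤ ε * L := by
  intro ε hε
  obtain ⟨m, hm⟩ := exists_nat_gt (2 / ε)
  have hm0 : (0 : ℝ) < m := (by positivity : (0 : ℝ) < 2 / ε).trans hm
  obtain ⟨C, hC⟩ := h m
  refine ⟨C, fun L hL s => ?_⟩
  have h1 : (m : ℝ) * ((M ∩ Ico s (s + L)).ncard : ℝ) ≤ L + C := by exact_mod_cast hC s L
  have h2 : (L : ℝ) + C ≤ 2 * L := by
    have : (C : ℝ) ≤ L := by exact_mod_cast hL
    linarith
  have h3 : 2 ≤ ε * m := by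
    rw [div_lt_iff₀ hε] at hm
    linarith
  have hL0 : (0 : ℝ) ≤ L := Nat.cast_nonneg L
  have h4 : (m : ℝ) * ((M ∩ Ico s (s + L)).ncard : ℝ) ≤ m * (ε * L) := by
    calc (m : ℝ) * ((M ∩ Ico s (s + L)).ncard : ℝ) ≤ L + C := h1
      _ ≤ 2 * L := h2
      _ ≤ (ε * m) * L := mul_le_mul_of_nonneg_right h3 hL0
      _ = m * (ε * L) := by ring
  exact le_of_mul_le_mul_left h4 hm0

end Pool.Agent.H.MP_670a4f_lc
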