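import Pool.Agent.H.MP_670a4f_lc.Moore

set_option autoImplicit false

namespace Pool.Agent.H670

open Set

universe u

/-! ### Labels -/

section labels

variable {Ω : Type u}

/-- parity labels: the nodes are given by `P` -/
def lab (P : ℕ → Ω → Bool) (n : ℕ) (α : Ω) : ZMod 2 :=
  ∑ i ∈ Finset.range n, if (n.testBit i && P i α) = true then 1 else 0

theorem lab_eq (P : ℕ → Ω → Bool) {n M : ℕ} (h : n < 2 ^ M) (α : Ω) :
    lab P n α = ∑ i ∈ Finset.range M, if (n.testBit i && P i α) = true then 1 else 0 := by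
  have key : ∀ K, n < 2 ^ K → lab P n α =
      ∑ i ∈ Finset.range (max n K), if (n.testBit i && P i α) = true then 1 else 0 := by
    intro K _
    unfold lab
    apply Finset.sum_subset
    · intro i hi
      simp only [Finset.mem_range] at hi ⊢
      exact lt_of_lt_of_le hi (le_max_left _ _)
    · intro i _ hi'
      simp only [Finset.mem_range, not_lt] at hi'
      have : n < 2 ^ i := lt_of_lt_of_le Nat.lt_two_pow_self (Nat.pow_le_pow_right (by norm_num) hi')
      rw [Nat.testBit_lt_two_pow this]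
      simp
  rw [key M h]
  symm
  apply Finset.sum_subset
  · intro i hi
    simp only [Finset.mem_range] at hi ⊢
    exact lt_of_lt_of_le hi (le_max_right _ _)
  · intro i _ hi'
    simp only [Finset.mem_range, not_lt] at hi'
    have : n < 2 ^ i := lt_of_lt_of_le h (Nat.pow_le_pow_right (by norm_num) hi')
    rw [Nat.testBit_lt_two_pow this]
    simp

theorem lab_xor (P : ℕ → Ω → Bool) (n p : ℕ) (α : Ω) :
    lab P (n ^^^ 2 ^ p) α = lab P n α + (if P p α = true then 1 else 0) := by
  obtain ⟨M, h1, h2, h3⟩ : ∃ M, n < 2 ^ M ∧ n ^^^ 2 ^ p < 2 ^ M ∧ p < M := by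
    refine ⟨max n (p + 1), ?_, ?_, ?_⟩
    · exact lt_of_lt_of_le Nat.lt_two_pow_self
        (Nat.pow_le_pow_right (by norm_num) (le_max_left _ _))
    · apply Nat.xor_lt_two_pow
      · exact lt_of_lt_of_le Nat.lt_two_pow_self
          (Nat.pow_le_pow_right (by norm_num) (le_max_left _ _))
      · apply Nat.pow_lt_pow_right (by norm_num)
        exact lt_of_lt_of_le (Nat.lt_succ_self p) (le_max_right _ _)
    · exact lt_of_lt_of_le (Nat.lt_succ_self p) (le_max_right _ _)
  rw [lab_eq P h1, lab_eq P h2]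
  have h4 : (if P p α = true then (1 : ZMod 2) else 0) =
      ∑ i ∈ Finset.range M, if i = p then (if P i α = true then (1 : ZMod 2) else 0) else 0 := by
    rw [Finset.sum_ite_eq']
    simp [h3]
  rw [h4, ← Finset.sum_add_distrib]
  apply Finset.sum_congr rfl
  intro i _
  rw [Nat.testBit_xor, Nat.testBit_two_pow]
  by_cases hip : i = p
  · subst hip
    cases n.testBit i <;> cases P i α <;> simp <;> decide
  · have : ¬ p = i := fun h => hip h.symm
    simp [hip, this]

theorem lab_block (P : ℕ → Ω → Bool) (x : ℕ → Ω)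
    (hx : ∀ j, ∃ p, P p (x j) = true ∧ ∀ l < j, P p (x l) = false) (m : ℕ) :
    ∃ J0, ∀ J ≥ J0, ∀ a : ℕ, ((Finset.range (2 ^ J)).filter (fun n =>
      ∀ j ≤ m, lab P (a * 2 ^ J + n) (x j) = lab P (a * 2 ^ J + n) (x 0))).card * 2 ^ m
      ≤ 2 ^ J := by
  classical
  induction m with
  | zero =>
    refine ⟨0, ?_⟩
    intro J _ a
    rw [pow_zero, mul_one]
    refine le_trans (Finset.card_filter_le _ _) ?_
    simp
  | succ m ih =>
    obtain ⟨J0, hJ0⟩ := ih
    obtain ⟨p, hp, hp'⟩ := hx (m + 1)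
    refine ⟨max J0 (p + 1), ?_⟩
    intro J hJ a
    have hJ1 : J0 ≤ J := le_trans (le_max_left _ _) hJ
    have hJ2 : p < J := lt_of_lt_of_le (Nat.lt_succ_self p) (le_trans (le_max_right _ _) hJ)
    have hpJ : 2 ^ p < 2 ^ J := Nat.pow_lt_pow_right (by norm_num) hJ2
    set G := (Finset.range (2 ^ J)).filter (fun n =>
      ∀ j ≤ m, lab P (a * 2 ^ J + n) (x j) = lab P (a * 2 ^ J + n) (x 0)) with hG
    set G' := (Finset.range (2 ^ J)).filter (fun n =>
      ∀ j ≤ m + 1, lab P (a * 2 ^ J + n) (x j) = lab P (a * 2 ^ J + n) (x 0)) with hG'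
    have hxor : ∀ n < 2 ^ J, a * 2 ^ J + (n ^^^ 2 ^ p) = (a * 2 ^ J + n) ^^^ 2 ^ p := by
      intro n hn
      have e1 : a * 2 ^ J + n = 2 ^ J * a ||| n := by
        rw [mul_comm, Nat.two_pow_add_eq_or_of_lt hn]
      have hn' : n ^^^ 2 ^ p < 2 ^ J := Nat.xor_lt_two_pow hn hpJ
      have e2 : a * 2 ^ J + (n ^^^ 2 ^ p) = 2 ^ J * a ||| (n ^^^ 2 ^ p) := by
        rw [mul_comm, Nat.two_pow_add_eq_or_of_lt hn']
      rw [e1, e2]
      apply Nat.eq_of_testBit_eq
      intro i
      simp only [Nat.testBit_or, Nat.testBit_xor, Nat.testBit_two_pow_mul]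
      by_cases hi : J ≤ i
      · have h1 : n.testBit i = false :=
          Nat.testBit_lt_two_pow (lt_of_lt_of_le hn (Nat.pow_le_pow_right (by norm_num) hi))
        have h2 : (2 ^ p).testBit i = false :=
          Nat.testBit_lt_two_pow (lt_of_lt_of_le hpJ (Nat.pow_le_pow_right (by norm_num) hi))
        simp [h1, h2]
      · simp [hi]
    have hsub : G' ∪ G'.image (fun n => n ^^^ 2 ^ p) ⊆ G := by
      intro n hn
      rw [Finset.mem_union] at hn
      rcases hn with h | h
      · rw [hG', Finset.mem_filter] at h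
        rw [hG, Finset.mem_filter]
        exact ⟨h.1, fun j hj => h.2 j (by omega)⟩
      · rw [Finset.mem_image] at h
        obtain ⟨k, hk, rfl⟩ := h
        rw [hG', Finset.mem_filter, Finset.mem_range] at hk
        rw [hG, Finset.mem_filter, Finset.mem_range]
        refine ⟨Nat.xor_lt_two_pow hk.1 hpJ, ?_⟩
        intro j hj
        rw [hxor k hk.1, lab_xor, lab_xor, hp' j (by omega), hp' 0 (by omega)]
        simp [hk.2 j (by omega)]
    have hdisj : Disjoint G' (G'.image (fun n => n ^^^ 2 ^ p)) := by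
      rw [Finset.disjoint_left]
      intro n hn hn'
      rw [Finset.mem_image] at hn'
      obtain ⟨k, hk, rfl⟩ := hn'
      rw [hG', Finset.mem_filter, Finset.mem_range] at hk hn
      have h1 := hn.2 (m + 1) le_rfl
      have h2 := hk.2 (m + 1) le_rfl
      rw [hxor k hk.1, lab_xor, lab_xor, hp, hp' 0 (by omega), h2] at h1
      simp at h1
    have hinj : Set.InjOn (fun n : ℕ => n ^^^ 2 ^ p) (G' : Set ℕ) := by
      intro n _ n' _ h
      exact Nat.xor_left_injective h
    have hcard : 2 * G'.card ≤ G.card := by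
      have h1 := Finset.card_le_card hsub
      rw [Finset.card_union_of_disjoint hdisj, Finset.card_image_of_injOn hinj] at h1
      omega
    have h2 := hJ0 J hJ1 a
    calc G'.card * 2 ^ (m + 1) = (2 * G'.card) * 2 ^ m := by ring
      _ ≤ G.card * 2 ^ m := Nat.mul_le_mul_right _ hcard
      _ ≤ 2 ^ J := h2

end labels

end Pool.Agent.H670
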