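import Pool.Agent.H.MP_670a4f_lc.Main

set_option autoImplicit false

namespace Pool.Agent.H670

open Set

universe u

section general

variable {Ω : Type u} [LinearOrder Ω] [WellFoundedLT Ω] {κ : Type} [Countable κ]

/-- the colouring given by labels -/
noncomputable def gc (S : CSeq Ω) (lb : ℕ → Ω → κ) (α β : Ω) : ℕ :=
  open Classical in
  Nat.nth (fun n => lb n α ≠ lb n β) (padicValNat 2 (oscf S β α))

/-- the class of a point in a set -/
def gcl (lb : ℕ → Ω → κ) (X : Set Ω) (n : ℕ) (x : Ω) : Set Ω :=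
  {y | y ∈ X ∧ ∀ i ≤ n, lb i y = lb i x}

omit [Countable κ] in
theorem gattain (S : CSeq Ω) (lb : ℕ → Ω → κ) (hc : ∀ a : Ω, (Set.Iio a).Countable)
    (hu : ¬ (Set.univ : Set Ω).Countable) {X Y : Set Ω} {x y : Ω} {n : ℕ}
    (hX : Unb (gcl lb X n x)) (hY : Unb (gcl lb Y n y)) (hxy : lb n x ≠ lb n y) :
    ∃ α ∈ X, ∃ β ∈ Y, α < β ∧ gc S lb α β = n := by
  classical
  obtain ⟨M, hM⟩ := v2_interval (Nat.count (fun n => lb n x ≠ lb n y) n)
  obtain ⟨α, hα, N, β, hβ⟩ := moore S hc hu hX hY M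
  obtain ⟨i, hi, hi'⟩ := hM N
  obtain ⟨h1, h2, h3⟩ := hβ i hi
  refine ⟨α, hα.1, β i, h1.1, h2, ?_⟩
  have hcount : Nat.count (fun n => lb n x ≠ lb n y) n =
      Nat.count (fun n => lb n α ≠ lb n (β i)) n := by
    rw [Nat.count_eq_card_filter_range, Nat.count_eq_card_filter_range]
    congr 1
    apply Finset.filter_congr
    intro k hk
    rw [Finset.mem_range] at hk
    rw [hα.2 k hk.le, h1.2 k hk.le]
  unfold gc
  rw [h3, hi', hcount]
  have hn : lb n α ≠ lb n (β i) := by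
    rw [hα.2 n le_rfl, h1.2 n le_rfl]
    exact hxy
  convert Nat.nth_count (p := fun n => lb n α ≠ lb n (β i)) hn

/-- the good part of a set -/
def ggp (lb : ℕ → Ω → κ) (X : Set Ω) : Set Ω := {x | x ∈ X ∧ ∀ n, Unb (gcl lb X n x)}

theorem ggp_uncountable (lb : ℕ → Ω → κ) (hc : ∀ a : Ω, (Set.Iio a).Countable) {X : Set Ω}
    (hX : ¬ X.Countable) : ¬ (ggp lb X).Countable := by
  intro hcon
  apply hX
  have h1 : X ⊆ ggp lb X ∪ ⋃ n : ℕ, ⋃ v : (Fin (n + 1) → κ),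
      {x | x ∈ X ∧ (fun i : Fin (n + 1) => lb i x) = v ∧ ¬ Unb (gcl lb X n x)} := by
    intro x hx
    by_cases h : ∀ n, Unb (gcl lb X n x)
    · left; exact ⟨hx, h⟩
    · right
      push Not at h
      obtain ⟨n, hn⟩ := h
      rw [Set.mem_iUnion]
      refine ⟨n, ?_⟩
      rw [Set.mem_iUnion]
      exact ⟨_, hx, rfl, hn⟩
  refine (hcon.union ?_).mono h1
  refine Set.countable_iUnion (fun n => Set.countable_iUnion (fun v => ?_))
  rcases Set.eq_empty_or_nonempty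
    {x | x ∈ X ∧ (fun i : Fin (n + 1) => lb i x) = v ∧ ¬ Unb (gcl lb X n x)} with h | h
  · rw [h]; exact Set.countable_empty
  · obtain ⟨x0, hx0, hv0, hn0⟩ := h
    have h2 : (gcl lb X n x0).Countable := by
      by_contra h3
      exact hn0 (unb_of_uncountable hc h3)
    refine h2.mono ?_
    rintro x ⟨hx, hv, -⟩
    refine ⟨hx, ?_⟩
    intro i hi
    exact congrFun (hv.trans hv0.symm) ⟨i, Nat.lt_succ_of_le hi⟩

/-- The label theorem. -/
theorem label_theorem (S : CSeq Ω) (lb : ℕ → Ω → κ) (hc : ∀ a : Ω, (Set.Iio a).Countable)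
    (hu : ¬ (Set.univ : Set Ω).Countable) {X Y : Set Ω} (hX : ¬ X.Countable)
    (hY : ¬ Y.Countable) :
    ∃ X' ⊆ X, ∃ Y' ⊆ Y, ¬ X'.Countable ∧ ¬ Y'.Countable ∧
      ∀ x ∈ X', ∀ y ∈ Y', ∀ n, lb n x ≠ lb n y →
        ∃ α ∈ X, ∃ β ∈ Y, α < β ∧ gc S lb α β = n := by
  refine ⟨ggp lb X, fun x hx => hx.1, ggp lb Y, fun y hy => hy.1,
    ggp_uncountable lb hc hX, ggp_uncountable lb hc hY, ?_⟩
  intro x hx y hy n h
  exact gattain S lb hc hu (hx.2 n) (hy.2 n) h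

end general

end Pool.Agent.H670
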