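import Pool.Agent.H.MP_670a4f_lc.Density

set_option autoImplicit false

namespace Pool.Agent.H670

open Set

universe u

section nodes

variable {Ω : Type u}

/-- the nodes of the binary tree -/
def node (ρ : Ω → ℕ → Bool) (p : ℕ) (α : Ω) : Bool :=
  match (Encodable.decode p : Option (List Bool)) with
  | some s => decide (s = (List.range s.length).map (ρ α))
  | none => false

theorem exists_sep (ρ : Ω → ℕ → Bool) (hρ : Function.Injective ρ) (x : Ω) {T : Set Ω}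
    (hT : T.Finite) (hx : x ∉ T) : ∃ p, node ρ p x = true ∧ ∀ y ∈ T, node ρ p y = false := by
  classical
  have h1 : ∃ k : ℕ, ∀ y ∈ T, ∃ i < k, ρ x i ≠ ρ y i := by
    induction T, hT using Set.Finite.induction_on with
    | empty => exact ⟨0, by simp⟩
    | insert _ _ ih =>
      rename_i z T _ _
      obtain ⟨k, hk⟩ := ih (fun h => hx (Set.mem_insert_of_mem _ h))
      have hxz : x ≠ z := fun h => hx (by rw [h]; exact Set.mem_insert _ _)
      have : ρ x ≠ ρ z := fun h => hxz (hρ h)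
      obtain ⟨i, hi⟩ := Function.ne_iff.mp this
      refine ⟨max k (i + 1), ?_⟩
      intro y hy
      rcases hy with h | h
      · subst h
        exact ⟨i, lt_of_lt_of_le (Nat.lt_succ_self i) (le_max_right _ _), hi⟩
      · obtain ⟨j, hj, hj'⟩ := hk y h
        exact ⟨j, lt_of_lt_of_le hj (le_max_left _ _), hj'⟩
  obtain ⟨k, hk⟩ := h1
  refine ⟨Encodable.encode ((List.range k).map (ρ x)), ?_, ?_⟩
  · simp [node]
  · intro y hy
    simp only [node, Encodable.encodek, List.length_map, List.length_range,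
      decide_eq_false_iff_not]
    intro h
    obtain ⟨i, hi, hi'⟩ := hk y hy
    have h2 := List.map_inj_left.mp h i (List.mem_range.mpr hi)
    exact hi' h2

theorem lab_infinite (ρ : Ω → ℕ → Bool) (hρ : Function.Injective ρ) {x y : Ω} (h : x ≠ y) :
    {n | lab (node ρ) n x ≠ lab (node ρ) n y}.Infinite := by
  obtain ⟨p, hp, hp'⟩ := exists_sep ρ hρ x (T := {y}) (Set.finite_singleton y) (by simpa using h)
  have hp'' := hp' y rfl
  apply Set.infinite_of_forall_exists_gt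
  intro N
  set K := max N p + 1 with hK
  have hKN : N < 2 ^ K := lt_of_le_of_lt (le_max_left N p)
    (lt_trans (Nat.lt_succ_self _) Nat.lt_two_pow_self)
  have hKp : p < K := lt_of_le_of_lt (le_max_right N p) (Nat.lt_succ_self _)
  by_cases h1 : lab (node ρ) (2 ^ K) x = lab (node ρ) (2 ^ K) y
  · refine ⟨2 ^ K ^^^ 2 ^ p, ?_, ?_⟩
    · show lab (node ρ) (2 ^ K ^^^ 2 ^ p) x ≠ lab (node ρ) (2 ^ K ^^^ 2 ^ p) y
      rw [lab_xor, lab_xor, hp, hp'', h1]
      simp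
    · have h2 : (2 ^ K ^^^ 2 ^ p).testBit K = true := by
        rw [Nat.testBit_xor, Nat.testBit_two_pow, Nat.testBit_two_pow]
        have : ¬ p = K := by omega
        simp [this]
      exact lt_of_lt_of_le hKN (Nat.ge_two_pow_of_testBit h2)
  · exact ⟨2 ^ K, h1, hKN⟩

end nodes

theorem v2_interval (j : ℕ) : ∃ n : ℕ, ∀ N : ℕ, ∃ i ≤ n, padicValNat 2 (N + i) = j := by
  refine ⟨2 ^ (j + 2), ?_⟩
  intro N
  set q := N / 2 ^ (j + 1) + 1 with hq
  have h1 : N < 2 ^ (j + 1) * q := by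
    rw [hq]
    exact Nat.lt_mul_div_succ N (by positivity)
  have h2 : 2 ^ (j + 1) * (q - 1) ≤ N := by
    rw [hq, Nat.add_sub_cancel]
    exact Nat.mul_div_le N _
  have h3 : 2 ^ (j + 1) * q = 2 ^ (j + 1) * (q - 1) + 2 ^ (j + 1) := by
    have hq1 : 1 ≤ q := by rw [hq]; exact Nat.le_add_left _ _
    have : q = (q - 1) + 1 := (Nat.sub_add_cancel hq1).symm
    conv_lhs => rw [this]
    ring
  have h4 : 2 ^ (j + 2) = 2 ^ (j + 1) + 2 ^ (j + 1) := by ring
  have h5 : 2 ^ (j + 1) = 2 ^ j + 2 ^ j := by ring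
  refine ⟨2 ^ (j + 1) * q + 2 ^ j - N, by omega, ?_⟩
  have h6 : N + (2 ^ (j + 1) * q + 2 ^ j - N) = 2 ^ j * (2 * q + 1) := by
    have : N + (2 ^ (j + 1) * q + 2 ^ j - N) = 2 ^ (j + 1) * q + 2 ^ j := by omega
    rw [this]; ring
  rw [h6, padicValNat.mul (by positivity) (by omega), padicValNat.prime_pow,
    padicValNat.eq_zero_of_not_dvd (by omega)]
  simp

section main

variable {Ω : Type u} [LinearOrder Ω] [WellFoundedLT Ω]

/-- the colouring -/
noncomputable def cc (S : CSeq Ω) (ρ : Ω → ℕ → Bool) (α β : Ω) : ℕ :=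
  open Classical in
  Nat.nth (fun n => lab (node ρ) n α ≠ lab (node ρ) n β) (padicValNat 2 (oscf S β α))

theorem cc_mem (S : CSeq Ω) (ρ : Ω → ℕ → Bool) (hρ : Function.Injective ρ) {α β : Ω}
    (h : α < β) : lab (node ρ) (cc S ρ α β) α ≠ lab (node ρ) (cc S ρ α β) β :=
  Nat.nth_mem_of_infinite (lab_infinite ρ hρ (ne_of_lt h)) _

/-- the class of a point in a set -/
def cl (ρ : Ω → ℕ → Bool) (X : Set Ω) (n : ℕ) (x : Ω) : Set Ω :=
  {y | y ∈ X ∧ ∀ i ≤ n, lab (node ρ) i y = lab (node ρ) i x}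

theorem attain (S : CSeq Ω) (ρ : Ω → ℕ → Bool) (hc : ∀ a : Ω, (Set.Iio a).Countable)
    (hu : ¬ (Set.univ : Set Ω).Countable) {X Y : Set Ω} {x y : Ω} {n : ℕ}
    (hX : Unb (cl ρ X n x)) (hY : Unb (cl ρ Y n y))
    (hxy : lab (node ρ) n x ≠ lab (node ρ) n y) :
    ∃ α ∈ X, ∃ β ∈ Y, α < β ∧ cc S ρ α β = n := by
  classical
  obtain ⟨M, hM⟩ := v2_interval (Nat.count (fun n => lab (node ρ) n x ≠ lab (node ρ) n y) n)
  obtain ⟨α, hα, N, β, hβ⟩ := moore S hc hu hX hY M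
  obtain ⟨i, hi, hi'⟩ := hM N
  obtain ⟨h1, h2, h3⟩ := hβ i hi
  refine ⟨α, hα.1, β i, h1.1, h2, ?_⟩
  have hcount : Nat.count (fun n => lab (node ρ) n x ≠ lab (node ρ) n y) n =
      Nat.count (fun n => lab (node ρ) n α ≠ lab (node ρ) n (β i)) n := by
    rw [Nat.count_eq_card_filter_range, Nat.count_eq_card_filter_range]
    congr 1
    apply Finset.filter_congr
    intro k hk
    rw [Finset.mem_range] at hk
    rw [hα.2 k hk.le, h1.2 k hk.le]
  unfold cc
  rw [h3, hi', hcount]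
  have hn : lab (node ρ) n α ≠ lab (node ρ) n (β i) := by
    rw [hα.2 n le_rfl, h1.2 n le_rfl]
    exact hxy
  convert Nat.nth_count (p := fun n => lab (node ρ) n α ≠ lab (node ρ) n (β i)) hn

/-- the good part of a set -/
def gp (ρ : Ω → ℕ → Bool) (X : Set Ω) : Set Ω := {x | x ∈ X ∧ ∀ n, Unb (cl ρ X n x)}

theorem gp_uncountable (ρ : Ω → ℕ → Bool) (hc : ∀ a : Ω, (Set.Iio a).Countable) {X : Set Ω}
    (hX : ¬ X.Countable) : ¬ (gp ρ X).Countable := by
  intro hcon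
  apply hX
  have h1 : X ⊆ gp ρ X ∪ ⋃ n : ℕ, ⋃ v : (Fin (n + 1) → ZMod 2),
      {x | x ∈ X ∧ (fun i : Fin (n + 1) => lab (node ρ) i x) = v ∧ ¬ Unb (cl ρ X n x)} := by
    intro x hx
    by_cases h : ∀ n, Unb (cl ρ X n x)
    · left; exact ⟨hx, h⟩
    · right
      push Not at h
      obtain ⟨n, hn⟩ := h
      rw [Set.mem_iUnion]
      refine ⟨n, ?_⟩
      rw [Set.mem_iUnion]
      exact ⟨_, hx, rfl, hn⟩
  refine (hcon.union ?_).mono h1
  refine Set.countable_iUnion (fun n => Set.countable_iUnion (fun v => ?_))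
  rcases Set.eq_empty_or_nonempty
    {x | x ∈ X ∧ (fun i : Fin (n + 1) => lab (node ρ) i x) = v ∧ ¬ Unb (cl ρ X n x)} with h | h
  · rw [h]; exact Set.countable_empty
  · obtain ⟨x0, hx0, hv0, hn0⟩ := h
    have h2 : (cl ρ X n x0).Countable := by
      by_contra h3
      exact hn0 (unb_of_uncountable hc h3)
    refine h2.mono ?_
    rintro x ⟨hx, hv, -⟩
    refine ⟨hx, ?_⟩
    intro i hi
    have h4 := congrFun (hv.trans hv0.symm) ⟨i, Nat.lt_succ_of_le hi⟩
    exact h4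

/-- The omitted colours have upper Banach density zero. -/
theorem omitted_density (S : CSeq Ω) (ρ : Ω → ℕ → Bool) (hρ : Function.Injective ρ)
    (hc : ∀ a : Ω, (Set.Iio a).Countable) (hu : ¬ (Set.univ : Set Ω).Countable)
    {X Y : Set Ω} (hX : ¬ X.Countable) (hY : ¬ Y.Countable) (m : ℕ) :
    ∃ J : ℕ, ∀ a L : ℕ, {n | n ∈ Set.Ico a (a + L) ∧
      ¬ ∃ α ∈ X, ∃ β ∈ Y, α < β ∧ cc S ρ α β = n}.ncard * 2 ^ m ≤ L + 2 ^ J := by
  classical
  have hX' := gp_uncountable ρ hc hX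
  have hY' := gp_uncountable ρ hc hY
  have hXinf : (gp ρ X).Infinite := fun h => hX' h.countable
  obtain ⟨y0, hy0⟩ : (gp ρ Y).Nonempty := by
    by_contra h
    rw [Set.not_nonempty_iff_eq_empty] at h
    rw [h] at hY'
    exact hY' Set.countable_empty
  set x : ℕ → Ω := fun i => (Set.Infinite.natEmbedding _ hXinf i : gp ρ X) with hx
  have hxX : ∀ i, x i ∈ gp ρ X := fun i => (Set.Infinite.natEmbedding _ hXinf i).2
  have hxinj : Function.Injective x := by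
    intro i j h
    exact (Set.Infinite.natEmbedding _ hXinf).injective (Subtype.ext h)
  have hsep : ∀ j, ∃ p, node ρ p (x j) = true ∧ ∀ l < j, node ρ p (x l) = false := by
    intro j
    obtain ⟨p, hp, hp'⟩ := exists_sep ρ hρ (x j) (T := x '' Set.Iio j)
      ((Set.finite_Iio j).image x) (by
        rintro ⟨l, hl, hl'⟩
        exact absurd (hxinj hl') (ne_of_lt hl))
    exact ⟨p, hp, fun l hl => hp' _ ⟨l, hl, rfl⟩⟩
  obtain ⟨J0, hJ0⟩ := lab_block (node ρ) x hsep m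
  refine ⟨J0 + 1, ?_⟩
  intro a L
  have hconst : ∀ n, (¬ ∃ α ∈ X, ∃ β ∈ Y, α < β ∧ cc S ρ α β = n) →
      ∀ j, lab (node ρ) n (x j) = lab (node ρ) n (x 0) := by
    intro n hn j
    have h1 : ∀ i, lab (node ρ) n (x i) = lab (node ρ) n y0 := by
      intro i
      by_contra h
      exact hn (attain S ρ hc hu ((hxX i).2 n) (hy0.2 n) h)
    rw [h1 j, h1 0]
  -- cover by blocks
  set Gb : ℕ → Finset ℕ := fun b => (Finset.range (2 ^ J0)).filter (fun n =>
      ∀ j ≤ m, lab (node ρ) (b * 2 ^ J0 + n) (x j) = lab (node ρ) (b * 2 ^ J0 + n) (x 0)) with hGb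
  set U : Finset ℕ := (Finset.Icc (a / 2 ^ J0) ((a + L) / 2 ^ J0)).biUnion
    (fun b => (Gb b).image (fun r => b * 2 ^ J0 + r)) with hU
  have hsub : {n | n ∈ Set.Ico a (a + L) ∧
      ¬ ∃ α ∈ X, ∃ β ∈ Y, α < β ∧ cc S ρ α β = n} ⊆ (U : Set ℕ) := by
    rintro n ⟨⟨h1, h2⟩, h3⟩
    rw [hU]
    simp only [Finset.coe_biUnion, Set.mem_iUnion, Finset.mem_coe]
    have hdm : n / 2 ^ J0 * 2 ^ J0 + n % 2 ^ J0 = n := by
      rw [mul_comm]; exact Nat.div_add_mod n _
    refine ⟨n / 2 ^ J0, Finset.mem_Icc.mpr ⟨Nat.div_le_div_right h1, Nat.div_le_div_right h2.le⟩, ?_⟩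
    rw [Finset.mem_image]
    refine ⟨n % 2 ^ J0, ?_, hdm⟩
    rw [hGb, Finset.mem_filter, Finset.mem_range]
    refine ⟨Nat.mod_lt _ (by positivity), ?_⟩
    intro j _
    rw [hdm]
    exact hconst n h3 j
  have hcard : U.card * 2 ^ m ≤ L + 2 ^ (J0 + 1) := by
    have h1 : U.card ≤ ∑ b ∈ Finset.Icc (a / 2 ^ J0) ((a + L) / 2 ^ J0), (Gb b).card := by
      refine le_trans Finset.card_biUnion_le ?_
      exact Finset.sum_le_sum (fun b _ => Finset.card_image_le)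
    have h2 : (∑ b ∈ Finset.Icc (a / 2 ^ J0) ((a + L) / 2 ^ J0), (Gb b).card) * 2 ^ m ≤
        (Finset.Icc (a / 2 ^ J0) ((a + L) / 2 ^ J0)).card * 2 ^ J0 := by
      rw [Finset.sum_mul, ← smul_eq_mul (b := 2 ^ J0), ← Finset.sum_const]
      exact Finset.sum_le_sum (fun b _ => hJ0 J0 le_rfl b)
    have h3 : (Finset.Icc (a / 2 ^ J0) ((a + L) / 2 ^ J0)).card * 2 ^ J0 ≤ L + 2 ^ (J0 + 1) := by
      rw [Nat.card_Icc]
      have h4 : (a + L) / 2 ^ J0 * 2 ^ J0 ≤ a + L := Nat.div_mul_le_self _ _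
      have h5 : a < (a / 2 ^ J0 + 1) * 2 ^ J0 := by
        rw [mul_comm]; exact Nat.lt_mul_div_succ a (by positivity)
      have h6 : a / 2 ^ J0 ≤ (a + L) / 2 ^ J0 := Nat.div_le_div_right (by omega)
      obtain ⟨t, ht⟩ := Nat.exists_eq_add_of_le h6
      have h7 : (a + L) / 2 ^ J0 + 1 - a / 2 ^ J0 = t + 1 := by omega
      rw [h7]
      rw [ht] at h4
      have h8 : (a / 2 ^ J0 + t) * 2 ^ J0 = a / 2 ^ J0 * 2 ^ J0 + t * 2 ^ J0 := by ring
      have h9 : (a / 2 ^ J0 + 1) * 2 ^ J0 = a / 2 ^ J0 * 2 ^ J0 + 2 ^ J0 := by ring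
      have h10 : (t + 1) * 2 ^ J0 = t * 2 ^ J0 + 2 ^ J0 := by ring
      have h11 : 2 ^ (J0 + 1) = 2 ^ J0 + 2 ^ J0 := by ring
      rw [h8] at h4
      rw [h9] at h5
      rw [h10, h11]
      omega
    calc U.card * 2 ^ m ≤ _ := Nat.mul_le_mul_right _ h1
      _ ≤ _ := h2
      _ ≤ _ := h3
  refine le_trans (Nat.mul_le_mul_right _ ?_) hcard
  rw [← Set.ncard_coe_finset]
  exact Set.ncard_le_ncard hsub (Finset.finite_toSet _)

end main

end Pool.Agent.H670
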