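import Pool.Agent.H.MP_670a4f_lc.Walk

set_option autoImplicit false

namespace Pool.Agent.H670

open Set

universe u

variable {Ω : Type u} [LinearOrder Ω] [WellFoundedLT Ω]

/-- unbounded sets -/
def Unb (A : Set Ω) : Prop := ∀ a, ∃ x ∈ A, a < x

theorem countable_Iic (hc : ∀ a : Ω, (Set.Iio a).Countable) (a : Ω) : (Set.Iic a).Countable := by
  rw [← Set.Iio_insert]
  exact (hc a).insert a

theorem bdd_of_countable (hc : ∀ a : Ω, (Set.Iio a).Countable)
    (hu : ¬ (Set.univ : Set Ω).Countable) {T : Set Ω} (hT : T.Countable) :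
    ∃ b, ∀ x ∈ T, x < b := by
  by_contra hcon
  push Not at hcon
  apply hu
  refine (hT.biUnion (fun x _ => countable_Iic hc x)).mono ?_
  intro b _
  obtain ⟨x, hx, hbx⟩ := hcon b
  rw [Set.mem_iUnion₂]
  exact ⟨x, hx, hbx⟩

theorem unb_of_uncountable (hc : ∀ a : Ω, (Set.Iio a).Countable) {A : Set Ω}
    (hA : ¬ A.Countable) : Unb A := by
  by_contra hcon
  unfold Unb at hcon
  push Not at hcon
  obtain ⟨a, ha⟩ := hcon
  exact hA ((countable_Iic hc a).mono (fun x hx => ha x hx))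

/-- closing off under countably many Skolem functions -/
theorem closure (hc : ∀ a : Ω, (Set.Iio a).Countable)
    (hu : ¬ (Set.univ : Set Ω).Countable) {ι : Type} [Countable ι]
    (R : ι → List Ω → Ω → Prop) (a : Ω) :
    ∃ δ, a < δ ∧ (∀ x < δ, ∃ y < δ, x < y) ∧
      ∀ i l, (∀ x ∈ l, x < δ) → (∃ x, R i l x) → ∃ x < δ, R i l x := by
  classical
  let G : ι → List Ω → Ω := fun i l => if h : ∃ x, R i l x then h.choose else a
  have hG : ∀ i l, (∃ x, R i l x) → R i l (G i l) := by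
    intro i l h
    simp only [G, dif_pos h]
    exact h.choose_spec
  have hB : ∀ d : Ω, ∃ b, d < b ∧ ∀ i l, (∀ x ∈ l, x ≤ d) → G i l < b := by
    intro d
    haveI : Countable (Set.Iic d) := (countable_Iic hc d).to_subtype
    have h1 : (insert d (Set.range (fun p : ι × List (Set.Iic d) =>
        G p.1 (p.2.map Subtype.val)))).Countable := (Set.countable_range _).insert d
    obtain ⟨b, hb⟩ := bdd_of_countable hc hu h1
    refine ⟨b, hb d (Set.mem_insert _ _), ?_⟩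
    intro i l hl
    apply hb
    right
    lift l to List (Set.Iic d) using hl
    exact ⟨(i, l), rfl⟩
  choose B hB1 hB2 using hB
  let d : ℕ → Ω := fun n => Nat.rec a (fun _ x => B x) n
  have hd0 : d 0 = a := rfl
  have hds : ∀ n, d (n + 1) = B (d n) := fun n => rfl
  have hdlt : ∀ n, d n < d (n + 1) := fun n => by rw [hds]; exact hB1 _
  have hmono : StrictMono d := strictMono_nat_of_lt_succ hdlt
  have hne : {b : Ω | ∀ n, d n < b}.Nonempty := by
    obtain ⟨b, hb⟩ := bdd_of_countable hc hu (Set.countable_range d)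
    exact ⟨b, fun n => hb _ ⟨n, rfl⟩⟩
  set δ := (wellFounded_lt (α := Ω)).min _ hne with hδ
  have hδ1 : ∀ n, d n < δ := (wellFounded_lt (α := Ω)).min_mem _ hne
  have hδ2 : ∀ x, x < δ → ∃ n, x ≤ d n := by
    intro x hx
    by_contra hcon
    push Not at hcon
    have hm : x ∈ {b : Ω | ∀ n, d n < b} := hcon
    exact WellFounded.not_lt_min _ _ hm hx
  have hlist : ∀ l : List Ω, (∀ x ∈ l, x < δ) → ∃ n, ∀ x ∈ l, x ≤ d n := by
    intro l
    induction l with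
    | nil => intro _; exact ⟨0, by simp⟩
    | cons y l ih =>
      intro h
      obtain ⟨n, hn⟩ := ih (fun x hx => h x (List.mem_cons_of_mem _ hx))
      obtain ⟨m, hm⟩ := hδ2 y (h y (List.mem_cons_self))
      refine ⟨max n m, ?_⟩
      intro x hx
      rcases List.mem_cons.mp hx with h1 | h1
      · subst h1
        exact le_trans hm (hmono.monotone (le_max_right _ _))
      · exact le_trans (hn x h1) (hmono.monotone (le_max_left _ _))
  refine ⟨δ, hδ1 0, ?_, ?_⟩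
  · intro x hx
    obtain ⟨n, hn⟩ := hδ2 x hx
    exact ⟨d (n + 1), hδ1 (n + 1), lt_of_le_of_lt hn (hdlt n)⟩
  · intro i l hl hex
    obtain ⟨n, hn⟩ := hlist l hl
    refine ⟨G i l, ?_, hG i l hex⟩
    have := hB2 (d n) i l hn
    rw [← hds] at this
    exact lt_trans this (hδ1 (n + 1))

/-- bound below a limit for a finite set -/
theorem finite_bdd {δ : Ω} (hlim : ∀ x < δ, ∃ y < δ, x < y) (hz : ∃ z, z < δ) {T : Set Ω}
    (hT : T.Finite) (hTδ : ∀ x ∈ T, x < δ) : ∃ b < δ, ∀ x ∈ T, x < b := by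
  induction T, hT using Set.Finite.induction_on with
  | empty => obtain ⟨z, hz⟩ := hz; exact ⟨z, hz, by simp⟩
  | insert _ _ ih =>
    rename_i x T _ _
    obtain ⟨b, hb, hb'⟩ := ih (fun y hy => hTδ y (Set.mem_insert_of_mem _ hy))
    obtain ⟨c, hc, hc'⟩ := hlim x (hTδ x (Set.mem_insert _ _))
    refine ⟨max b c, max_lt hb hc, ?_⟩
    intro y hy
    rcases hy with h | h
    · subst h; exact lt_of_lt_of_le hc' (le_max_right _ _)
    · exact lt_of_lt_of_le (hb' y h) (le_max_left _ _)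

variable (S : CSeq Ω)

/-- the property of the bound in the lemma on large values -/
def NuProp (A : Set Ω) (ν : Ω) : Prop :=
  ∀ (L : List Ω), (∀ x ∈ L, ν ≤ x) → ∀ (n : ℕ) (ε : Ω), ∃ α ∈ A, ε < α ∧ ∀ x ∈ L, n < S.e α x

theorem exists_nu (hc : ∀ a : Ω, (Set.Iio a).Countable)
    (hu : ¬ (Set.univ : Set Ω).Countable) {A : Set Ω} (hA : Unb A) : ∃ ν, NuProp S A ν := by
  classical
  have key : ∀ n : ℕ, ∃ ν : Ω, ∀ (L : List Ω), (∀ x ∈ L, ν ≤ x) → ∀ (ε : Ω),
      ∃ α ∈ A, ε < α ∧ ∀ x ∈ L, n < S.e α x := by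
    intro n
    by_contra hcon
    push Not at hcon
    choose L hL ε hε using hcon
    -- next bound
    have hnext : ∀ ν : Ω, ∃ ν', ν < ν' ∧ (∀ x ∈ L ν, x < ν') := by
      intro ν
      have h1 : (insert ν {x | x ∈ L ν}).Countable :=
        ((List.finite_toSet (L ν)).countable).insert ν
      obtain ⟨b, hb⟩ := bdd_of_countable hc hu h1
      exact ⟨b, hb ν (Set.mem_insert _ _), fun x hx => hb x (Set.mem_insert_of_mem _ hx)⟩
    choose N hN1 hN2 using hnext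
    have hne : Nonempty Ω := by
      by_contra h
      rw [not_nonempty_iff] at h
      exact hu (Set.countable_univ)
    obtain ⟨a⟩ := hne
    let d : ℕ → Ω := fun n => Nat.rec a (fun _ x => N x) n
    have hds : ∀ n, d (n + 1) = N (d n) := fun n => rfl
    have hmono : StrictMono d := strictMono_nat_of_lt_succ (fun n => by rw [hds]; exact hN1 _)
    obtain ⟨b, hb⟩ := bdd_of_countable hc hu
      (T := Set.range (fun n => max (ε (d n)) (d n))) (Set.countable_range _)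
    obtain ⟨α, hαA, hα⟩ := hA b
    have hb1 : ∀ m, ε (d m) < α := fun m =>
      lt_trans (lt_of_le_of_lt (le_max_left _ _) (hb _ ⟨m, rfl⟩)) hα
    have hb2 : ∀ m, d m < α := fun m =>
      lt_trans (lt_of_le_of_lt (le_max_right _ _) (hb _ ⟨m, rfl⟩)) hα
    have hx : ∀ m, ∃ x ∈ L (d m), S.e α x ≤ n := by
      intro m
      exact hε (d m) α hαA (hb1 m)
    choose x hx1 hx2 using hx
    have hxm : StrictMono x := by
      apply strictMono_nat_of_lt_succ
      intro m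
      have h1 : x m < d (m + 1) := by rw [hds]; exact hN2 _ _ (hx1 m)
      exact lt_of_lt_of_le h1 (hL _ _ (hx1 (m + 1)))
    have hinf : (Set.range x).Infinite := Set.infinite_range_of_injective hxm.injective
    apply hinf
    refine (S.e_fin α n).subset ?_
    rintro y ⟨m, rfl⟩
    refine ⟨?_, hx2 m⟩
    have h1 : x m < d (m + 1) := by rw [hds]; exact hN2 _ _ (hx1 m)
    exact lt_trans h1 (hb2 (m + 1))
  choose ν hν using key
  obtain ⟨b, hb⟩ := bdd_of_countable hc hu (Set.countable_range ν)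
  refine ⟨b, ?_⟩
  intro L hL n ε
  exact hν n L (fun x hx => le_trans (hb _ ⟨n, rfl⟩).le (hL x hx)) ε

/-- The part of `A` with prescribed values. -/
def AA (A : Set Ω) (l : List Ω) (a : List ℕ) : Set Ω := {α | α ∈ A ∧ l.map (S.e α) = a}

def Phi0 (β δ γ0 ξ0 : Ω) : Prop :=
  ∀ ξ, ξ0 < ξ → ξ < δ → S.F β ξ = S.F β δ ++ S.F δ ξ ∧ S.F δ ξ ≠ [] ∧ ∀ x ∈ S.F δ ξ, γ0 < x

def PhiEq (A B : Set Ω) (l : List Ω) (a b : List ℕ) (γ0 ξ0 δ : Ω) : Prop :=
  ∃ α ∈ A, ∃ β ∈ B, δ < α ∧ δ < β ∧ S.F β δ = l ∧ l.map (S.e α) = a ∧ l.map (S.e β) = b ∧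
    (∀ ξ, γ0 < ξ → ξ < δ → S.e α ξ = S.e β ξ) ∧ Phi0 S β δ γ0 ξ0

def PhiB (B : Set Ω) (l : List Ω) (b : List ℕ) (γ0 ξ0 δ : Ω) : Prop :=
  ∃ β ∈ B, δ < β ∧ S.F β δ = l ∧ l.map (S.e β) = b ∧ Phi0 S β δ γ0 ξ0

structure Good (A B : Set Ω) (δ : Ω) : Prop where
  lim : ∀ x < δ, ∃ y < δ, x < y
  pos : ∃ z, z < δ
  g2 : ∀ l a b γ0 ξ0, (∀ x ∈ l, x < δ) → γ0 < δ → ξ0 < δ → PhiEq S A B l a b γ0 ξ0 δ →
    ∃ δ', δ < δ' ∧ PhiEq S A B l a b γ0 ξ0 δ'
  g3 : ∀ l b γ0 ξ0, (∀ x ∈ l, x < δ) → γ0 < δ → ξ0 < δ → PhiB S B l b γ0 ξ0 δ →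
    ∃ δ', δ < δ' ∧ PhiB S B l b γ0 ξ0 δ'
  g4 : ∀ l a, (∀ x ∈ l, x < δ) → (∃ α ∈ AA S A l a, δ ≤ α) →
    (∀ γ1 < δ, ∃ α ∈ AA S A l a, γ1 < α ∧ α < δ) ∧ ∃ ν < δ, NuProp S (AA S A l a) ν

/-- The relation to close under. -/
def Rel (A B : Set Ω) : (ℕ × List ℕ × List ℕ) → List Ω → Ω → Prop
  | (0, a, b), γ0 :: ξ0 :: l, x => ∀ δ', PhiEq S A B l a b γ0 ξ0 δ' → δ' ≤ x
  | (1, _, b), γ0 :: ξ0 :: l, x => ∀ δ', PhiB S B l b γ0 ξ0 δ' → δ' ≤ x
  | (2, a, _), l, x => ∀ α ∈ AA S A l a, α ≤ x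
  | (3, a, _), γ1 :: l, x => x ∈ AA S A l a ∧ γ1 < x
  | (4, a, _), l, x => NuProp S (AA S A l a) x
  | _, _, _ => False

theorem exists_good (hc : ∀ a : Ω, (Set.Iio a).Countable)
    (hu : ¬ (Set.univ : Set Ω).Countable) (A B : Set Ω) (a0 : Ω) :
    ∃ δ, a0 < δ ∧ Good S A B δ := by
  obtain ⟨δ, h0, hlim, hR⟩ := closure hc hu (Rel S A B) a0
  refine ⟨δ, h0, ⟨hlim, ⟨a0, h0⟩, ?_, ?_, ?_⟩⟩
  · intro l a b γ0 ξ0 hl hγ0 hξ0 hP
    by_contra hcon
    push Not at hcon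
    obtain ⟨x, hx, hx'⟩ := hR (0, a, b) (γ0 :: ξ0 :: l) (by
      intro x hx
      simp only [List.mem_cons] at hx
      rcases hx with h | h | h
      · rw [h]; exact hγ0
      · rw [h]; exact hξ0
      · exact hl x h) ⟨δ, by
        show ∀ δ', PhiEq S A B l a b γ0 ξ0 δ' → δ' ≤ δ
        intro δ' hδ'
        by_contra h
        exact hcon δ' (not_le.mp h) hδ'⟩
    have hx'' : ∀ δ', PhiEq S A B l a b γ0 ξ0 δ' → δ' ≤ x := hx'
    exact absurd (lt_of_le_of_lt (hx'' δ hP) hx) (lt_irrefl _)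
  · intro l b γ0 ξ0 hl hγ0 hξ0 hP
    by_contra hcon
    push Not at hcon
    obtain ⟨x, hx, hx'⟩ := hR (1, b, b) (γ0 :: ξ0 :: l) (by
      intro x hx
      simp only [List.mem_cons] at hx
      rcases hx with h | h | h
      · rw [h]; exact hγ0
      · rw [h]; exact hξ0
      · exact hl x h) ⟨δ, by
        show ∀ δ', PhiB S B l b γ0 ξ0 δ' → δ' ≤ δ
        intro δ' hδ'
        by_contra h
        exact hcon δ' (not_le.mp h) hδ'⟩
    have hx'' : ∀ δ', PhiB S B l b γ0 ξ0 δ' → δ' ≤ x := hx'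
    exact absurd (lt_of_le_of_lt (hx'' δ hP) hx) (lt_irrefl _)
  · rintro l a hl ⟨α, hα, hδα⟩
    have hunb : Unb (AA S A l a) := by
      by_contra hcon
      unfold Unb at hcon
      push Not at hcon
      obtain ⟨x0, hx0⟩ := hcon
      obtain ⟨x, hx, hx'⟩ := hR (2, a, a) l hl ⟨x0, hx0⟩
      have hx'' : ∀ α ∈ AA S A l a, α ≤ x := hx'
      exact absurd (lt_of_le_of_lt (le_trans hδα (hx'' α hα)) hx) (lt_irrefl _)
    constructor
    · intro γ1 hγ1
      obtain ⟨y, hy, hy'⟩ := hunb γ1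
      obtain ⟨x, hx, hx'⟩ := hR (3, a, a) (γ1 :: l) (by
        intro x hx
        simp only [List.mem_cons] at hx
        rcases hx with h | h
        · rw [h]; exact hγ1
        · exact hl x h) ⟨y, hy, hy'⟩
      exact ⟨x, hx'.1, hx'.2, hx⟩
    · obtain ⟨ν, hν⟩ := exists_nu S hc hu hunb
      obtain ⟨x, hx, hx'⟩ := hR (4, a, a) l hl ⟨ν, hν⟩
      exact ⟨x, hx, hx'⟩

theorem exists_phi0 {β δ γ0 : Ω} (hlim : ∀ x < δ, ∃ y < δ, x < y) (hγ0 : γ0 < δ)
    (hβ : δ < β) : ∃ ξ0 < δ, Phi0 S β δ γ0 ξ0 := by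
  obtain ⟨h, hh, hh'⟩ := S.F_append β δ hβ hlim ⟨γ0, hγ0⟩
  obtain ⟨ξ, hξ, hξ'⟩ := S.F_high hlim hγ0
  refine ⟨max h ξ, max_lt hh hξ, ?_⟩
  intro ζ h1 h2
  exact ⟨hh' ζ (lt_of_le_of_lt (le_max_left _ _) h1) h2,
    hξ' ζ (lt_of_le_of_lt (le_max_right _ _) h1) h2⟩

variable {A B : Set Ω} {δ : Ω}

theorem eqStep (hG : Good S A B δ) {α β : Ω} (hα : α ∈ A) (hβ : β ∈ B) (hδα : δ < α)
    (hδβ : δ < β) :
    ∃ α' ∈ A, ∃ β' ∈ B, δ < α' ∧ δ < β' ∧ ∃ K : List Ω, K ≠ [] ∧ S.F β' δ = S.F β δ ++ K ∧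
      (∀ x ∈ S.F β δ, S.e α' x = S.e α x) ∧ (∀ x ∈ S.F β δ, S.e β' x = S.e β x) ∧
      ∀ x ∈ K, S.e α' x = S.e β' x := by
  obtain ⟨γ0, hγ0, hγ0'⟩ := finite_bdd hG.lim hG.pos (S.e_coh' hδα.le hδβ.le)
    (fun x hx => hx.1)
  obtain ⟨ξ0, hξ0, hξ0'⟩ := exists_phi0 S hG.lim hγ0 hδβ
  have hP : PhiEq S A B (S.F β δ) ((S.F β δ).map (S.e α)) ((S.F β δ).map (S.e β)) γ0 ξ0 δ := by
    refine ⟨α, hα, β, hβ, hδα, hδβ, rfl, rfl, rfl, ?_, hξ0'⟩
    intro ξ h1 h2
    by_contra hcon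
    exact lt_asymm h1 (hγ0' ξ ⟨h2, hcon⟩)
  obtain ⟨δ', hδ', α', hα', β', hβ', h1, h2, h3, h4, h5, h6, h7⟩ :=
    hG.g2 _ _ _ _ _ (fun x hx => S.F_lt β δ x hx) hγ0 hξ0 hP
  obtain ⟨h8, h9, h10⟩ := h7 δ hξ0 hδ'
  refine ⟨α', hα', β', hβ', lt_trans hδ' h1, lt_trans hδ' h2, S.F δ' δ, h9, ?_, ?_, ?_, ?_⟩
  · rw [h8, h3]
  · exact List.map_inj_left.mp h4
  · exact List.map_inj_left.mp h5
  · intro x hx
    exact h6 x (h10 x hx) (lt_trans (S.F_lt _ _ x hx) hδ')

theorem gtStep (hG : Good S A B δ) {α β : Ω} (hα : α ∈ A) (hβ : β ∈ B) (hδα : δ < α)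
    (hδβ : δ < β) :
    ∃ α' ∈ A, ∃ β' ∈ B, δ < α' ∧ δ < β' ∧ ∃ J : List Ω, J ≠ [] ∧ S.F β' δ = S.F β δ ++ J ∧
      (∀ x ∈ S.F β δ, S.e α' x = S.e α x) ∧ (∀ x ∈ S.F β δ, S.e β' x = S.e β x) ∧
      ∀ x ∈ J, S.e β' x < S.e α' x := by
  have hl : ∀ x ∈ S.F β δ, x < δ := fun x hx => S.F_lt β δ x hx
  obtain ⟨-, γ0, hγ0, hν⟩ := hG.g4 (S.F β δ) ((S.F β δ).map (S.e α)) hl
    ⟨α, ⟨hα, rfl⟩, hδα.le⟩
  obtain ⟨ξ0, hξ0, hξ0'⟩ := exists_phi0 S hG.lim hγ0 hδβ
  have hP : PhiB S B (S.F β δ) ((S.F β δ).map (S.e β)) γ0 ξ0 δ :=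
    ⟨β, hβ, hδβ, rfl, rfl, hξ0'⟩
  obtain ⟨δ', hδ', β', hβ', h2, h3, h5, h7⟩ := hG.g3 _ _ _ _ hl hγ0 hξ0 hP
  obtain ⟨h8, h9, h10⟩ := h7 δ hξ0 hδ'
  obtain ⟨n, hn⟩ : ∃ n, ∀ x ∈ S.F δ' δ, S.e β' x ≤ n := by
    refine ⟨((S.F δ' δ).map (S.e β')).foldr max 0, ?_⟩
    intro x hx
    exact List.le_max_of_le' 0 (List.mem_map_of_mem hx) le_rfl
  obtain ⟨α', hα', h11, h12⟩ := hν (S.F δ' δ) (fun x hx => (h10 x hx).le) n δ
  refine ⟨α', hα'.1, β', hβ', h11, lt_trans hδ' h2, S.F δ' δ, h9, ?_, ?_, ?_, ?_⟩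
  · rw [h8, h3]
  · exact List.map_inj_left.mp hα'.2
  · exact List.map_inj_left.mp h5
  · intro x hx
    exact lt_of_le_of_lt (hn x hx) (h12 x hx)

/-- number of passages from false to true -/
def osc : Bool → List Bool → ℕ
  | _, [] => 0
  | p, b :: l => (if p = false ∧ b = true then 1 else 0) + osc b l

def lastB : Bool → List Bool → Bool
  | p, [] => p
  | _, b :: l => lastB b l

theorem osc_append (p : Bool) (l l' : List Bool) :
    osc p (l ++ l') = osc p l + osc (lastB p l) l' := by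
  induction l generalizing p with
  | nil => simp [osc, lastB]
  | cons b l ih => simp only [List.cons_append, osc, lastB, ih]; ring

theorem lastB_append (p : Bool) (l l' : List Bool) :
    lastB p (l ++ l') = lastB (lastB p l) l' := by
  induction l generalizing p with
  | nil => simp [lastB]
  | cons b l ih => simp only [List.cons_append, lastB, ih]

theorem osc_false {p : Bool} {l : List Bool} (h : ∀ b ∈ l, b = false) : osc p l = 0 := by
  induction l generalizing p with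
  | nil => rfl
  | cons b l ih =>
    have hb : b = false := h b List.mem_cons_self
    subst hb
    simp only [osc, ih (fun b hb => h b (List.mem_cons_of_mem _ hb))]
    simp

theorem lastB_const {p q : Bool} {l : List Bool} (hl : l ≠ []) (h : ∀ b ∈ l, b = q) :
    lastB p l = q := by
  induction l generalizing p with
  | nil => exact absurd rfl hl
  | cons b l ih =>
    have hb : b = q := h b List.mem_cons_self
    subst hb
    rcases l with _ | ⟨c, l⟩
    · rfl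
    · simp only [lastB]
      have := ih (p := b) (by simp) (fun b hb => h b (List.mem_cons_of_mem _ hb))
      simpa [lastB] using this

theorem osc_true_true {l : List Bool} (h : ∀ b ∈ l, b = true) : osc true l = 0 := by
  induction l with
  | nil => rfl
  | cons b l ih =>
    have hb : b = true := h b List.mem_cons_self
    subst hb
    simp only [osc, ih (fun b hb => h b (List.mem_cons_of_mem _ hb))]
    simp

theorem osc_false_true {l : List Bool} (hl : l ≠ []) (h : ∀ b ∈ l, b = true) :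
    osc false l = 1 := by
  rcases l with _ | ⟨b, l⟩
  · exact absurd rfl hl
  · have hb : b = true := h b List.mem_cons_self
    subst hb
    simp only [osc, osc_true_true (fun b hb => h b (List.mem_cons_of_mem _ hb))]
    simp

/-- the comparison word -/
noncomputable def word (α β : Ω) (l : List Ω) : List Bool :=
  l.map (fun x => decide (S.e β x < S.e α x))

theorem word_append (α β : Ω) (l l' : List Ω) :
    word S α β (l ++ l') = word S α β l ++ word S α β l' := by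
  simp [word]

theorem word_congr {α α' β β' : Ω} {l : List Ω} (h : ∀ x ∈ l, S.e α x = S.e α' x)
    (h' : ∀ x ∈ l, S.e β x = S.e β' x) : word S α β l = word S α' β' l := by
  unfold word
  apply List.map_congr_left
  intro x hx
  rw [h x hx, h' x hx]

/-- the oscillation function -/
noncomputable def oscf (β α : Ω) : ℕ := osc true (word S α β (S.F β α))

theorem iterate (hG : Good S A B δ) (hA : Unb A) (hB : Unb B) :
    ∃ k : ℕ, ∀ m : ℕ, ∃ α ∈ A, δ < α ∧ ∃ β : ℕ → Ω, ∀ i ≤ m, β i ∈ B ∧ δ < β i ∧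
      S.F (β i) δ <+: S.F (β m) δ ∧ osc true (word S α (β i) (S.F (β i) δ)) = k + i ∧
      lastB true (word S α (β i) (S.F (β i) δ)) = true := by
  obtain ⟨α0, hα0, hδα0⟩ := hA δ
  obtain ⟨β0, hβ0, hδβ0⟩ := hB δ
  obtain ⟨α1, hα1, β1, hβ1, h1, h2, J, hJ, hF, -, -, hJ'⟩ := gtStep S hG hα0 hβ0 hδα0 hδβ0
  refine ⟨osc true (word S α1 β1 (S.F β1 δ)), ?_⟩
  intro m
  induction m with
  | zero =>
    refine ⟨α1, hα1, h1, fun _ => β1, ?_⟩
    intro i hi
    have hi0 : i = 0 := Nat.le_zero.mp hi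
    subst hi0
    refine ⟨hβ1, h2, List.prefix_refl _, rfl, ?_⟩
    rw [hF, word_append, lastB_append]
    apply lastB_const
    · simpa [word] using hJ
    · intro b hb
      simp only [word, List.mem_map] at hb
      obtain ⟨x, hx, rfl⟩ := hb
      simpa using hJ' x hx
  | succ m ih =>
    obtain ⟨α, hα, hδα, β, hβ⟩ := ih
    obtain ⟨hβm, hδβm, -, hoscm, hlastm⟩ := hβ m le_rfl
    obtain ⟨α2, hα2, β2, hβ2, hδα2, hδβ2, K, hK, hF2, ha2, hb2, hK'⟩ :=
      eqStep S hG hα hβm hδα hδβm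
    obtain ⟨α3, hα3, β3, hβ3, hδα3, hδβ3, J, hJ, hF3, ha3, hb3, hJ'⟩ :=
      gtStep S hG hα2 hβ2 hδα2 hδβ2
    have ha : ∀ x ∈ S.F (β m) δ, S.e α3 x = S.e α x := by
      intro x hx
      rw [ha3 x (by rw [hF2]; exact List.mem_append_left _ hx), ha2 x hx]
    have hb : ∀ x ∈ S.F (β m) δ, S.e β3 x = S.e (β m) x := by
      intro x hx
      rw [hb3 x (by rw [hF2]; exact List.mem_append_left _ hx), hb2 x hx]
    have hpre : S.F (β m) δ <+: S.F β3 δ := by
      rw [hF3, hF2, List.append_assoc]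
      exact List.prefix_append _ _
    refine ⟨α3, hα3, hδα3, Function.update β (m + 1) β3, ?_⟩
    intro i hi
    rcases Nat.eq_or_lt_of_le hi with h | h
    · subst h
      rw [Function.update_self]
      have hw : word S α3 β3 (S.F β3 δ) =
          word S α (β m) (S.F (β m) δ) ++ (word S α3 β3 K ++ word S α3 β3 J) := by
        rw [hF3, hF2, word_append, word_append, List.append_assoc]
        congr 1
        exact word_congr S ha hb
      have hKf : ∀ b ∈ word S α3 β3 K, b = false := by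
        intro b hb
        simp only [word, List.mem_map] at hb
        obtain ⟨x, hx, rfl⟩ := hb
        have hx2 : x ∈ S.F β2 δ := by rw [hF2]; exact List.mem_append_right _ hx
        simp [ha3 x hx2, hb3 x hx2, hK' x hx]
      have hJt : ∀ b ∈ word S α3 β3 J, b = true := by
        intro b hb
        simp only [word, List.mem_map] at hb
        obtain ⟨x, hx, rfl⟩ := hb
        simpa using hJ' x hx
      have hKne : word S α3 β3 K ≠ [] := by simpa [word] using hK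
      have hJne : word S α3 β3 J ≠ [] := by simpa [word] using hJ
      refine ⟨hβ3, hδβ3, List.prefix_refl _, ?_, ?_⟩
      · rw [hw, osc_append, hoscm, hlastm, osc_append, osc_false hKf, lastB_const hKne hKf,
          osc_false_true hJne hJt]
        ring
      · rw [hw, lastB_append, lastB_append, lastB_const hJne hJt]
    · have him : i ≤ m := Nat.lt_succ_iff.mp h
      obtain ⟨g1, g2, g3, g4, g5⟩ := hβ i him
      rw [Function.update_of_ne (by omega), Function.update_self]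
      have hw : word S α3 (β i) (S.F (β i) δ) = word S α (β i) (S.F (β i) δ) := by
        apply word_congr
        · intro x hx
          exact ha x (g3.subset hx)
        · intro x hx; rfl
      rw [hw]
      exact ⟨g1, g2, g3.trans hpre, g4, g5⟩

/-- Moore's theorem: on every pair of unbounded sets, `oscf` takes arbitrarily long intervals
of values. -/
theorem moore (hc : ∀ a : Ω, (Set.Iio a).Countable)
    (hu : ¬ (Set.univ : Set Ω).Countable) (hA : Unb A) (hB : Unb B) (n : ℕ) :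
    ∃ α ∈ A, ∃ N : ℕ, ∃ β : ℕ → Ω, ∀ i ≤ n, β i ∈ B ∧ α < β i ∧ oscf S (β i) α = N + i := by
  have hne : Nonempty Ω := by
    by_contra h
    rw [not_nonempty_iff] at h
    exact hu (Set.countable_univ)
  obtain ⟨a0⟩ := hne
  obtain ⟨δ, -, hG⟩ := exists_good S hc hu A B a0
  obtain ⟨k, hk⟩ := iterate S hG hA hB
  obtain ⟨α, hα, hδα, β, hβ⟩ := hk n
  -- bounds
  have h1 : ∃ h < δ, ∀ i ≤ n, ∀ ξ, h < ξ → ξ < δ → S.F (β i) ξ = S.F (β i) δ ++ S.F δ ξ := by
    have : ∀ i : ℕ, ∃ h < δ, i ≤ n → ∀ ξ, h < ξ → ξ < δ →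
        S.F (β i) ξ = S.F (β i) δ ++ S.F δ ξ := by
      intro i
      by_cases hi : i ≤ n
      · obtain ⟨h, hh, hh'⟩ := S.F_append (β i) δ (hβ i hi).2.1 hG.lim hG.pos
        exact ⟨h, hh, fun _ => hh'⟩
      · obtain ⟨z, hz⟩ := hG.pos
        exact ⟨z, hz, fun h => absurd h hi⟩
    choose h hh hh' using this
    obtain ⟨b, hb, hb'⟩ := finite_bdd hG.lim hG.pos (T := h '' Set.Iic n)
      ((Set.finite_Iic n).image h) (by rintro x ⟨i, -, rfl⟩; exact hh i)
    refine ⟨b, hb, ?_⟩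
    intro i hi ξ hξ hξ'
    exact hh' i hi ξ (lt_trans (hb' _ ⟨i, hi, rfl⟩) hξ) hξ'
  have h2 : ∃ g < δ, ∀ i ≤ n, ∀ ξ, g < ξ → ξ < δ → S.e (β i) ξ = S.e (β 0) ξ := by
    have hfin : (⋃ i ∈ Set.Iic n, {ξ | ξ < δ ∧ S.e (β i) ξ ≠ S.e (β 0) ξ}).Finite := by
      refine Set.Finite.biUnion (Set.finite_Iic n) ?_
      intro i hi
      exact S.e_coh' (hβ i hi).2.1.le (hβ 0 (Nat.zero_le _)).2.1.le
    obtain ⟨b, hb, hb'⟩ := finite_bdd hG.lim hG.pos hfin (by
      intro x hx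
      rw [Set.mem_iUnion₂] at hx
      obtain ⟨i, _, hx⟩ := hx
      exact hx.1)
    refine ⟨b, hb, ?_⟩
    intro i hi ξ hξ hξ'
    by_contra hcon
    refine lt_asymm hξ (hb' ξ ?_)
    rw [Set.mem_iUnion₂]
    exact ⟨i, hi, hξ', hcon⟩
  obtain ⟨h, hh, hh'⟩ := h1
  obtain ⟨g, hg, hg'⟩ := h2
  obtain ⟨ξ1, hξ1, hξ1'⟩ := S.F_high hG.lim hg
  obtain ⟨hX, -⟩ := hG.g4 (S.F (β n) δ) ((S.F (β n) δ).map (S.e α))
    (fun x hx => S.F_lt _ _ x hx) ⟨α, ⟨hα, rfl⟩, hδα.le⟩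
  obtain ⟨α', hα', hα1, hα2⟩ := hX (max h ξ1) (max_lt hh hξ1)
  have hval : ∀ x ∈ S.F (β n) δ, S.e α' x = S.e α x := List.map_inj_left.mp hα'.2
  refine ⟨α', hα'.1, k + osc true (word S α' (β 0) (S.F δ α')), β, ?_⟩
  intro i hi
  obtain ⟨g1, g2, g3, g4, g5⟩ := hβ i hi
  refine ⟨g1, lt_trans hα2 g2, ?_⟩
  have e1 : S.F (β i) α' = S.F (β i) δ ++ S.F δ α' :=
    hh' i hi α' (lt_of_le_of_lt (le_max_left _ _) hα1) hα2
  have e2 : word S α' (β i) (S.F (β i) δ) = word S α (β i) (S.F (β i) δ) :=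
    word_congr S (fun x hx => hval x (g3.subset hx)) (fun x _ => rfl)
  have e3 : word S α' (β i) (S.F δ α') = word S α' (β 0) (S.F δ α') := by
    apply word_congr S (fun x _ => rfl)
    intro x hx
    have h3 := (hξ1' α' (lt_of_le_of_lt (le_max_right _ _) hα1) hα2).2 x hx
    exact hg' i hi x h3 (lt_trans (S.F_lt _ _ x hx) hα2)
  unfold oscf
  rw [e1, word_append, e2, e3, osc_append, g4, g5]
  ring

end Pool.Agent.H670
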