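import Pool.Agent.H.MP_670a4f_lc.Split

/-!
# MP_670a4f_lc, Om: the countable ordinals
-/

set_option autoImplicit false

namespace Pool.Agent.H.MP_670a4f_lc

open Set Cardinal

/-- The countable ordinals. -/
abbrev Om := {o : Ordinal.{0} // o < (Cardinal.aleph 1).ord}

theorem mk_om : #Om = Cardinal.aleph 1 := by
  have h1 : #(Set.Iio ((Cardinal.aleph.{0} 1).ord)) = Cardinal.lift.{1} ((Cardinal.aleph.{0} 1).ord).card :=
    Cardinal.mk_Iio_ordinal _
  rw [Cardinal.card_ord, Cardinal.lift_aleph, Ordinal.lift_one] at h1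
  exact h1

instance : Uncountable Om := by
  rw [← Cardinal.aleph0_lt_mk_iff, mk_om]
  exact Cardinal.aleph0_lt_aleph_one

theorem om_countable (a : Om) : (Iio a).Countable := by
  have h1 : (Set.Iio (a : Ordinal.{0})).Countable := by
    rw [← Cardinal.le_aleph0_iff_set_countable, Cardinal.mk_Iio_ordinal, Cardinal.lift_le_aleph0]
    have h2 : (a : Ordinal.{0}).card < Order.succ Cardinal.aleph0 := by
      rw [Cardinal.succ_aleph0]
      exact Cardinal.lt_ord.1 a.2
    exact Order.lt_succ_iff.1 h2
  have h3 : (Subtype.val '' (Iio a) : Set Ordinal.{0}).Countable := by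
    apply h1.mono
    rintro _ ⟨b, hb, rfl⟩
    exact hb
  exact Set.countable_of_injective_of_countable_image Subtype.val_injective.injOn h3

theorem om_real : ∃ r : Om → ℕ → Bool, Function.Injective r := by
  have h1 : Cardinal.lift.{0} #Om ≤ Cardinal.lift.{1} #(ℕ → Bool) := by
    rw [mk_om]
    have h2 : #(ℕ → Bool) = Cardinal.continuum := by simp
    rw [h2, Cardinal.lift_continuum, Cardinal.lift_aleph]
    simpa using Cardinal.aleph_one_le_continuum
  obtain ⟨f⟩ := Cardinal.lift_mk_le'.1 h1
  exact ⟨f, f.injective⟩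

theorem om_cp : Cp Om := by
  intro Y hY
  have h1 : #Om ≤ #Y := by
    rw [mk_om]
    have h2 : Cardinal.aleph0 < #Y := by
      rw [← not_le]
      intro h
      exact hY (Cardinal.le_aleph0_iff_set_countable.1 h)
    rw [← Cardinal.succ_aleph0]
    exact Order.succ_le_of_lt h2
  obtain ⟨f⟩ := h1
  exact ⟨fun w => (f w : Om), fun v w h => f.injective (Subtype.ext h), fun w => (f w).2⟩

end Pool.Agent.H.MP_670a4f_lc
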