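import Pool.Agent.H.MP_670a4f_lc.General

set_option autoImplicit false

namespace Pool.Agent.H670

theorem iio_countable (a : {o : Ordinal.{0} // o < (Cardinal.aleph 1).ord}) :
    (Set.Iio a).Countable := by
  have h1 : (Set.Iio a.1 : Set Ordinal.{0}).Countable := by
    rw [Cardinal.countable_iff_lt_aleph_one, Cardinal.mk_Iio_ordinal]
    have h2 : a.1.card < Cardinal.aleph 1 := Cardinal.lt_ord.mp a.2
    have h3 := Cardinal.lift_lt.{0, 1}.mpr h2
    simpa using h3
  have hm : Set.MapsTo (Subtype.val) (Set.Iio a) (Set.Iio a.1 : Set Ordinal.{0}) :=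
    fun x hx => hx
  exact hm.countable_of_injOn (fun x _ y _ h => Subtype.ext h) h1

theorem mk_omega1 : Cardinal.mk {o : Ordinal.{0} // o < (Cardinal.aleph 1).ord} =
    Cardinal.aleph 1 := by
  have h : Cardinal.mk (Set.Iio (Cardinal.aleph 1).ord : Set Ordinal.{0}) = Cardinal.aleph 1 := by
    rw [Cardinal.mk_Iio_ordinal]
    simp
  exact h

theorem univ_not_countable :
    ¬ (Set.univ : Set {o : Ordinal.{0} // o < (Cardinal.aleph 1).ord}).Countable := by
  intro h
  rw [Cardinal.countable_iff_lt_aleph_one, Cardinal.mk_univ, mk_omega1] at h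
  exact lt_irrefl _ h

theorem exists_reals : ∃ ρ : {o : Ordinal.{0} // o < (Cardinal.aleph 1).ord} → ℕ → Bool,
    Function.Injective ρ := by
  have h1 : Cardinal.lift.{0} (Cardinal.mk {o : Ordinal.{0} // o < (Cardinal.aleph 1).ord}) ≤
      Cardinal.lift.{1} (Cardinal.mk (ℕ → Bool)) := by
    rw [mk_omega1]
    have h2 : Cardinal.mk (ℕ → Bool) = Cardinal.continuum := by simp
    rw [h2]
    simpa using Cardinal.aleph_one_le_continuum
  obtain ⟨f⟩ := Cardinal.lift_mk_le'.mp h1
  exact ⟨f, f.injective⟩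

/-- symmetrisation of a function on increasing pairs -/
noncomputable def sym {Ω : Type*} [LinearOrder Ω] (g : Ω → Ω → ℕ) : Sym2 Ω → ℕ :=
  Sym2.lift ⟨fun a b => if a < b then g a b else if b < a then g b a else 0, by
    intro a b
    rcases lt_trichotomy a b with h | h | h
    · simp [h, not_lt_of_gt h]
    · simp [h]
    · simp [h, not_lt_of_gt h]⟩

theorem sym_of_lt {Ω : Type*} [LinearOrder Ω] (g : Ω → Ω → ℕ) {a b : Ω} (h : a < b) :
    sym g s(a, b) = g a b := by
  have : sym g s(a, b) = if a < b then g a b else if b < a then g b a else 0 :=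
    Sym2.lift_mk _ a b
  rw [this, if_pos h]

end Pool.Agent.H670
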