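import Pool.Agent.H.MP_670a4f_lc.Refl

/-!
# MP_670a4f_lc, Osc: oscillation along the lower trace (Moore), rectangles
-/

set_option autoImplicit false

namespace Pool.Agent.H.MP_670a4f_lc

open Set

/-- The number of consecutive pairs `x, y` of the list with `f x ≤ g x` and `g y < f y`. -/
def osc {W : Type*} (f g : W → ℕ) : List W → ℕ
  | [] => 0
  | [_] => 0
  | x :: y :: l => (if f x ≤ g x ∧ g y < f y then 1 else 0) + osc f g (y :: l)

theorem osc_append {W : Type*} (f g : W → ℕ) (x y : W) (m : List W) : ∀ l : List W,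
    osc f g (l ++ [x] ++ y :: m) =
      osc f g (l ++ [x]) + (if f x ≤ g x ∧ g y < f y then 1 else 0) + osc f g (y :: m) := by
  intro l
  induction l with
  | nil => simp [osc]
  | cons z l ih =>
    cases l with
    | nil =>
      simp only [List.nil_append, List.cons_append, osc] at ih ⊢
      omega
    | cons z' l' =>
      simp only [List.cons_append, osc] at ih ⊢
      rw [ih]
      ring

theorem osc_congr {W : Type*} {f g f' g' : W → ℕ} : ∀ l : List W,
    (∀ x ∈ l, f x = f' x ∧ g x = g' x) → osc f g l = osc f' g' l := by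
  intro l
  induction l with
  | nil => intro _; rfl
  | cons x l ih =>
    intro h
    cases l with
    | nil => rfl
    | cons y l' =>
      have h1 := h x List.mem_cons_self
      have h2 := h y (List.mem_cons_of_mem x List.mem_cons_self)
      simp only [osc]
      rw [h1.1, h1.2, h2.1, h2.2, ih fun z hz => h z (List.mem_cons_of_mem x hz)]

theorem osc_le {W : Type*} {f g : W → ℕ} : ∀ l : List W, (∀ x ∈ l, f x ≤ g x) → osc f g l = 0 := by
  intro l
  induction l with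
  | nil => intro _; rfl
  | cons x l ih =>
    intro h
    cases l with
    | nil => rfl
    | cons y l' =>
      have h2 := h y (List.mem_cons_of_mem x List.mem_cons_self)
      simp only [osc]
      rw [if_neg (fun h3 => absurd h2 (not_le.2 h3.2)),
        ih fun z hz => h z (List.mem_cons_of_mem x hz)]

theorem osc_gt {W : Type*} {f g : W → ℕ} : ∀ l : List W, (∀ x ∈ l, g x < f x) → osc f g l = 0 := by
  intro l
  induction l with
  | nil => intro _; rfl
  | cons x l ih =>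
    intro h
    cases l with
    | nil => rfl
    | cons y l' =>
      have h1 := h x List.mem_cons_self
      simp only [osc]
      rw [if_neg (fun h3 => absurd h1 (not_lt.2 h3.1)),
        ih fun z hz => h z (List.mem_cons_of_mem x hz)]

/-- `l` ends with an element `x` with `g x < f x`. -/
def EndGt {W : Type*} (f g : W → ℕ) (l : List W) : Prop := ∃ l' x, l = l' ++ [x] ∧ g x < f x

theorem osc_append_end {W : Type*} {f g : W → ℕ} {l m : List W} (h : EndGt f g l) :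
    osc f g (l ++ m) = osc f g l + osc f g m := by
  obtain ⟨l', x, rfl, hx⟩ := h
  cases m with
  | nil => simp [osc]
  | cons y m =>
    rw [osc_append, if_neg (fun h3 => absurd hx (not_lt.2 h3.1)), add_zero]

theorem osc_append_flip {W : Type*} {f g : W → ℕ} {l m : List W} (hl : l ≠ []) (hm : m ≠ [])
    (h1 : ∀ x ∈ l, f x ≤ g x) (h2 : ∀ x ∈ m, g x < f x) : osc f g (l ++ m) = 1 := by
  obtain ⟨l', x, rfl⟩ : ∃ l' x, l = l' ++ [x] := ⟨l.dropLast, l.getLast hl,
    (List.dropLast_append_getLast hl).symm⟩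
  cases m with
  | nil => exact absurd rfl hm
  | cons y m =>
    rw [osc_append, osc_le _ h1, osc_gt _ h2,
      if_pos ⟨h1 x (List.mem_append_right _ List.mem_cons_self), h2 y List.mem_cons_self⟩]

theorem EndGt.congr {W : Type*} {f g f' g' : W → ℕ} {l : List W} (h : EndGt f g l)
    (hf : ∀ x ∈ l, f x = f' x ∧ g x = g' x) : EndGt f' g' l := by
  obtain ⟨l', x, rfl, hx⟩ := h
  refine ⟨l', x, rfl, ?_⟩
  have := hf x (List.mem_append_right _ List.mem_cons_self)
  rw [← this.1, ← this.2]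
  exact hx

theorem EndGt.of_append {W : Type*} {f g : W → ℕ} {l m : List W} (hm : m ≠ [])
    (h2 : ∀ x ∈ m, g x < f x) : EndGt f g (l ++ m) := by
  obtain ⟨m', x, rfl⟩ : ∃ l' x, m = l' ++ [x] := ⟨m.dropLast, m.getLast hm,
    (List.dropLast_append_getLast hm).symm⟩
  refine ⟨l ++ m', x, ?_, h2 x (List.mem_append_right _ List.mem_cons_self)⟩
  rw [List.append_assoc]

variable {W : Type*} [LinearOrder W] [WellFoundedLT W]

/-- the three kinds of sets to be reflected -/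
def Ref (S : Lad W) (A B : Set W) : List W → (List ℕ × List ℕ × Fin 3) → Set W
  | l, (f, _, 0) => {a | a ∈ A ∧ l.map (fun x => S.e x a) = f}
  | l, (f, _, 1) => {c | ∀ F : Finset W, (∀ x ∈ F, c < x) → ∀ (n : ℕ) (w : W),
      ∃ a ∈ A, w < a ∧ l.map (fun x => S.e x a) = f ∧ ∀ x ∈ F, n < S.e x a}
  | [], (_, _, 2) => ∅
  | [_], (_, _, 2) => ∅
  | c :: p :: l, (f, g, 2) => {d | p ∈ S.C d ∧ ∃ a ∈ A, d ≤ a ∧ ∃ b ∈ B, d ≤ b ∧
      l.map (fun x => S.e x a) = f ∧ l.map (fun x => S.e x b) = g ∧ S.L d b = l ∧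
      ∀ x, c < x → x < d → S.e x a = S.e x b}

/-- the properties of `d` which are used -/
structure Good (S : Lad W) (A B : Set W) (d : W) : Prop where
  bot : ∃ c, c < d
  lim : ∀ c < d, ∃ c', c < c' ∧ c' < d
  g1 : ∀ (l : List W) (f : List ℕ), (∀ x ∈ l, x < d) →
    (∃ a ∈ A, d ≤ a ∧ l.map (fun x => S.e x a) = f) →
    ∀ c < d, ∃ a ∈ A, c < a ∧ a < d ∧ l.map (fun x => S.e x a) = f
  g2 : ∀ (l : List W) (f : List ℕ), (∀ x ∈ l, x < d) →
    (∃ a ∈ A, d ≤ a ∧ l.map (fun x => S.e x a) = f) →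
    ∃ c < d, ∀ F : Finset W, (∀ x ∈ F, c < x) → ∀ (n : ℕ) (w : W),
      ∃ a ∈ A, w < a ∧ l.map (fun x => S.e x a) = f ∧ ∀ x ∈ F, n < S.e x a
  g3 : ∀ (c p : W) (l : List W) (f g : List ℕ), c < d → p < d → (∀ x ∈ l, x < d) →
    d ∈ Ref S A B (c :: p :: l) (f, g, 2) → Unb (Ref S A B (c :: p :: l) (f, g, 2))

/-- If `X` is unbounded, then there is `c` such that for every finite set `F` above `c` and every `n` some `a ∈ X` above any
given bound has `e x a > n` for all `x ∈ F`. -/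
theorem large [Uncountable W] (hc : ∀ a : W, (Iio a).Countable) (S : Lad W) {X : Set W} (hX : Unb X) :
    ∃ c, ∀ F : Finset W, (∀ x ∈ F, c < x) → ∀ (n : ℕ) (w : W),
      ∃ a ∈ X, w < a ∧ ∀ x ∈ F, n < S.e x a := by
  classical
  have key : ∀ n : ℕ, ∃ c, ∀ F : Finset W, (∀ x ∈ F, c < x) → ∀ w : W,
      ∃ a ∈ X, w < a ∧ ∀ x ∈ F, n < S.e x a := by
    intro n
    by_contra hcon
    push Not at hcon
    choose F hF w hw using hcon
    obtain ⟨z0⟩ : Nonempty W := inferInstance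
    -- an upper bound of `F c` and `c`
    have hub : ∀ c : W, ∃ u, c < u ∧ ∀ x ∈ F c, x < u := by
      intro c
      obtain ⟨u, hu⟩ := bdd_countable hc ((F c).countable_toSet.insert c)
      exact ⟨u, hu c (Set.mem_insert _ _), fun x hx => hu x (Set.mem_insert_of_mem _ hx)⟩
    choose u hu1 hu2 using hub
    let c : ℕ → W := fun k => u^[k] z0
    have hcs : ∀ k, c (k + 1) = u (c k) := by
      intro k
      simp only [c]
      rw [Function.iterate_succ_apply' u]
    obtain ⟨z, hz⟩ := bdd_countable hc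
      ((Set.countable_range c).union (Set.countable_range fun k => w (c k)))
    obtain ⟨a, ha, hza⟩ := hX z
    have hx : ∀ k, ∃ x ∈ F (c k), S.e x a ≤ n := by
      intro k
      exact hw (c k) a ha ((hz _ (Or.inr ⟨k, rfl⟩)).trans hza)
    choose x hx1 hx2 using hx
    have h1 : ∀ k, c k < x k := fun k => hF _ _ (hx1 k)
    have h2 : ∀ k, x k < c (k + 1) := by
      intro k
      rw [hcs]
      exact hu2 _ _ (hx1 k)
    have hmono : StrictMono x := strictMono_nat_of_lt_succ fun k => (h2 k).trans (h1 (k + 1))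
    apply Set.infinite_of_injective_forall_mem hmono.injective (s := {y | y < a ∧ S.e y a ≤ n})
    · intro k
      exact ⟨(h2 k).trans ((hz _ (Or.inl ⟨k + 1, rfl⟩)).trans hza), hx2 k⟩
    · exact S.e_fin a n
  choose c hcn using key
  obtain ⟨z, hz⟩ := bdd_countable hc (Set.countable_range c)
  refine ⟨z, ?_⟩
  intro F hF n w
  exact hcn n F (fun x hx => (hz _ ⟨n, rfl⟩).trans (hF x hx)) w

theorem exists_good [Uncountable W] (hc : ∀ a : W, (Iio a).Countable) (S : Lad W) (A B : Set W) :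
    ∃ d, Good S A B d := by
  obtain ⟨z0⟩ : Nonempty W := inferInstance
  obtain ⟨d, h0, h1, h2⟩ := closure_pt hc (Ref S A B) z0
  refine ⟨d, ⟨z0, h0⟩, h1, ?_, ?_, ?_⟩
  · rintro l f hl ⟨a, ha, hda, haf⟩ c hcd
    rcases h2 l (f, [], 0) hl with h | ⟨-, h⟩
    · exact absurd (h a ⟨ha, haf⟩) (not_lt.2 hda)
    · obtain ⟨s, hs, hs1, hs2⟩ := h c hcd
      exact ⟨s, hs.1, hs1, hs2, hs.2⟩
  · rintro l f hl ⟨a, ha, hda, haf⟩
    have hU : Unb {a | a ∈ A ∧ l.map (fun x => S.e x a) = f} := by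
      rcases h2 l (f, [], 0) hl with h | ⟨h, -⟩
      · exact absurd (h a ⟨ha, haf⟩) (not_lt.2 hda)
      · exact h
    obtain ⟨c0, hc0⟩ := large hc S hU
    have hmem : ∀ c, c0 ≤ c → c ∈ Ref S A B l (f, [], 1) := by
      intro c hcc F hF n w
      obtain ⟨a, ha, hwa, hF'⟩ := hc0 F (fun x hx => hcc.trans_lt (hF x hx)) n w
      exact ⟨a, ha.1, hwa, ha.2, hF'⟩
    rcases h2 l (f, [], 1) hl with h | ⟨-, h⟩
    · exact ⟨c0, h c0 (hmem c0 le_rfl), hmem c0 le_rfl⟩
    · obtain ⟨s, hs, -, hs2⟩ := h z0 h0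
      exact ⟨s, hs2, hs⟩
  · intro c p l f g hcd hpd hl hd
    have hl' : ∀ x ∈ c :: p :: l, x < d := by
      intro x hx
      rw [List.mem_cons, List.mem_cons] at hx
      rcases hx with rfl | rfl | hx
      · exact hcd
      · exact hpd
      · exact hl x hx
    rcases h2 (c :: p :: l) (f, g, 2) hl' with h | ⟨h, -⟩
    · exact absurd (h d hd) (lt_irrefl d)
    · exact h

/-- A finite set below a good `d` is bounded below `d`. -/
theorem Good.bdd {S : Lad W} {A B : Set W} {d : W} (h : Good S A B d) {F : Set W} (hF : F.Finite)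
    (hFd : ∀ x ∈ F, x < d) : ∃ c < d, ∀ x ∈ F, x < c := by
  classical
  induction F, hF using Set.Finite.induction_on with
  | empty =>
    obtain ⟨c, hc⟩ := h.bot
    exact ⟨c, hc, fun x hx => absurd hx (Set.notMem_empty x)⟩
  | @insert y F hy hF ih =>
    obtain ⟨c, hcd, hcF⟩ := ih fun x hx => hFd x (Set.mem_insert_of_mem y hx)
    obtain ⟨c', hc', hcd'⟩ := h.lim (max c y) (max_lt hcd (hFd y (Set.mem_insert y F)))
    refine ⟨c', hcd', ?_⟩
    intro x hx
    rcases hx with rfl | hx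
    · exact (le_max_right c x).trans_lt hc'
    · exact (hcF x hx).trans ((le_max_left c y).trans_lt hc')

theorem map_eq {S : Lad W} {l : List W} {a b : W} (h : l.map (fun x => S.e x a) = l.map (fun x => S.e x b)) :
    ∀ x ∈ l, S.e x a = S.e x b := List.map_inj_left.1 h

/-- The common part of the two kinds of steps. -/
theorem step0 {S : Lad W} {A B : Set W} {d : W} (h : Good S A B d) {a b : W} (ha : a ∈ A) (hb : b ∈ B)
    (hda : d ≤ a) (hdb : d ≤ b) {c : W} (hcd : c < d) :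
    ∃ a' ∈ A, d ≤ a' ∧ ∃ b' ∈ B, d ≤ b' ∧ ∃ l, l ≠ [] ∧ S.L d b' = S.L d b ++ l ∧
      (∀ x ∈ S.L d b, S.e x a' = S.e x a) ∧ (∀ x ∈ S.L d b, S.e x b' = S.e x b) ∧
      ∀ x ∈ l, c < x ∧ x < d ∧ S.e x a' = S.e x b' := by
  -- a bound
  have hfin : ({x | x ∈ S.L d b} ∪ {x | x < d ∧ S.e x a ≠ S.e x b}).Finite :=
    ((S.L d b).finite_toSet).union (S.e_coh2 hda hdb)
  obtain ⟨c1, hc1, hc1'⟩ := h.bdd hfin (by
    rintro x (hx | hx)
    · exact S.L_lt b x hx
    · exact hx.1)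
  obtain ⟨c2, hc2, hc2d⟩ := h.lim (max c c1) (max_lt hcd hc1)
  have hcc2 : c < c2 := (le_max_left c c1).trans_lt hc2
  have hc1c2 : c1 < c2 := (le_max_right c c1).trans_lt hc2
  obtain ⟨p, hp, hcp⟩ := S.cof c2 d hc2d
  have hpd : p < d := S.sub d p hp
  have hmem : d ∈ Ref S A B (c1 :: p :: S.L d b)
      ((S.L d b).map (fun x => S.e x a), (S.L d b).map (fun x => S.e x b), 2) := by
    refine ⟨hp, a, ha, hda, b, hb, hdb, rfl, rfl, rfl, ?_⟩
    intro x hx hxd
    by_contra hne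
    exact absurd (hc1' x (Or.inr ⟨hxd, hne⟩)) (not_lt.2 hx.le)
  have hU := h.g3 c1 p (S.L d b) _ _ hc1 hpd (S.L_lt b) hmem
  obtain ⟨d', hd', hdd'⟩ := hU d
  obtain ⟨hpC, a', ha', hda', b', hb', hdb', hma, hmb, hL, hag⟩ := hd'
  obtain ⟨hne, hge⟩ := S.L_ge hdd' hpC hpd
  refine ⟨a', ha', hdd'.le.trans hda', b', hb', hdd'.le.trans hdb', S.L d d', hne, ?_, map_eq hma,
    map_eq hmb, ?_⟩
  · rw [S.L_append hne b' hdb', hL]
    rw [hL]
    intro x hx y hy
    exact (hc1' x (Or.inl hx)).trans (hc1c2.trans_le (hcp.trans (hge y hy)))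
  · intro x hx
    have h1 : c1 < x := hc1c2.trans_le (hcp.trans (hge x hx))
    have h2 : x < d := S.L_lt d' x hx
    exact ⟨hcc2.trans_le (hcp.trans (hge x hx)), h2, hag x h1 (h2.trans hdd')⟩

theorem step_gt {S : Lad W} {A B : Set W} {d : W} (h : Good S A B d) {a b : W} (ha : a ∈ A) (hb : b ∈ B)
    (hda : d ≤ a) (hdb : d ≤ b) :
    ∃ a' ∈ A, d ≤ a' ∧ ∃ b' ∈ B, d ≤ b' ∧ ∃ l, l ≠ [] ∧ S.L d b' = S.L d b ++ l ∧
      (∀ x ∈ S.L d b, S.e x a' = S.e x a) ∧ (∀ x ∈ S.L d b, S.e x b' = S.e x b) ∧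
      ∀ x ∈ l, S.e x b' < S.e x a' := by
  classical
  obtain ⟨c, hcd, hcF⟩ := h.g2 (S.L d b) ((S.L d b).map fun x => S.e x a) (S.L_lt b) ⟨a, ha, hda, rfl⟩
  obtain ⟨a', ha', hda', b', hb', hdb', l, hl, hL, hea, heb, hx⟩ := step0 h ha hb hda hdb hcd
  obtain ⟨a'', ha'', hda'', hma, hgt⟩ := hcF l.toFinset
    (fun x hx' => (hx x (List.mem_toFinset.1 hx')).1) (l.toFinset.sup fun x => S.e x b') d
  refine ⟨a'', ha'', hda''.le, b', hb', hdb', l, hl, hL, map_eq hma, heb, ?_⟩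
  intro x hx'
  exact (Finset.le_sup (f := fun x => S.e x b') (List.mem_toFinset.2 hx')).trans_lt
    (hgt x (List.mem_toFinset.2 hx'))

theorem chain {S : Lad W} {A B : Set W} {d : W} (h : Good S A B d) (hA : Unb A) (hB : Unb B) : ∀ n : ℕ,
    ∃ a ∈ A, d ≤ a ∧ ∃ (b : ℕ → W) (c : ℕ), ∀ m ≤ n, b m ∈ B ∧ d ≤ b m ∧
      osc (fun x => S.e x a) (fun x => S.e x (b m)) (S.L d (b m)) = c + m ∧
      EndGt (fun x => S.e x a) (fun x => S.e x (b m)) (S.L d (b m)) ∧
      ∀ x ∈ S.L d (b m), x ∈ S.L d (b n) := by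
  intro n
  induction n with
  | zero =>
    obtain ⟨a0, ha0, hda0⟩ := hA d
    obtain ⟨b0, hb0, hdb0⟩ := hB d
    obtain ⟨a, ha, hda, b, hb, hdb, l, hl, hL, -, -, hgt⟩ := step_gt h ha0 hb0 hda0.le hdb0.le
    refine ⟨a, ha, hda, fun _ => b, osc (fun x => S.e x a) (fun x => S.e x b) (S.L d b), ?_⟩
    intro m hm
    rw [Nat.le_zero] at hm
    subst hm
    refine ⟨hb, hdb, by rw [add_zero], ?_, fun x hx => hx⟩
    rw [hL]
    exact EndGt.of_append hl hgt
  | succ n ih =>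
    obtain ⟨a, ha, hda, b, c, hm⟩ := ih
    obtain ⟨hbn, hdbn, hon, hen, -⟩ := hm n le_rfl
    obtain ⟨c0, hc0⟩ := h.bot
    obtain ⟨a1, ha1, hda1, b1, hb1, hdb1, l1, hl1, hL1, hea1, heb1, heq⟩ :=
      step0 h ha hbn hda hdbn hc0
    obtain ⟨a2, ha2, hda2, b2, hb2, hdb2, l2, hl2, hL2, hea2, heb2, hgt⟩ :=
      step_gt h ha1 hb1 hda1 hdb1
    have hsub1 : ∀ x ∈ S.L d (b n), x ∈ S.L d b1 := by
      intro x hx
      rw [hL1]
      exact List.mem_append_left _ hx
    have hsub2 : ∀ x ∈ S.L d b1, x ∈ S.L d b2 := by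
      intro x hx
      rw [hL2]
      exact List.mem_append_left _ hx
    have hea : ∀ x ∈ S.L d (b n), S.e x a2 = S.e x a := by
      intro x hx
      rw [hea2 x (hsub1 x hx), hea1 x hx]
    have heb : ∀ x ∈ S.L d (b n), S.e x b2 = S.e x (b n) := by
      intro x hx
      rw [heb2 x (hsub1 x hx), heb1 x hx]
    have hagree : ∀ x ∈ S.L d (b n), S.e x a = S.e x a2 ∧ S.e x (b n) = S.e x b2 :=
      fun x hx => ⟨(hea x hx).symm, (heb x hx).symm⟩
    have hle1 : ∀ x ∈ l1, S.e x a2 ≤ S.e x b2 := by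
      intro x hx
      have hx' : x ∈ S.L d b1 := by
        rw [hL1]
        exact List.mem_append_right _ hx
      rw [hea2 x hx', heb2 x hx', (heq x hx).2.2]
    refine ⟨a2, ha2, hda2, fun m => if m ≤ n then b m else b2, c, ?_⟩
    intro m hmn
    have hlast : (fun m => if m ≤ n then b m else b2) (n + 1) = b2 := by
      simp only
      rw [if_neg (by omega)]
    rw [hlast]
    by_cases hmn' : m ≤ n
    · have hbm : (fun m => if m ≤ n then b m else b2) m = b m := by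
        simp only
        rw [if_pos hmn']
      rw [hbm]
      obtain ⟨h1, h2, h3, h4, h5⟩ := hm m hmn'
      have hag : ∀ x ∈ S.L d (b m), S.e x a = S.e x a2 ∧ S.e x (b m) = S.e x (b m) :=
        fun x hx => ⟨(hea x (h5 x hx)).symm, rfl⟩
      refine ⟨h1, h2, ?_, h4.congr hag, fun x hx => hsub2 x (hsub1 x (h5 x hx))⟩
      rw [← h3]
      exact (osc_congr _ hag).symm
    · have hmeq : m = n + 1 := by omega
      subst hmeq
      rw [hlast]
      refine ⟨hb2, hdb2, ?_, ?_, fun x hx => hx⟩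
      · rw [hL2, hL1, List.append_assoc, osc_append_end (hen.congr hagree),
          osc_append_flip hl1 hl2 hle1 hgt, ← osc_congr _ hagree, hon]
        ring
      · rw [hL2]
        exact EndGt.of_append hl2 hgt

/-- **Moore.** -/
theorem osc_rect [Uncountable W] (hc : ∀ a : W, (Iio a).Countable) (S : Lad W) {A B : Set W}
    (hA : Unb A) (hB : Unb B) (n : ℕ) :
    ∃ a ∈ A, ∃ (b : ℕ → W) (c : ℕ), ∀ m ≤ n, b m ∈ B ∧ a < b m ∧
      osc (fun x => S.e x a) (fun x => S.e x (b m)) (S.L a (b m)) = c + m := by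
  obtain ⟨d, h⟩ := exists_good hc S A B
  obtain ⟨a, ha, hda, b, c, hm⟩ := chain h hA hB n
  -- a bound below `d`
  have hfin : ({x | x ∈ S.L d (b n)} ∪
      ⋃ m ∈ Iic n, {x | x < d ∧ S.e x (b m) ≠ S.e x (b 0)}).Finite := by
    refine ((S.L d (b n)).finite_toSet).union ?_
    apply (Set.finite_Iic n).biUnion
    intro m hmn
    exact S.e_coh2 (hm m hmn).2.1 (hm 0 (Nat.zero_le n)).2.1
  obtain ⟨c1, hc1, hc1'⟩ := h.bdd hfin (by
    rintro x (hx | hx)
    · exact S.L_lt _ x hx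
    · rw [Set.mem_iUnion₂] at hx
      obtain ⟨m, -, hx⟩ := hx
      exact hx.1)
  obtain ⟨c2, hc2, hc2d⟩ := h.lim c1 hc1
  obtain ⟨p, hp, hcp⟩ := S.cof c2 d hc2d
  have hpd : p < d := S.sub d p hp
  obtain ⟨a', ha', hpa', ha'd, hma⟩ := h.g1 (S.L d (b n)) _ (S.L_lt _) ⟨a, ha, hda, rfl⟩ p hpd
  have hea := map_eq hma
  obtain ⟨hne, hge⟩ := S.L_ge ha'd hp hpa'
  have hge' : ∀ x ∈ S.L a' d, c1 < x := fun x hx => hc2.trans_le (hcp.trans (hge x hx))
  refine ⟨a', ha', b, c + osc (fun x => S.e x a') (fun x => S.e x (b 0)) (S.L a' d), ?_⟩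
  intro m hmn
  obtain ⟨h1, h2, h3, h4, h5⟩ := hm m hmn
  refine ⟨h1, ha'd.trans_le h2, ?_⟩
  have hag : ∀ x ∈ S.L d (b m), S.e x a = S.e x a' ∧ S.e x (b m) = S.e x (b m) :=
    fun x hx => ⟨(hea x (h5 x hx)).symm, rfl⟩
  have hag2 : ∀ x ∈ S.L a' d, S.e x a' = S.e x a' ∧ S.e x (b m) = S.e x (b 0) := by
    intro x hx
    refine ⟨rfl, ?_⟩
    by_contra hne'
    have hxd : x < d := (S.L_lt d x hx).trans ha'd
    have : x < c1 := hc1' x (Or.inr (Set.mem_iUnion₂.2 ⟨m, hmn, hxd, hne'⟩))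
    exact absurd this (not_lt.2 (hge' x hx).le)
  rw [S.L_append hne (b m) h2 (fun x hx y hy => (hc1' x (Or.inl (h5 x hx))).trans (hge' y hy)),
    osc_append_end (h4.congr hag), ← osc_congr _ hag, h3, osc_congr _ hag2]
  ring

end Pool.Agent.H.MP_670a4f_lc
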