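import Pool.Agent.H.MP_670a4f_lc.Osc

/-!
# MP_670a4f_lc, Rect: the rectangle colouring and colourings with prescribed allowed colours
-/

set_option autoImplicit false

namespace Pool.Agent.H.MP_670a4f_lc

open Set

variable {W : Type*} [LinearOrder W] [WellFoundedLT W]

theorem val_interval (c j : ℕ) : ∃ m ≤ 2 ^ (j + 1), padicValNat 2 (c + m + 1) = j := by
  have hpos : 0 < 2 ^ (j + 1) := by positivity
  have h2 : 2 ^ j < 2 ^ (j + 1) := Nat.pow_lt_pow_right (by norm_num) (by omega)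
  -- choose `m` with `c + m + 1 ≡ 2 ^ j`
  obtain ⟨m, hm, hmod⟩ : ∃ m ≤ 2 ^ (j + 1), (c + m + 1) % 2 ^ (j + 1) = 2 ^ j := by
    refine ⟨(2 ^ j + (2 ^ (j + 1) - (c + 1) % 2 ^ (j + 1))) % 2 ^ (j + 1),
      (Nat.mod_lt _ hpos).le, ?_⟩
    have h3 : (c + 1) % 2 ^ (j + 1) < 2 ^ (j + 1) := Nat.mod_lt _ hpos
    rw [show c + (2 ^ j + (2 ^ (j + 1) - (c + 1) % 2 ^ (j + 1))) % 2 ^ (j + 1) + 1 =
      (c + 1) + (2 ^ j + (2 ^ (j + 1) - (c + 1) % 2 ^ (j + 1))) % 2 ^ (j + 1) by ring]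
    rw [Nat.add_mod, Nat.mod_mod, ← Nat.add_mod, ]
    have h4 : c + 1 + (2 ^ j + (2 ^ (j + 1) - (c + 1) % 2 ^ (j + 1))) =
        2 ^ j + 2 ^ (j + 1) * ((c + 1) / 2 ^ (j + 1) + 1) := by
      have h5 := Nat.div_add_mod (c + 1) (2 ^ (j + 1))
      have h6 : 2 ^ (j + 1) * ((c + 1) / 2 ^ (j + 1) + 1) =
        2 ^ (j + 1) * ((c + 1) / 2 ^ (j + 1)) + 2 ^ (j + 1) := by ring
      omega
    rw [h4, Nat.add_mul_mod_self_left, Nat.mod_eq_of_lt h2]
  refine ⟨m, hm, ?_⟩
  have h7 : 2 ^ j ∣ c + m + 1 := by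
    rw [← Nat.div_add_mod (c + m + 1) (2 ^ (j + 1)), hmod]
    exact dvd_add (Dvd.dvd.mul_right (pow_dvd_pow 2 (by omega)) _) dvd_rfl
  have h8 : ¬ 2 ^ (j + 1) ∣ c + m + 1 := by
    intro h
    rw [Nat.mod_eq_zero_of_dvd h] at hmod
    have : 0 < 2 ^ j := by positivity
    omega
  have h9 : j ≤ padicValNat 2 (c + m + 1) := by
    rcases (padicValNat_dvd_iff (p := 2) j (c + m + 1)).1 h7 with h | h
    · omega
    · exact h
  have h10 : ¬ j + 1 ≤ padicValNat 2 (c + m + 1) := fun h =>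
    h8 ((padicValNat_dvd_iff (p := 2) (j + 1) (c + m + 1)).2 (Or.inr h))
  omega

/-- **Moore's rectangle colouring.** -/
theorem exists_rect [Uncountable W] (hc : ∀ a : W, (Iio a).Countable) :
    ∃ o : W → W → ℕ, ∀ A B : Set W, ¬ A.Countable → ¬ B.Countable → ∀ j : ℕ,
      ∃ a ∈ A, ∃ b ∈ B, a < b ∧ o a b = j := by
  obtain ⟨S⟩ := exists_lad hc
  refine ⟨fun a b => padicValNat 2 (osc (fun x => S.e x a) (fun x => S.e x b) (S.L a b) + 1), ?_⟩
  intro A B hA hB j
  obtain ⟨a, ha, b, c, hm⟩ := osc_rect hc S (unb_of_uncountable hc hA) (unb_of_uncountable hc hB)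
    (2 ^ (j + 1))
  obtain ⟨m, hmle, hval⟩ := val_interval c j
  obtain ⟨h1, h2, h3⟩ := hm m hmle
  refine ⟨a, ha, b m, h1, h2, ?_⟩
  simp only
  rw [h3]
  exact hval

/-- Colourings of pairs: `D a b n` says that the colour `n` is allowed for the pair `{a, b}`. -/
theorem exists_col [Uncountable W] (hc : ∀ a : W, (Iio a).Countable) (D : W → W → ℕ → Prop)
    (hsymm : ∀ a b n, D a b n → D b a n) (hex : ∀ a b, a ≠ b → ∃ n, D a b n) :
    ∃ c : Sym2 W → ℕ, (∀ a b, a ≠ b → D a b (c s(a, b))) ∧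
      ∀ (n : ℕ) (A B : Set W), ¬ A.Countable → ¬ B.Countable → (∀ a ∈ A, ∀ b ∈ B, D a b n) →
        ∃ a ∈ A, ∃ b ∈ B, a ≠ b ∧ c s(a, b) = n := by
  classical
  obtain ⟨o, ho⟩ := exists_rect hc
  let g : W → W → ℕ := fun a b =>
    if D a b (o a b) then o a b else if h : ∃ n, D a b n then Nat.find h else 0
  have hg : ∀ a b, a ≠ b → D a b (g a b) := by
    intro a b hab
    simp only [g]
    by_cases h1 : D a b (o a b)
    · rw [if_pos h1]
      exact h1
    · rw [if_neg h1, dif_pos (hex a b hab)]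
      exact Nat.find_spec (hex a b hab)
  let f : W → W → ℕ := fun a b => if a < b then g a b else g b a
  have hf : ∀ a b, f a b = f b a := by
    intro a b
    simp only [f]
    rcases lt_trichotomy a b with h | h | h
    · rw [if_pos h, if_neg (not_lt.2 h.le)]
    · rw [h]
    · rw [if_pos h, if_neg (not_lt.2 h.le)]
  refine ⟨Sym2.lift ⟨f, hf⟩, ?_, ?_⟩
  · intro a b hab
    rw [Sym2.lift_mk]
    simp only [f]
    by_cases h : a < b
    · rw [if_pos h]
      exact hg a b hab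
    · rw [if_neg h]
      exact hsymm _ _ _ (hg b a hab.symm)
  · intro n A B hA hB hD
    obtain ⟨a, ha, b, hb, hab, hn⟩ := ho A B hA hB n
    refine ⟨a, ha, b, hb, hab.ne, ?_⟩
    rw [Sym2.lift_mk]
    simp only [f, g]
    rw [if_pos hab, hn, if_pos (hD a ha b hb)]

/-- An uncountable set of 0-1 sequences splits into uncountable parts at some coordinate. -/
theorem exists_split {r : W → ℕ → Bool} (hr : Function.Injective r) {X : Set W}
    (hX : ¬ X.Countable) :
    ∃ d, ¬ {a | a ∈ X ∧ r a d = true}.Countable ∧ ¬ {a | a ∈ X ∧ r a d = false}.Countable := by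
  by_contra hcon
  have h1 : ∀ d, ∃ v : Bool, {a | a ∈ X ∧ r a d ≠ v}.Countable := by
    intro d
    by_cases h : {a | a ∈ X ∧ r a d = true}.Countable
    · refine ⟨false, h.mono ?_⟩
      rintro a ⟨ha, hne⟩
      exact ⟨ha, by simpa using hne⟩
    · have h2 : {a | a ∈ X ∧ r a d = false}.Countable := by
        by_contra h3
        exact hcon ⟨d, h, h3⟩
      refine ⟨true, h2.mono ?_⟩
      rintro a ⟨ha, hne⟩
      exact ⟨ha, by simpa using hne⟩
  choose v hv using h1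
  apply hX
  have h3 : X ⊆ (⋃ d, {a | a ∈ X ∧ r a d ≠ v d}) ∪ {a | r a = v} := by
    intro a ha
    by_cases h : r a = v
    · exact Or.inr h
    · left
      obtain ⟨d, hd⟩ := Function.ne_iff.1 h
      exact Set.mem_iUnion.2 ⟨d, ha, hd⟩
  refine (Set.Countable.union (Set.countable_iUnion hv) ?_).mono h3
  apply Set.Subsingleton.countable
  intro a ha b hb
  exact hr (ha.trans hb.symm)

/-- The set of the coordinates at which `F` is constant on `X` up to a countable set; there is an uncountable part of `X`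
on which all these coordinates are constant. -/
theorem exists_const {F : W → ℕ → Bool} {X : Set W} (hX : ¬ X.Countable) (M : Set ℕ)
    (hM : ∀ n ∈ M, {a | a ∈ X ∧ F a n = true}.Countable ∨ {a | a ∈ X ∧ F a n = false}.Countable) :
    ∃ X' ⊆ X, ¬ X'.Countable ∧ ∃ v : ℕ → Bool, ∀ n ∈ M, ∀ a ∈ X', F a n = v n := by
  have h1 : ∀ n, ∃ v : Bool, n ∈ M → {a | a ∈ X ∧ F a n ≠ v}.Countable := by
    intro n
    by_cases hn : n ∈ M
    · rcases hM n hn with h | h
      · refine ⟨false, fun _ => h.mono ?_⟩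
        rintro a ⟨ha, hne⟩
        exact ⟨ha, by simpa using hne⟩
      · refine ⟨true, fun _ => h.mono ?_⟩
        rintro a ⟨ha, hne⟩
        exact ⟨ha, by simpa using hne⟩
    · exact ⟨true, fun h => absurd h hn⟩
  choose v hv using h1
  refine ⟨X \ ⋃ n ∈ M, {a | a ∈ X ∧ F a n ≠ v n}, Set.diff_subset, ?_, v, ?_⟩
  · intro h
    apply hX
    have h2 : (⋃ n ∈ M, {a | a ∈ X ∧ F a n ≠ v n}).Countable :=
      (Set.to_countable M).biUnion fun n hn => hv n hn
    apply (h.union h2).mono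
    intro a ha
    by_cases h3 : a ∈ ⋃ n ∈ M, {a | a ∈ X ∧ F a n ≠ v n}
    · exact Or.inr h3
    · exact Or.inl ⟨ha, h3⟩
  · intro n hn a ha
    by_contra hne
    exact ha.2 (Set.mem_iUnion₂.2 ⟨n, hn, ha.1, hne⟩)

end Pool.Agent.H.MP_670a4f_lc
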