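import Pool.Agent.H.MP_670a4f_lc.QPath
import Pool.Agent.H.MP_670a4f_lc.St.Colour

/-!
# MP_670a4f_lc, QTri: the edges of colour `m` and why they have no triangle

`a < b` is an edge of colour `m` if its nodes `x ≤ a < y ≤ b` in the `m`-th tree are limits, the reals of
`a` and `b` differ below `m`, the ladders of `x` and `y` interlock with two alternations from their first
difference `p`, and the rectangle colouring `o` carries the codes of the reals on the three pairs
`(x, y)`, `(y_p, x)`, `(x_p, y)`.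
-/

set_option autoImplicit false

namespace Pool.Agent.H.MP_670a4f_lc.St

open Set

/-- the code of a pair of names for the colour `m` -/
def cd (m s t : ℕ) : ℕ := Nat.pair m (Nat.pair s t)

theorem cd_inj {m s t m' s' t' : ℕ} (h : cd m s t = cd m' s' t') : m = m' ∧ s = s' ∧ t = t' := by
  unfold cd at h
  rw [Nat.pair_eq_pair] at h
  obtain ⟨h1, h2⟩ := h
  rw [Nat.pair_eq_pair] at h2
  exact ⟨h1, h2.1, h2.2⟩

/-- the nodes `x`, `y` witness that `a`, `b` is an edge of colour `m` -/
structure Wt (rho : Om → Om → ℕ) (L : Om → ℕ → Om) (r : Om → ℕ → Bool) (o : Om → Om → ℕ)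
    (m : ℕ) (a b x y : Om) (p : ℕ) (q : ℕ → ℕ) : Prop where
  nd : Nd rho m a b x y
  xl : x ∈ Lm
  yl : y ∈ Lm
  ne : lam r a m ≠ lam r b m
  w : W (L x) (L y) x p 2 q
  o1 : o x y = cd m (lam r a m) (lam r b m)
  o2 : o (L y p) x = lam r b m
  o3 : o (L x p) y = lam r a m

/-- the edges of colour `m` -/
def Eg (rho : Om → Om → ℕ) (L : Om → ℕ → Om) (r : Om → ℕ → Bool) (o : Om → Om → ℕ)
    (m : ℕ) (a b : Om) : Prop :=
  ∃ x y : Om, ∃ (p : ℕ) (q : ℕ → ℕ), Wt rho L r o m a b x y p q

theorem Eg.triangle {rho : Om → Om → ℕ} (hs : Sub rho) {L : Om → ℕ → Om} (hL : Ladder L)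
    {r : Om → ℕ → Bool} {o : Om → Om → ℕ} {m : ℕ} {a b c : Om} (h1 : Eg rho L r o m a b)
    (h2 : Eg rho L r o m b c) (h3 : Eg rho L r o m a c) : False := by
  obtain ⟨x, y, p, q, h1⟩ := h1
  obtain ⟨x', y', p', q', h2⟩ := h2
  obtain ⟨x'', y'', p'', q'', h3⟩ := h3
  rcases nd_tri hs h1.nd h2.nd h3.nd with ⟨rfl, rfl, rfl⟩ | ⟨rfl, rfl⟩ | ⟨rfl, rfl⟩
  · -- three nodes `x'' < x' < y''`
    have ux := hL.mono _ h1.xl
    have uy := hL.mono _ h1.yl
    have uw := hL.mono _ h2.yl
    have l1 := h1.w.lt_m ux (by omega)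
    have l2 := h2.w.lt_m uy (by omega)
    have l3 := h3.w.lt_m ux (by omega)
    have a2 := h2.w.le_all uy uw (hL.lt _ h1.yl)
    rcases lt_trichotomy p p' with hp | hp | hp
    · -- `p'' = p`, and the second codes give the same name for `b` and `c`
      have e1 : L x' p = L y'' p := h2.w.hag p hp
      have e : p'' = p := by
        rcases lt_trichotomy p'' p with h | h | h
        · have i1 := h1.w.hag p'' h
          have i2 := h2.w.hag p'' (h.trans hp)
          rw [i1, i2] at l3
          exact absurd l3 (lt_irrefl _)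
        · exact h
        · have i1 := h3.w.hag p h
          rw [i1, ← e1] at l1
          exact absurd l1 (lt_irrefl _)
      subst e
      apply h2.ne
      rw [← h1.o2, ← h3.o2, e1]
    · -- all the first differences are the same
      subst hp
      have e : p'' = p := by
        rcases lt_trichotomy p'' p with h | h | h
        · have i1 := h1.w.hag p'' h
          have i2 := h2.w.hag p'' h
          rw [i1, i2] at l3
          exact absurd l3 (lt_irrefl _)
        · exact h
        · have i1 := h3.w.hag p h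
          have i2 := l1.trans l2
          rw [i1] at i2
          exact absurd i2 (lt_irrefl _)
      subst e
      exact caseA (d := 0) (k := 1) ux uy uw (hL.lt _ h1.xl) h1.nd.lt a2 (by omega) h1.w h2.w h3.w
    · -- `p'' = p'`, and the third codes give the same name for `a` and `b`
      have e1 : L x'' p' = L x' p' := h1.w.hag p' hp
      have e : p'' = p' := by
        rcases lt_trichotomy p'' p' with h | h | h
        · have i1 := h1.w.hag p'' (h.trans hp)
          have i2 := h2.w.hag p'' h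
          rw [i1, i2] at l3
          exact absurd l3 (lt_irrefl _)
        · exact h
        · have i1 := h3.w.hag p' h
          rw [← e1, i1] at l2
          exact absurd l2 (lt_irrefl _)
      subst e
      apply h1.ne
      rw [← h3.o3, ← h2.o3, e1]
  · have e1 := h3.o1.symm.trans h2.o1
    exact h1.ne (cd_inj e1).2.1
  · have e1 := h1.o1.symm.trans h3.o1
    exact h2.ne (cd_inj e1).2.2

/-- Two nodes of the same pair in one tree: an edge determines its first code. -/
theorem Eg.code {rho : Om → Om → ℕ} {L : Om → ℕ → Om} {r : Om → ℕ → Bool} {o : Om → Om → ℕ}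
    {m : ℕ} {a b x y : Om} (h : Eg rho L r o m a b) (hn : Nd rho m a b x y) :
    o x y = cd m (lam r a m) (lam r b m) := by
  obtain ⟨x', y', p, q, h⟩ := h
  obtain ⟨rfl, rfl⟩ := hn.unique h.nd
  exact h.o1

theorem Eg.ne {rho : Om → Om → ℕ} {L : Om → ℕ → Om} {r : Om → ℕ → Bool} {o : Om → Om → ℕ}
    {m : ℕ} {a b : Om} (h : Eg rho L r o m a b) : lam r a m ≠ lam r b m := by
  obtain ⟨x', y', p, q, h⟩ := h
  exact h.ne

theorem Eg.lt {rho : Om → Om → ℕ} {L : Om → ℕ → Om} {r : Om → ℕ → Bool} {o : Om → Om → ℕ}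
    {m : ℕ} {a b : Om} (h : Eg rho L r o m a b) : a < b := by
  obtain ⟨x', y', p, q, h⟩ := h
  exact h.nd.ab

/-- The realisation: the pair `a`, `b` above `x < y` is an edge of colour `m` and of no smaller one. -/
theorem Eg.of_build {rho : Om → Om → ℕ} (hs : Sub rho) {L : Om → ℕ → Om}
    {r : Om → ℕ → Bool} {o : Om → Om → ℕ} {m m0 : ℕ} {a b x y : Om} (hm : m0 ≤ m) (hxy : x < y)
    (hxa : x ≤ a) (hra : rho x a ≤ m0) (hyb : y ≤ b) (hrb : rho y b ≤ m0) (hay : a < y)
    (hF : ∀ k, m0 ≤ k → k ≤ m → ∀ z, (z < x ∧ rho z x ≤ k) ↔ (z < y ∧ rho z y ≤ k))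
    (xl : x ∈ Lm) (yl : y ∈ Lm) (h0 : lam r a m0 = lam r b m0) (hne : lam r a m ≠ lam r b m)
    {p : ℕ} {q : ℕ → ℕ} (w : W (L x) (L y) x p 2 q) (o1 : o x y = cd m (lam r a m) (lam r b m))
    (o2 : o (L y p) x = lam r b m) (o3 : o (L x p) y = lam r a m) :
    Eg rho L r o m a b ∧ ∀ k, k < m → ¬ Eg rho L r o k a b := by
  have hnd : ∀ k, m0 ≤ k → k ≤ m → Nd rho k a b x y := fun k hk hk' =>
    nd_press hs hxy ⟨hxa, hra.trans hk⟩ ⟨hyb, hrb.trans hk⟩ hay (hF k hk hk')
  refine ⟨⟨x, y, p, q, hnd m hm le_rfl, xl, yl, hne, w, o1, o2, o3⟩, ?_⟩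
  intro k hk h
  rcases Nat.lt_or_ge k m0 with h1 | h1
  · -- the names agree below `m0`
    apply h.ne
    have h2 := Encodable.encode_injective h0
    show Encodable.encode ((List.range k).map (r a)) = Encodable.encode ((List.range k).map (r b))
    have h3 : ∀ i, i < m0 → r a i = r b i := fun i hi =>
      (List.map_inj_left.1 h2) i (List.mem_range.2 hi)
    congr 1
    exact List.map_congr_left fun i hi => h3 i ((List.mem_range.1 hi).trans h1)
  · have h2 := h.code (hnd k h1 hk.le)
    rw [o1] at h2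
    exact absurd (cd_inj h2).1 (ne_of_gt hk)

end Pool.Agent.H.MP_670a4f_lc.St
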