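import Pool.Agent.H.MP_670a4f_lc.RhoSub

/-!
# MP_670a4f_lc, QPath: the trees of a subadditive function and the nodes of a pair

`Pth rho m a = {x ≤ a : rho x a ≤ m}`. The nodes `x`, `y` of a pair `a < b` are the least points of
`Pth a \ Pth b` and of `Pth b \ Pth a`; in an edge `a < y`. For three points `a < b < c` with such nodes
there are three cases (`nd_tri`).
-/

set_option autoImplicit false

namespace Pool.Agent.H.MP_670a4f_lc

open Set

variable {W : Type*} [LinearOrder W]

/-- The predecessors of `a` in the `m`-th tree, `a` included. -/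
def Pth (rho : W → W → ℕ) (m : ℕ) (a : W) : Set W := {x | x ≤ a ∧ rho x a ≤ m}

/-- Subadditivity. -/
structure Sub (rho : W → W → ℕ) : Prop where
  z : ∀ a, rho a a = 0
  s1 : ∀ a b c, a ≤ b → b ≤ c → rho a c ≤ max (rho a b) (rho b c)
  s2 : ∀ a b c, a ≤ b → b ≤ c → rho a b ≤ max (rho a c) (rho b c)

theorem exists_sub [WellFoundedLT W] (hc : ∀ a : W, (Iio a).Countable) : ∃ rho : W → W → ℕ,
    Sub rho ∧ ∀ b n, {a | a < b ∧ rho a b ≤ n}.Finite := by
  obtain ⟨rho, h1, h2, h3, h4⟩ := exists_rho hc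
  exact ⟨rho, ⟨h1, h2, h3⟩, h4⟩

variable {rho : W → W → ℕ} {m : ℕ}

theorem Sub.self (hs : Sub rho) (a : W) : a ∈ Pth rho m a := by
  refine ⟨le_rfl, ?_⟩
  rw [hs.z]
  exact Nat.zero_le _

/-- Below a point of `Pth a`, `Pth a` is its path. -/
theorem Sub.pth_iff (hs : Sub rho) {a x z : W} (hx : x ∈ Pth rho m a) (hz : z ≤ x) :
    z ∈ Pth rho m a ↔ z ∈ Pth rho m x := by
  constructor
  · rintro ⟨-, h2⟩
    exact ⟨hz, (hs.s2 z x a hz hx.1).trans (max_le h2 hx.2)⟩
  · rintro ⟨-, h2⟩
    exact ⟨hz.trans hx.1, (hs.s1 z x a hz hx.1).trans (max_le h2 hx.2)⟩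

/-- Below a common point the two paths are the same. -/
theorem Sub.common (hs : Sub rho) {a b x z : W} (ha : x ∈ Pth rho m a) (hb : x ∈ Pth rho m b)
    (hz : z ≤ x) : z ∈ Pth rho m a ↔ z ∈ Pth rho m b := by
  rw [hs.pth_iff ha hz, hs.pth_iff hb hz]

/-- The nodes of the pair `a`, `b` in the `m`-th tree, with `a < y`. -/
structure Nd (rho : W → W → ℕ) (m : ℕ) (a b x y : W) : Prop where
  xa : x ∈ Pth rho m a
  xb : x ∉ Pth rho m b
  xm : ∀ z ∈ Pth rho m a, z < x → z ∈ Pth rho m b
  yb : y ∈ Pth rho m b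
  ya : y ∉ Pth rho m a
  ym : ∀ z ∈ Pth rho m b, z < y → z ∈ Pth rho m a
  ay : a < y

theorem Nd.xle {a b x y : W} (h : Nd rho m a b x y) : x ≤ a := h.xa.1

theorem Nd.yle {a b x y : W} (h : Nd rho m a b x y) : y ≤ b := h.yb.1

theorem Nd.lt {a b x y : W} (h : Nd rho m a b x y) : x < y := h.xa.1.trans_lt h.ay

theorem Nd.ab {a b x y : W} (h : Nd rho m a b x y) : a < b := h.ay.trans_le h.yb.1

theorem Nd.unique {a b x y x' y' : W} (h : Nd rho m a b x y) (h' : Nd rho m a b x' y') :
    x = x' ∧ y = y' := by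
  constructor
  · rcases lt_trichotomy x x' with h1 | h1 | h1
    · exact absurd (h'.xm x h.xa h1) h.xb
    · exact h1
    · exact absurd (h.xm x' h'.xa h1) h'.xb
  · rcases lt_trichotomy y y' with h1 | h1 | h1
    · exact absurd (h'.ym y h.yb h1) h.ya
    · exact h1
    · exact absurd (h.ym y' h'.yb h1) h'.ya

/-- A point of `Pth a` which is not in `Pth b` is above all the common points. -/
theorem Sub.above (hs : Sub rho) {a b x z : W} (hx : x ∈ Pth rho m a) (hx' : x ∉ Pth rho m b)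
    (hz : z ∈ Pth rho m a) (hz' : z ∈ Pth rho m b) : z < x := by
  by_contra h
  exact hx' ((hs.common hz hz' (not_lt.1 h)).1 hx)

/-- The first node is the least point of `Pth a` above the common points. -/
theorem Nd.x_eq {a b x y x' : W} (h : Nd rho m a b x y) (h1 : x' ∈ Pth rho m a)
    (h2 : x' ∉ Pth rho m b) (h3 : ∀ z ∈ Pth rho m a, z < x' → z ∈ Pth rho m b) : x' = x := by
  rcases lt_trichotomy x' x with h4 | h4 | h4
  · exact absurd (h.xm x' h1 h4) h2
  · exact h4
  · exact absurd (h3 x h.xa h4) h.xb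

theorem Nd.y_eq {a b x y y' : W} (h : Nd rho m a b x y) (h1 : y' ∈ Pth rho m b)
    (h2 : y' ∉ Pth rho m a) (h3 : ∀ z ∈ Pth rho m b, z < y' → z ∈ Pth rho m a) : y' = y := by
  rcases lt_trichotomy y' y with h4 | h4 | h4
  · exact absurd (h.ym y' h1 h4) h2
  · exact h4
  · exact absurd (h3 y h.yb h4) h.ya

/-- Three points. -/
theorem nd_tri (hs : Sub rho) {a b c x y x' y' x'' y'' : W} (h1 : Nd rho m a b x y)
    (h2 : Nd rho m b c x' y') (h3 : Nd rho m a c x'' y'') :
    (x'' = x ∧ x' = y ∧ y'' = y') ∨ (x'' = x' ∧ y'' = y') ∨ (x'' = x ∧ y'' = y) := by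
  by_cases hB : y'' ∈ Pth rho m b
  · -- the second node of `a`, `c` is a common point of `b`, `c`
    right
    right
    have e1 : ∀ z, z ≤ y'' → (z ∈ Pth rho m b ↔ z ∈ Pth rho m c) := fun z hz =>
      hs.common hB h3.yb hz
    constructor
    · apply h1.x_eq h3.xa
      · intro h4
        exact h3.xb ((e1 _ h3.lt.le).1 h4)
      · intro z hz hz'
        exact (e1 z (hz'.trans h3.lt).le).2 (h3.xm z hz hz')
    · apply h1.y_eq hB h3.ya
      intro z hz hz'
      exact h3.ym z ((e1 z hz'.le).1 hz) hz'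
  · -- the common points of `a`, `c` and of `b`, `c` are the same
    have hy : y'' = y' := by
      apply h2.y_eq h3.yb hB
      intro z hz hz'
      have h4 : z ∈ Pth rho m a := h3.ym z hz hz'
      -- `z` is a common point of `a` and `c`, and `z ≤ a ≤ b`
      by_contra h5
      have h6 : y' ≤ z := by
        by_contra h7
        exact h5 (h2.ym z hz (not_le.1 h7))
      exact absurd (h6.trans h4.1) (not_le.2 (h1.ab.trans h2.ay))
    by_cases hA : x'' ∈ Pth rho m b
    · right
      left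
      refine ⟨?_, hy⟩
      apply h2.x_eq hA h3.xb
      intro z hz hz'
      exact h3.xm z ((hs.common h3.xa hA hz'.le).2 hz) hz'
    · left
      have e2 : ∀ z, z ∈ Pth rho m a → z ∈ Pth rho m b → z ∈ Pth rho m c := by
        intro z hz hz'
        by_contra h4
        -- `z` is above `x''`, which would be common
        have h5 : x'' ≤ z := by
          by_contra h6
          exact h4 (h3.xm z hz (not_le.1 h6))
        exact hA ((hs.common hz hz' h5).1 h3.xa)
      have e3 : ∀ z, z ∈ Pth rho m c → z < y' → z ∈ Pth rho m a := by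
        intro z hz hz'
        rw [← hy] at hz'
        exact h3.ym z hz hz'
      refine ⟨?_, ?_, hy⟩
      · apply h1.x_eq h3.xa hA
        intro z hz hz'
        have h4 := h3.xm z hz hz'
        refine h2.ym z h4 ?_
        exact lt_of_lt_of_le (hz'.trans_le h3.xa.1) (h1.ab.le.trans h2.ay.le)
      · apply h1.y_eq h2.xa
        · intro h4
          exact h2.xb (e2 _ h4 h2.xa)
        · intro z hz hz'
          have h4 := h2.xm z hz hz'
          exact e3 z h4 (hz'.trans h2.lt)

/-- The nodes of a pair above two points with the same predecessors. -/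
theorem nd_press (hs : Sub rho) {a b x y : W} (hxy : x < y) (hxa : x ∈ Pth rho m a)
    (hyb : y ∈ Pth rho m b) (hay : a < y)
    (hF : ∀ z, (z < x ∧ rho z x ≤ m) ↔ (z < y ∧ rho z y ≤ m)) : Nd rho m a b x y := by
  have e1 : ∀ z ∈ Pth rho m a, z < x → z ∈ Pth rho m b := by
    intro z hz hz'
    have h1 := ((hs.pth_iff hxa hz'.le).1 hz).2
    have h2 := (hF z).1 ⟨hz', h1⟩
    exact (hs.pth_iff hyb h2.1.le).2 ⟨h2.1.le, h2.2⟩
  have e2 : ∀ z ∈ Pth rho m b, z < y → z ∈ Pth rho m a := by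
    intro z hz hz'
    have h1 := ((hs.pth_iff hyb hz'.le).1 hz).2
    have h2 := (hF z).2 ⟨hz', h1⟩
    exact (hs.pth_iff hxa h2.1.le).2 ⟨h2.1.le, h2.2⟩
  refine ⟨hxa, ?_, e1, hyb, ?_, e2, hay⟩
  · intro h
    have h1 := ((hs.pth_iff hyb hxy.le).1 h).2
    exact lt_irrefl x ((hF x).2 ⟨hxy, h1⟩).1
  · intro h
    exact absurd h.1 (not_le.2 hay)

end Pool.Agent.H.MP_670a4f_lc
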