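import Pool.Agent.H.MP_670a4f_lc.WalkRho

/-!
# MP_670a4f_lc, Refl: closure points
-/

set_option autoImplicit false

namespace Pool.Agent.H.MP_670a4f_lc

open Set

variable {W : Type*} [LinearOrder W] [WellFoundedLT W]

/-- cofinal subsets -/
def Unb (X : Set W) : Prop := ∀ w : W, ∃ x ∈ X, w < x

omit [WellFoundedLT W] in
/-- Countable sets are bounded. -/
theorem bdd_countable [Uncountable W] (hc : ∀ a : W, (Iio a).Countable) {X : Set W} (hX : X.Countable) :
    ∃ w : W, ∀ x ∈ X, x < w := by
  by_contra hcon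
  push Not at hcon
  have h1 : (univ : Set W) ⊆ ⋃ x ∈ X, Iic x := by
    intro w _
    obtain ⟨x, hx, hwx⟩ := hcon w
    exact Set.mem_iUnion₂.2 ⟨x, hx, hwx⟩
  have h2 : (⋃ x ∈ X, Iic x).Countable := by
    apply hX.biUnion
    intro x _
    have : Iic x = insert x (Iio x) := by
      ext y
      simp only [Set.mem_Iic, Set.mem_insert_iff, Set.mem_Iio]
      exact le_iff_eq_or_lt
    rw [this]
    exact (hc x).insert x
  exact Set.not_countable_univ (h2.mono h1)

omit [WellFoundedLT W] in
theorem unb_of_uncountable (hc : ∀ a : W, (Iio a).Countable) {X : Set W} (hX : ¬ X.Countable) :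
    Unb X := by
  intro w
  by_contra hcon
  push Not at hcon
  apply hX
  apply Set.Countable.mono (s₂ := insert w (Iio w)) _ ((hc w).insert w)
  intro x hx
  rcases (hcon x hx).lt_or_eq with h | h
  · exact Or.inr h
  · exact Or.inl h

omit [WellFoundedLT W] in
theorem not_unb {X : Set W} (hX : ¬ Unb X) : ∃ w, ∀ x ∈ X, x ≤ w := by
  unfold Unb at hX
  push Not at hX
  exact hX

/-- The union of countably many bounded sets is bounded, so one of countably many sets with unbounded union is
unbounded. -/
theorem exists_unb [Uncountable W] (hc : ∀ a : W, (Iio a).Countable) {ι : Type} [Countable ι]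
    (X : ι → Set W) (hX : Unb (⋃ i, X i)) : ∃ i, Unb (X i) := by
  by_contra hcon
  push Not at hcon
  choose w hw using fun i => not_unb (hcon i)
  obtain ⟨z, hz⟩ := bdd_countable hc (Set.countable_range w)
  obtain ⟨x, hx, hzx⟩ := hX z
  rw [Set.mem_iUnion] at hx
  obtain ⟨i, hi⟩ := hx
  exact absurd ((hw i x hi).trans_lt (hz (w i) ⟨i, rfl⟩)) (not_lt.2 hzx.le)

/-- Lists with entries in a countable set. -/
theorem countable_lists {X : Set W} (hX : X.Countable) : {l : List W | ∀ x ∈ l, x ∈ X}.Countable := by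
  haveI : Countable X := hX.to_subtype
  apply (Set.countable_range (fun l : List X => l.map Subtype.val)).mono
  intro l hl
  refine ⟨l.attach.map fun x => ⟨x.1, hl x.1 x.2⟩, ?_⟩
  simp only [List.map_map]
  have : (Subtype.val ∘ fun x : {x // x ∈ l} => (⟨x.1, hl x.1 x.2⟩ : X)) = Subtype.val := rfl
  rw [this, List.attach_map_subtype_val]

/-- **Closure points.**  For a family of sets indexed by finite lists of elements of `W` and elements of a countable type
there are limit points `d` such that every set of the family with index below `d` is contained in `{x | x < d}` or is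
unbounded in `W` and in `{x | x < d}`. -/
theorem closure_pt [Uncountable W] (hc : ∀ a : W, (Iio a).Countable) {P : Type} [Countable P]
    (S : List W → P → Set W) (w0 : W) :
    ∃ d : W, w0 < d ∧ (∀ c < d, ∃ c' , c < c' ∧ c' < d) ∧
      ∀ (l : List W) (p : P), (∀ x ∈ l, x < d) →
        (∀ s ∈ S l p, s < d) ∨ (Unb (S l p) ∧ ∀ c < d, ∃ s ∈ S l p, c < s ∧ s < d) := by
  classical
  -- the step function
  have hstep : ∀ w : W, ∃ w' : W, w < w' ∧ ∀ (l : List W) (p : P), (∀ x ∈ l, x ≤ w) →
      (¬ Unb (S l p) → ∀ s ∈ S l p, s < w') ∧ (Unb (S l p) → ∃ s ∈ S l p, w < s ∧ s < w') := by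
    intro w
    have hIic : (Iic w).Countable := by
      have : Iic w = insert w (Iio w) := by
        ext y
        simp only [Set.mem_Iic, Set.mem_insert_iff, Set.mem_Iio]
        exact le_iff_eq_or_lt
      rw [this]
      exact (hc w).insert w
    have hl : {l : List W | ∀ x ∈ l, x ∈ Iic w}.Countable := countable_lists hIic
    have hlp : ({l : List W | ∀ x ∈ l, x ∈ Iic w} ×ˢ (univ : Set P)).Countable :=
      hl.prod Set.countable_univ
    have hu : ∀ q : List W × P, ∃ u : W, (¬ Unb (S q.1 q.2) → ∀ s ∈ S q.1 q.2, s ≤ u) ∧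
        (Unb (S q.1 q.2) → u ∈ S q.1 q.2 ∧ w < u) := by
      intro q
      by_cases h : Unb (S q.1 q.2)
      · obtain ⟨u, hu, hwu⟩ := h w
        exact ⟨u, fun h' => absurd h h', fun _ => ⟨hu, hwu⟩⟩
      · obtain ⟨u, hu⟩ := not_unb h
        exact ⟨u, fun _ => hu, fun h' => absurd h' h⟩
    choose u hu using hu
    obtain ⟨z, hz⟩ := bdd_countable hc ((hlp.image u).insert w)
    refine ⟨z, hz w (Set.mem_insert _ _), ?_⟩
    intro l p hlw
    have hmem : u (l, p) ∈ insert w (u '' ({l : List W | ∀ x ∈ l, x ∈ Iic w} ×ˢ (univ : Set P))) :=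
      Or.inr ⟨(l, p), ⟨hlw, Set.mem_univ p⟩, rfl⟩
    refine ⟨fun h s hs => ((hu (l, p)).1 h s hs).trans_lt (hz _ hmem), fun h => ?_⟩
    exact ⟨u (l, p), ((hu (l, p)).2 h).1, ((hu (l, p)).2 h).2, hz _ hmem⟩
  choose H hH1 hH2 using hstep
  let a : ℕ → W := fun n => H^[n + 1] w0
  have ha : ∀ n, a n < a (n + 1) := by
    intro n
    simp only [a]
    rw [Function.iterate_succ_apply' H (n + 1)]
    exact hH1 _
  have ha0 : w0 < a 0 := by
    simp only [a, Function.iterate_succ, Function.iterate_zero, Function.comp, id]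
    exact hH1 _
  have hamono : StrictMono a := strictMono_nat_of_lt_succ ha
  have hne : {x : W | ∀ n, a n < x}.Nonempty := by
    obtain ⟨z, hz⟩ := bdd_countable hc (Set.countable_range a)
    exact ⟨z, fun n => hz _ ⟨n, rfl⟩⟩
  obtain ⟨d, hd, hdmin⟩ : ∃ d : W, (∀ n, a n < d) ∧ ∀ c < d, ∃ n, c ≤ a n := by
    refine ⟨WellFounded.min (wellFounded_lt) _ hne, WellFounded.min_mem (wellFounded_lt) _ hne, ?_⟩
    intro c hcd
    by_contra hcon
    push Not at hcon
    exact WellFounded.not_lt_min (wellFounded_lt) {x : W | ∀ n, a n < x} hcon hcd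
  have hfin : ∀ l : List W, (∀ x ∈ l, x < d) → ∃ n, ∀ x ∈ l, x ≤ a n := by
    intro l
    induction l with
    | nil => exact fun _ => ⟨0, fun x hx => absurd hx List.not_mem_nil⟩
    | cons y l ih =>
      intro hl
      obtain ⟨n, hn⟩ := ih fun x hx => hl x (List.mem_cons_of_mem y hx)
      obtain ⟨k, hk⟩ := hdmin y (hl y List.mem_cons_self)
      refine ⟨max n k, fun x hx => ?_⟩
      rw [List.mem_cons] at hx
      rcases hx with rfl | hx
      · exact hk.trans (hamono.monotone (le_max_right n k))
      · exact (hn x hx).trans (hamono.monotone (le_max_left n k))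
  refine ⟨d, ha0.trans (hd 0), ?_, ?_⟩
  · intro c hcd
    obtain ⟨n, hn⟩ := hdmin c hcd
    exact ⟨a (n + 1), hn.trans_lt (ha n), hd _⟩
  · intro l p hl
    obtain ⟨n, hn⟩ := hfin l hl
    by_cases h : Unb (S l p)
    · right
      refine ⟨h, ?_⟩
      intro c hcd
      obtain ⟨k, hk⟩ := hdmin c hcd
      have h2 : ∀ x ∈ l, x ≤ a (max n k) := fun x hx =>
        (hn x hx).trans (hamono.monotone (le_max_left n k))
      obtain ⟨s, hs, hs1, hs2⟩ := (hH2 (a (max n k)) l p h2).2 h
      refine ⟨s, hs, (hk.trans (hamono.monotone (le_max_right n k))).trans_lt hs1, ?_⟩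
      refine hs2.trans ?_
      have h3 : H (a (max n k)) = a (max n k + 1) := by
        simp only [a]
        rw [← Function.iterate_succ_apply' H]
      rw [h3]
      exact hd _
    · left
      intro s hs
      have h4 := (hH2 (a n) l p hn).1 h s hs
      have h3 : H (a n) = a (n + 1) := by
        simp only [a]
        rw [← Function.iterate_succ_apply' H]
      rw [h3] at h4
      exact h4.trans (hd _)

end Pool.Agent.H.MP_670a4f_lc
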