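import Pool.Agent.H.MP_670a4f_lc.WalkRho

/-!
# MP_670a4f_lc, RhoSub: Todorcevic's subadditive finite-to-one function `rho` of a ladder system

For `a ≤ b ≤ c`: `rho a c ≤ max (rho a b) (rho b c)` and `rho a b ≤ max (rho a c) (rho b c)`; and
`{a | a < b ∧ rho a b ≤ n}` is finite. (Todorcevic, Partitioning pairs of countable ordinals, 1987.)
-/

set_option autoImplicit false

namespace Pool.Agent.H.MP_670a4f_lc

open Set

variable {W : Type*} [LinearOrder W] [WellFoundedLT W]

namespace Lad

variable (S : Lad W)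

/-- one step of the recursion -/
noncomputable def rhoF (b : W) (f : ∀ c, c < b → W → ℕ) (a : W) : ℕ :=
  open Classical in
  if h : a < b then
    max (max ((S.C b ∩ Iio a).ncard) (f (S.nx a b h) (S.nx_lt h) a))
      ((S.fin a b h).toFinset.sup (fun x => f a h x))
  else 0

/-- the recursion, top point first -/
noncomputable def rho' : W → W → ℕ :=
  (wellFounded_lt : WellFounded ((· < ·) : W → W → Prop)).fix (fun b f a => S.rhoF b f a)

/-- Todorcevic's `rho` -/
noncomputable def rho (a b : W) : ℕ := S.rho' b a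

theorem rho'_eq (b a : W) : S.rho' b a = S.rhoF b (fun c _ => S.rho' c) a := by
  have h1 : S.rho' b = fun a => S.rhoF b (fun c _ => S.rho' c) a := by
    unfold rho'
    rw [WellFounded.fix_eq]
  exact congrFun h1 a

theorem rho_eq {a b : W} (h : a < b) :
    S.rho a b = max (max ((S.C b ∩ Iio a).ncard) (S.rho a (S.nx a b h)))
      ((S.fin a b h).toFinset.sup (fun x => S.rho x a)) := by
  have h1 := S.rho'_eq b a
  unfold rhoF at h1
  rw [dif_pos h] at h1
  exact h1

theorem rho_self (a : W) : S.rho a a = 0 := by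
  have h1 := S.rho'_eq a a
  unfold rhoF at h1
  rw [dif_neg (lt_irrefl a)] at h1
  exact h1

theorem card_le_rho {a b : W} (h : a < b) : (S.C b ∩ Iio a).ncard ≤ S.rho a b := by
  rw [S.rho_eq h]
  exact (le_max_left _ _).trans (le_max_left _ _)

theorem rho_nx_le {a b : W} (h : a < b) : S.rho a (S.nx a b h) ≤ S.rho a b := by
  rw [S.rho_eq h]
  exact (le_max_right _ _).trans (le_max_left _ _)

theorem rho_C_le {a b x : W} (h : a < b) (hx : x ∈ S.C b) (hxa : x < a) :
    S.rho x a ≤ S.rho a b := by
  rw [S.rho_eq h]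
  refine le_trans ?_ (le_max_right _ _)
  exact Finset.le_sup (f := fun x => S.rho x a) ((S.fin a b h).mem_toFinset.2 ⟨hx, hxa⟩)

theorem rho_le {a b : W} (h : a < b) {M : ℕ} (h1 : (S.C b ∩ Iio a).ncard ≤ M)
    (h2 : S.rho a (S.nx a b h) ≤ M) (h3 : ∀ x ∈ S.C b, x < a → S.rho x a ≤ M) :
    S.rho a b ≤ M := by
  rw [S.rho_eq h]
  refine max_le (max_le h1 h2) (Finset.sup_le ?_)
  intro x hx
  have hx' := (S.fin a b h).mem_toFinset.1 hx
  exact h3 x hx'.1 hx'.2

theorem rho_sub (c : W) : ∀ a b : W, a ≤ b → b ≤ c →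
    S.rho a c ≤ max (S.rho a b) (S.rho b c) ∧ S.rho a b ≤ max (S.rho a c) (S.rho b c) := by
  induction c using WellFoundedLT.induction with
  | ind c ih =>
    intro a b hab hbc
    rcases hab.eq_or_lt with rfl | hab
    · exact ⟨le_max_right _ _, by rw [S.rho_self a]; exact Nat.zero_le _⟩
    rcases hbc.eq_or_lt with rfl | hbc
    · exact ⟨le_max_left _ _, le_max_left _ _⟩
    have hac : a < c := hab.trans hbc
    have hb := ih b hbc
    by_cases hx : S.nx a c hac < b
    · -- the step `x` of `a` is below `b`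
      have hxC : S.nx a c hac ∈ S.C c := S.nx_mem hac
      have hax : a ≤ S.nx a c hac := S.le_nx hac
      have h1 : S.rho (S.nx a c hac) b ≤ S.rho b c := S.rho_C_le hbc hxC hx
      have h2 := hb a (S.nx a c hac) hax hx.le
      constructor
      · apply S.rho_le hac
        · refine le_trans ?_ ((S.card_le_rho hbc).trans (le_max_right _ _))
          exact Set.ncard_le_ncard (fun z hz => ⟨hz.1, lt_trans hz.2 hab⟩) (S.fin b c hbc)
        · exact h2.2.trans (max_le_max le_rfl h1)
        · intro y hy hya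
          have h3 := (hb y a hya.le hab.le).2
          refine h3.trans (max_le ?_ (le_max_left _ _))
          exact (S.rho_C_le hbc hy (hya.trans hab)).trans (le_max_right _ _)
      · refine h2.1.trans (max_le_max (S.rho_nx_le hac) h1)
    · -- `a` and `b` have the same step
      have hbx : b ≤ S.nx a c hac := not_lt.1 hx
      have hnx : S.nx b c hbc = S.nx a c hac :=
        S.nx_eq hbc (S.nx_mem hac) hbx (fun y hy hby => S.nx_le hac hy (hab.le.trans hby))
      have h2 := ih (S.nx a c hac) (S.nx_lt hac) a b hab.le hbx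
      have h3 : S.rho b (S.nx a c hac) ≤ S.rho b c := by
        rw [← hnx]
        exact S.rho_nx_le hbc
      constructor
      · apply S.rho_le hac
        · refine le_trans ?_ ((S.card_le_rho hbc).trans (le_max_right _ _))
          exact Set.ncard_le_ncard (fun z hz => ⟨hz.1, lt_trans hz.2 hab⟩) (S.fin b c hbc)
        · exact h2.1.trans (max_le_max le_rfl h3)
        · intro y hy hya
          have h4 := (hb y a hya.le hab.le).2
          refine h4.trans (max_le ?_ (le_max_left _ _))
          exact (S.rho_C_le hbc hy (hya.trans hab)).trans (le_max_right _ _)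
      · exact h2.2.trans (max_le_max (S.rho_nx_le hac) h3)

theorem rho_fin (b : W) (n : ℕ) : {a | a < b ∧ S.rho a b ≤ n}.Finite := by
  induction b using WellFoundedLT.induction with
  | ind b ih =>
    have h1 : {a | a < b ∧ S.rho a b ≤ n} ⊆
        ⋃ c ∈ {c | c ∈ S.C b ∧ (S.C b ∩ Iio c).ncard ≤ n}, ({a | a < c ∧ S.rho a c ≤ n} ∪ {c}) := by
      rintro a ⟨hab, he⟩
      rw [Set.mem_iUnion₂]
      refine ⟨S.nx a b hab, ⟨S.nx_mem hab, ?_⟩, ?_⟩
      · rw [S.inter_nx hab]
        exact (S.card_le_rho hab).trans he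
      · rcases (S.le_nx hab).lt_or_eq with h | h
        · exact Or.inl ⟨h, (S.rho_nx_le hab).trans he⟩
        · exact Or.inr h
    apply Set.Finite.subset _ h1
    apply (S.few_pred b n).biUnion
    rintro c ⟨hc, -⟩
    exact (ih c (S.sub b c hc)).union (Set.finite_singleton c)

end Lad

/-- The interface: a subadditive finite-to-one function on a well order with countable initial
segments. -/
theorem exists_rho (hc : ∀ a : W, (Iio a).Countable) : ∃ rho : W → W → ℕ,
    (∀ a, rho a a = 0) ∧
    (∀ a b c, a ≤ b → b ≤ c → rho a c ≤ max (rho a b) (rho b c)) ∧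
    (∀ a b c, a ≤ b → b ≤ c → rho a b ≤ max (rho a c) (rho b c)) ∧
    (∀ b n, {a | a < b ∧ rho a b ≤ n}.Finite) := by
  obtain ⟨S⟩ := exists_lad hc
  exact ⟨S.rho, S.rho_self, fun a b c h1 h2 => (S.rho_sub c a b h1 h2).1,
    fun a b c h1 h2 => (S.rho_sub c a b h1 h2).2, S.rho_fin⟩

omit [WellFoundedLT W] in
/-- Unboundedness: on an infinite set of points below a common bound, and hence on every
uncountable set, `rho` is unbounded: for every `n`, a set with `rho ≤ n` on its pairs has all
proper initial parts finite. -/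
theorem rho_bdd_finite {rho : W → W → ℕ} (hfin : ∀ b n, {a | a < b ∧ rho a b ≤ n}.Finite)
    {X : Set W} {n : ℕ} (hX : ∀ a ∈ X, ∀ b ∈ X, a < b → rho a b ≤ n) {b : W} (hb : b ∈ X) :
    (X ∩ Iio b).Finite :=
  (hfin b n).subset (fun a ha => ⟨ha.2, hX a ha.1 b hb ha.2⟩)

end Pool.Agent.H.MP_670a4f_lc
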