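import Pool.Agent.H.MP_670a4f_lc.Rect
import Pool.Agent.H.MP_670a4f_lc.Dens

/-!
# MP_670a4f_lc, Split: the three theorems for a general well order of type omega_1
-/

set_option autoImplicit false

namespace Pool.Agent.H.MP_670a4f_lc

open Set

variable {W : Type*}

/-- The graph of the colour `n` is `k`-colourable. -/
def Clb (c : Sym2 W → ℕ) (n k : ℕ) : Prop :=
  ∃ f : W → Fin k, ∀ a b, a ≠ b → c s(a, b) = n → f a ≠ f b

/-- The colours which do not occur on pairs from `X`. -/
def Mis (c : Sym2 W → ℕ) (X : Set W) : Set ℕ := {n | ¬ ∃ a ∈ X, ∃ b ∈ X, a ≠ b ∧ c s(a, b) = n}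

/-- Every infinite set of natural numbers is split by all but countably many members of the family. -/
def TS (A : W → Set ℕ) : Prop :=
  ∀ N : Set ℕ, N.Infinite → {a | ¬ ((N ∩ A a).Infinite ∧ (N \ A a).Infinite)}.Countable

/-- Every uncountable set contains a copy of `W`. -/
def Cp (W : Type*) : Prop :=
  ∀ Y : Set W, ¬ Y.Countable → ∃ φ : W → W, Function.Injective φ ∧ ∀ w, φ w ∈ Y

theorem split_step (hcp : Cp W) (hno : ¬ ∃ A : W → Set ℕ, TS A) {Y : Set W} (hY : ¬ Y.Countable)
    {N : Set ℕ} (hN : N.Infinite) (G : W → ℕ → Prop) :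
    ∃ Y' ⊆ Y, ¬ Y'.Countable ∧ ∃ N' ⊆ N, N'.Infinite ∧
      ((∀ a ∈ Y', ∀ n ∈ N', G a n) ∨ (∀ a ∈ Y', ∀ n ∈ N', ¬ G a n)) := by
  classical
  obtain ⟨φ, hφ, hφY⟩ := hcp Y hY
  let ν : ℕ → ℕ := Nat.nth (· ∈ N)
  have hν : Function.Injective ν := Nat.nth_injective hN
  have hνN : ∀ k, ν k ∈ N := fun k => Nat.nth_mem_of_infinite hN k
  have h1 : ¬ TS (fun w : W => {k | G (φ w) (ν k)}) := fun h => hno ⟨_, h⟩
  unfold TS at h1
  push Not at h1
  obtain ⟨K, hK, hZ⟩ := h1
  let T : Bool × ℕ → Set W := fun q => {w | ∀ k ∈ K, q.2 ≤ k → (G (φ w) (ν k) ↔ q.1 = true)}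
  have h2 : ∃ q, ¬ (T q).Countable := by
    by_contra hcon
    push Not at hcon
    apply hZ
    apply (Set.countable_iUnion hcon).mono
    intro w hw
    rw [Set.mem_iUnion]
    have hw' : (K ∩ {k | G (φ w) (ν k)}).Finite ∨ (K \ {k | G (φ w) (ν k)}).Finite := by
      by_contra hcon2
      rw [not_or] at hcon2
      exact hcon2.2 (hw hcon2.1)
    rcases hw' with h | h
    · obtain ⟨b, hb⟩ := h.bddAbove
      refine ⟨(false, b + 1), ?_⟩
      intro k hk hbk
      constructor
      · intro hG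
        have := hb (⟨hk, hG⟩ : k ∈ K ∩ {k | G (φ w) (ν k)})
        simp only at hbk
        omega
      · intro h'
        exact absurd h' Bool.false_ne_true
    · obtain ⟨b, hb⟩ := h.bddAbove
      refine ⟨(true, b + 1), ?_⟩
      intro k hk hbk
      constructor
      · intro _
        rfl
      · intro _
        by_contra hG
        have := hb (⟨hk, hG⟩ : k ∈ K \ {k | G (φ w) (ν k)})
        simp only at hbk
        omega
  obtain ⟨⟨v, b⟩, hT⟩ := h2
  refine ⟨φ '' T (v, b), ?_, ?_, ν '' {k | k ∈ K ∧ b ≤ k}, ?_, ?_, ?_⟩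
  · rintro _ ⟨w, -, rfl⟩
    exact hφY w
  · intro h
    exact hT (Set.countable_of_injective_of_countable_image hφ.injOn h)
  · rintro _ ⟨k, -, rfl⟩
    exact hνN k
  · apply Set.Infinite.image hν.injOn
    intro hfin
    apply hK
    apply (hfin.union (Set.finite_Iio b)).subset
    intro k hk
    by_cases hb : b ≤ k
    · exact Or.inl ⟨hk, hb⟩
    · exact Or.inr (not_le.1 hb)
  · cases v with
    | true =>
      left
      rintro _ ⟨w, hw, rfl⟩ _ ⟨k, hk, rfl⟩
      exact (hw k hk.1 hk.2).2 rfl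
    | false =>
      right
      rintro _ ⟨w, hw, rfl⟩ _ ⟨k, hk, rfl⟩ hG
      exact absurd ((hw k hk.1 hk.2).1 hG) Bool.false_ne_true

theorem split_all (hcp : Cp W) (hno : ¬ ∃ A : W → Set ℕ, TS A) {Y : Set W} (hY : ¬ Y.Countable)
    {N : Set ℕ} (hN : N.Infinite) (f : W → ℕ → ℕ) : ∀ k : ℕ,
    ∃ Y' ⊆ Y, ¬ Y'.Countable ∧ ∃ N' ⊆ N, N'.Infinite ∧ ∀ i < k,
      (∀ a ∈ Y', ∀ n ∈ N', f a n = i) ∨ (∀ a ∈ Y', ∀ n ∈ N', f a n ≠ i) := by
  intro k
  induction k with
  | zero => exact ⟨Y, subset_rfl, hY, N, subset_rfl, hN, fun i hi => absurd hi (Nat.not_lt_zero i)⟩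
  | succ k ih =>
    obtain ⟨Y1, hY1, hY1', N1, hN1, hN1', h1⟩ := ih
    obtain ⟨Y2, hY2, hY2', N2, hN2, hN2', h2⟩ := split_step hcp hno hY1' hN1' (fun a n => f a n = k)
    refine ⟨Y2, hY2.trans hY1, hY2', N2, hN2.trans hN1, hN2', ?_⟩
    intro i hi
    rcases Nat.lt_succ_iff_lt_or_eq.1 hi with h | h
    · rcases h1 i h with h3 | h3
      · exact Or.inl fun a ha n hn => h3 a (hY2 ha) n (hN2 hn)
      · exact Or.inr fun a ha n hn => h3 a (hY2 ha) n (hN2 hn)
    · rw [h]
      exact h2

/-- **Bounded chromatic numbers imply a tail splitting family.** -/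
theorem ts_of_bounded (hcp : Cp W) [Uncountable W] {c : Sym2 W → ℕ}
    (hc : ∀ X : Set W, ¬ X.Countable → (Mis c X).Finite) {k : ℕ} (hk : {n | Clb c n k}.Infinite) :
    ∃ A : W → Set ℕ, TS A := by
  classical
  by_contra hno
  have h1 : ∀ n, ∃ f : W → ℕ, n ∈ {n | Clb c n k} →
      (∀ a, f a < k) ∧ ∀ a b, a ≠ b → c s(a, b) = n → f a ≠ f b := by
    intro n
    by_cases h : Clb c n k
    · obtain ⟨f, hf⟩ := h
      refine ⟨fun a => f a, fun _ => ⟨fun a => (f a).2, ?_⟩⟩
      intro a b hab hn heq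
      exact hf a b hab hn (Fin.ext heq)
    · exact ⟨fun _ => 0, fun h' => absurd h' h⟩
  choose f hf using h1
  obtain ⟨Y, -, hY, N, hN, hNinf, h2⟩ := split_all hcp hno (Y := Set.univ) Set.not_countable_univ hk
    (fun a n => f n a) k
  obtain ⟨n0, hn0⟩ := hNinf.nonempty
  have hYne : Y.Nonempty := by
    by_contra hcon
    rw [Set.not_nonempty_iff_eq_empty] at hcon
    rw [hcon] at hY
    exact hY Set.countable_empty
  obtain ⟨a0, ha0⟩ := hYne
  have hconst : ∀ a ∈ Y, ∀ n ∈ N, f n a = f n0 a0 := by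
    rcases h2 (f n0 a0) ((hf n0 (hN hn0)).1 a0) with h | h
    · exact h
    · exact absurd rfl (h a0 ha0 n0 hn0)
  apply hNinf
  apply (hc Y hY).subset
  intro n hn
  rintro ⟨a, ha, b, hb, hab, hcn⟩
  apply (hf n (hN hn)).2 a b hab hcn
  rw [hconst a ha n hn, hconst b hb n hn]

/-- A tail splitting family has an injective reindexing. -/
theorem ts_inj (hcp : Cp W) [Uncountable W] [LinearOrder W] [WellFoundedLT W] {A : W → Set ℕ}
    (hA : TS A) : ∃ A' : W → Set ℕ, TS A' ∧ Function.Injective A' := by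
  classical
  -- the fibres are countable
  have hfib : ∀ S : Set ℕ, {a | A a = S}.Countable := by
    intro S
    by_cases hS : S.Infinite
    · apply (hA S hS).mono
      intro a ha
      rintro ⟨-, h⟩
      rw [show A a = S from ha, Set.sdiff_self] at h
      exact h Set.finite_empty
    · have hS' : (Sᶜ : Set ℕ).Infinite := by
        rw [Set.not_infinite] at hS
        exact hS.infinite_compl
      apply (hA Sᶜ hS').mono
      intro a ha
      rintro ⟨h, -⟩
      rw [show A a = S from ha, Set.compl_inter_self] at h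
      exact h Set.finite_empty
  let R : Set W := {w | ∀ w' < w, A w' ≠ A w}
  have hR : ¬ R.Countable := by
    intro hR
    have h1 : (univ : Set W) ⊆ ⋃ w ∈ R, {a | A a = A w} := by
      intro a _
      have hne : {w | A w = A a}.Nonempty := ⟨a, rfl⟩
      refine Set.mem_iUnion₂.2 ⟨WellFounded.min (wellFounded_lt) _ hne, ?_, ?_⟩
      · intro w' hw' heq
        have h2 : A (WellFounded.min (wellFounded_lt) _ hne) = A a :=
          WellFounded.min_mem (wellFounded_lt) _ hne
        exact WellFounded.not_lt_min (wellFounded_lt) {w | A w = A a} (heq.trans h2) hw'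
      · exact (WellFounded.min_mem (wellFounded_lt) {w | A w = A a} hne).symm
    exact Set.not_countable_univ ((hR.biUnion fun w _ => hfib (A w)).mono h1)
  obtain ⟨φ, hφ, hφR⟩ := hcp R hR
  refine ⟨fun w => A (φ w), ?_, ?_⟩
  · intro N hN
    exact (hA N hN).preimage_of_injOn hφ.injOn
  · intro v w hvw
    simp only at hvw
    apply hφ
    rcases lt_trichotomy (φ v) (φ w) with h | h | h
    · exact absurd hvw (hφR w _ h)
    · exact h
    · exact absurd hvw.symm (hφR v _ h)

variable [LinearOrder W] [WellFoundedLT W]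

/-- **A tail splitting family gives a colouring with bipartite classes.** -/
theorem good_of_ts [Uncountable W] (hc : ∀ a : W, (Iio a).Countable) (hcp : Cp W) {A : W → Set ℕ}
    (hA : TS A) : ∃ c : Sym2 W → ℕ, (∀ n, Clb c n 2) ∧
      ∀ X : Set W, ¬ X.Countable → (Mis c X).Finite := by
  classical
  obtain ⟨A', hA', hinj⟩ := ts_inj hcp hA
  let F : W → ℕ → Bool := fun a n => decide (n ∈ A' a)
  have hF : ∀ a n, F a n = true ↔ n ∈ A' a := fun a n => decide_eq_true_iff
  obtain ⟨c, hc1, hc2⟩ := exists_col hc (fun a b n => F a n ≠ F b n)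
    (fun a b n h => h.symm) (by
      intro a b hab
      by_contra hcon
      push Not at hcon
      apply hab
      apply hinj
      ext n
      rw [← hF, ← hF, hcon n])
  refine ⟨c, ?_, ?_⟩
  · intro n
    refine ⟨fun a => if F a n then 0 else 1, ?_⟩
    intro a b hab hn
    have h1 := hc1 a b hab
    rw [hn] at h1
    cases h2 : F a n <;> cases h3 : F b n <;> simp_all
  · intro X hX
    by_contra hinf
    have hinf' : (Mis c X).Infinite := hinf
    obtain ⟨X', hX'X, hX', v, hv⟩ := exists_const (F := F) hX (Mis c X) (by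
      intro n hn
      by_contra hcon
      push Not at hcon
      apply hn
      obtain ⟨a, ha, b, hb, hab, hcn⟩ := hc2 n _ _ hcon.1 hcon.2 (by
        rintro a ⟨-, ha⟩ b ⟨-, hb⟩
        rw [ha, hb]
        decide)
      exact ⟨a, ha.1, b, hb.1, hab, hcn⟩)
    -- one of the two parts is infinite
    have h1 : {n | n ∈ Mis c X ∧ v n = true}.Infinite ∨ {n | n ∈ Mis c X ∧ v n = false}.Infinite := by
      by_contra hcon
      rw [not_or, Set.not_infinite, Set.not_infinite] at hcon
      apply hinf'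
      apply (hcon.1.union hcon.2).subset
      intro n hn
      cases h : v n
      · exact Or.inr ⟨hn, h⟩
      · exact Or.inl ⟨hn, h⟩
    rcases h1 with h1 | h1
    · apply hX'
      apply (hA' _ h1).mono
      intro a ha
      rintro ⟨-, h⟩
      apply h
      apply Set.finite_empty.subset
      rintro n ⟨⟨hn, hvn⟩, hna⟩
      apply hna
      rw [← hF, hv n hn a ha, hvn]
    · apply hX'
      apply (hA' _ h1).mono
      intro a ha
      rintro ⟨h, -⟩
      apply h
      apply Set.finite_empty.subset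
      rintro n ⟨⟨hn, hvn⟩, hna⟩
      rw [← hF, hv n hn a ha, hvn] at hna
      exact absurd hna (by decide)

/-- **Slowly growing chromatic numbers.** -/
theorem good_slow [Uncountable W] (hc : ∀ a : W, (Iio a).Countable) {r : W → ℕ → Bool}
    (hr : Function.Injective r) (t : ℕ → ℕ) (ht : ∀ n, 1 ≤ t n)
    (htt : Filter.Tendsto t Filter.atTop Filter.atTop) :
    ∃ c : Sym2 W → ℕ, (∀ n, Clb c n (t n)) ∧ ∀ X : Set W, ¬ X.Countable → (Mis c X).Finite := by
  classical
  have hs : ∀ d : ℕ, {n | ¬ d < Nat.log 2 (t n)}.Finite := by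
    intro d
    have h1 := htt.eventually_ge_atTop (2 ^ (d + 1))
    rw [Filter.eventually_atTop] at h1
    obtain ⟨n0, hn0⟩ := h1
    apply (Set.finite_Iio n0).subset
    intro n hn
    by_contra hcon
    apply hn
    have h2 := hn0 n (not_lt.1 hcon)
    have := Nat.le_log_of_pow_le (b := 2) (by norm_num) h2
    omega
  obtain ⟨c, hc1, hc2⟩ := exists_col hc (fun a b n => ∃ i < Nat.log 2 (t n), r a i ≠ r b i)
    (by
      rintro a b n ⟨i, hi, h⟩
      exact ⟨i, hi, h.symm⟩)
    (by
      intro a b hab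
      obtain ⟨i, hi⟩ := Function.ne_iff.1 (hr.ne hab)
      obtain ⟨n, hn⟩ := (hs i).infinite_compl.nonempty
      exact ⟨n, i, not_not.1 hn, hi⟩)
  refine ⟨c, ?_, ?_⟩
  · intro n
    have hcard : Fintype.card (Fin (Nat.log 2 (t n)) → Bool) = 2 ^ Nat.log 2 (t n) := by simp
    have hle : 2 ^ Nat.log 2 (t n) ≤ t n := Nat.pow_log_le_self 2 (by have := ht n; omega)
    refine ⟨fun a => Fin.castLE hle (Fintype.equivFinOfCardEq hcard fun i => r a i), ?_⟩
    intro a b hab hn heq
    obtain ⟨i, hi, hne⟩ := hc1 a b hab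
    rw [hn] at hi
    have h1 := (Fintype.equivFinOfCardEq hcard).injective (Fin.castLE_injective hle heq)
    exact hne (congrFun h1 ⟨i, hi⟩)
  · intro X hX
    obtain ⟨d, hd1, hd2⟩ := exists_split hr hX
    apply (hs d).subset
    intro n hn hdn
    apply hn
    obtain ⟨a, ha, b, hb, hab, hcn⟩ := hc2 n _ _ hd1 hd2 (by
      rintro a ⟨-, ha⟩ b ⟨-, hb⟩
      refine ⟨d, hdn, ?_⟩
      rw [ha, hb]
      decide)
    exact ⟨a, ha.1, b, hb.1, hab, hcn⟩

/-- **Bipartite classes, all colours up to upper Banach density zero.** -/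
theorem good_dens [Uncountable W] (hc : ∀ a : W, (Iio a).Countable) {r : W → ℕ → Bool}
    (hr : Function.Injective r) :
    ∃ c : Sym2 W → ℕ, (∀ n, Clb c n 2) ∧ ∀ X : Set W, ¬ X.Countable →
      ∀ ε : ℝ, 0 < ε → ∃ L₀ : ℕ, ∀ L ≥ L₀, ∀ s : ℕ,
        ((Mis c X ∩ Ico s (s + L)).ncard : ℝ) ≤ ε * L := by
  classical
  let F : W → ℕ → Bool := fun a n => decide (ch (r a) n = 1)
  have hF : ∀ a b n, F a n = F b n → ch (r a) n = ch (r b) n := by
    intro a b n h
    have h1 : (ch (r a) n = 1) ↔ (ch (r b) n = 1) := decide_eq_decide.1 h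
    have h2 : ∀ a, ch (r a) n = 1 ∨ ch (r a) n = -1 := by
      intro a
      exact mul_self_eq_one_iff.1 (ch_sq (r a) n)
    rcases h2 a with h3 | h3
    · rw [h3, h1.1 h3]
    · rcases h2 b with h4 | h4
      · rw [h4, h1.2 h4]
      · rw [h3, h4]
  obtain ⟨c, hc1, hc2⟩ := exists_col hc (fun a b n => F a n ≠ F b n)
    (fun a b n h => h.symm) (by
      intro a b hab
      obtain ⟨p, hp⟩ := Function.ne_iff.1 (hr.ne hab)
      refine ⟨2 ^ p, ?_⟩
      intro h
      have h1 := hF a b _ h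
      have h2 := ch_flip (r a) 0 p
      have h3 := ch_flip (r b) 0 p
      rw [Nat.zero_xor] at h2 h3
      rw [h2, h3] at h1
      have h4 : ∀ a, ch (r a) 0 = 1 := by
        intro a
        simp [ch]
      rw [h4, h4] at h1
      cases h5 : r a p <;> cases h6 : r b p <;> rw [h5, h6] at h1 hp <;> simp_all)
  refine ⟨c, ?_, ?_⟩
  · intro n
    refine ⟨fun a => if F a n then 0 else 1, ?_⟩
    intro a b hab hn
    have h1 := hc1 a b hab
    rw [hn] at h1
    cases h2 : F a n <;> cases h3 : F b n <;> simp_all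
  · intro X hX
    obtain ⟨X', hX'X, hX', v, hv⟩ := exists_const (F := F) hX (Mis c X) (by
      intro n hn
      by_contra hcon
      push Not at hcon
      apply hn
      obtain ⟨a, ha, b, hb, hab, hcn⟩ := hc2 n _ _ hcon.1 hcon.2 (by
        rintro a ⟨-, ha⟩ b ⟨-, hb⟩
        rw [ha, hb]
        decide)
      exact ⟨a, ha.1, b, hb.1, hab, hcn⟩)
    have hinf : X'.Infinite := fun h => hX' h.countable
    apply banach_zero
    intro m
    obtain ⟨C, hC⟩ := window_count hr hinf m
    refine ⟨C, fun s L => ?_⟩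
    have hfin : (Mis c X ∩ Ico s (s + L)).Finite := (Set.finite_Ico s (s + L)).subset Set.inter_subset_right
    rw [Set.ncard_eq_toFinset_card _ hfin]
    apply hC s L
    · intro n hn
      rw [Set.Finite.mem_toFinset] at hn
      exact hn.2
    · intro n hn a ha b hb
      rw [Set.Finite.mem_toFinset] at hn
      apply hF
      rw [hv n hn.1 a ha, hv n hn.1 b hb]

end Pool.Agent.H.MP_670a4f_lc
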