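import Mathlib

set_option autoImplicit false

namespace Pool.Agent.H670

open Set

universe u

variable {Ω : Type u} [LinearOrder Ω] [WellFoundedLT Ω]

/-- A C-sequence of order type at most omega. -/
structure CSeq (Ω : Type u) [LinearOrder Ω] where
  C : Ω → Set Ω
  sub : ∀ γ, ∀ x ∈ C γ, x < γ
  cof : ∀ γ α, α < γ → ∃ x ∈ C γ, α ≤ x
  fin : ∀ γ α, α < γ → (C γ ∩ Set.Iio α).Finite

theorem exists_cseq (hc : ∀ a : Ω, (Set.Iio a).Countable) : Nonempty (CSeq Ω) := by
  classical
  have key : ∀ γ : Ω, ∃ C : Set Ω, (∀ x ∈ C, x < γ) ∧ (∀ α, α < γ → ∃ x ∈ C, α ≤ x) ∧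
      (∀ α, α < γ → (C ∩ Set.Iio α).Finite) := by
    intro γ
    rcases (Set.Iio γ).eq_empty_or_nonempty with h | h
    · refine ⟨∅, by simp, ?_, by simp⟩
      intro α hα
      have : α ∈ Set.Iio γ := hα
      rw [h] at this
      exact absurd this (Set.notMem_empty _)
    · obtain ⟨f, hf⟩ := (hc γ).exists_eq_range h
      refine ⟨{x | ∃ n, x = f n ∧ ∀ i < n, f i < f n}, ?_, ?_, ?_⟩
      · rintro x ⟨n, rfl, -⟩
        have : f n ∈ Set.Iio γ := by rw [hf]; exact ⟨n, rfl⟩
        exact this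
      · intro α hα
        have : α ∈ Set.range f := by rw [← hf]; exact hα
        obtain ⟨N, rfl⟩ := this
        -- maximum of f 0 .. f N
        have hne : (Finset.range (N + 1)).Nonempty := ⟨0, by simp⟩
        obtain ⟨m, hm, hmax⟩ := Finset.exists_max_image (Finset.range (N + 1)) f hne
        have hex : ∃ n : ℕ, f m ≤ f n := ⟨m, le_refl (f m)⟩
        have hfind := Nat.find_spec hex
        refine ⟨f (Nat.find hex), ⟨Nat.find hex, rfl, ?_⟩, ?_⟩
        · intro i hi
          have := Nat.find_min hex hi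
          have h2 : f i < f m := not_le.mp this
          exact lt_of_lt_of_le h2 hfind
        · have h3 : f N ≤ f m := hmax N (by simp)
          exact le_trans h3 hfind
      · intro α hα
        have : α ∈ Set.range f := by rw [← hf]; exact hα
        obtain ⟨N, rfl⟩ := this
        refine Set.Finite.subset (Set.Finite.image f (Set.finite_Iio N)) ?_
        rintro x ⟨⟨n, rfl, hn⟩, hx⟩
        refine ⟨n, ?_, rfl⟩
        by_contra hcon
        have hcon' : N ≤ n := not_lt.mp hcon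
        rcases Nat.eq_or_lt_of_le hcon' with h1 | h1
        · subst h1
          exact lt_irrefl (f N) hx
        · have h2 := hn N h1
          have h3 : f n < f N := hx
          exact lt_asymm h2 h3
  choose C h1 h2 h3 using key
  exact ⟨⟨C, h1, h2, h3⟩⟩

namespace CSeq

variable (S : CSeq Ω)

open Classical in
/-- The least element of `C γ` which is at least `α`. -/
noncomputable def next (γ α : Ω) : Ω :=
  if h : (S.C γ ∩ Set.Ici α).Nonempty then
    (wellFounded_lt (α := Ω)).min (S.C γ ∩ Set.Ici α) h else α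

theorem next_mem {γ α : Ω} (h : α < γ) : S.next γ α ∈ S.C γ ∩ Set.Ici α := by
  have hne : (S.C γ ∩ Set.Ici α).Nonempty := by
    obtain ⟨x, hx, hx'⟩ := S.cof γ α h
    exact ⟨x, hx, hx'⟩
  unfold next
  rw [dif_pos hne]
  exact WellFounded.min_mem _ _ hne

theorem next_memC {γ α : Ω} (h : α < γ) : S.next γ α ∈ S.C γ := (S.next_mem h).1

theorem le_next {γ α : Ω} (h : α < γ) : α ≤ S.next γ α := (S.next_mem h).2

theorem next_lt {γ α : Ω} (h : α < γ) : S.next γ α < γ := S.sub γ _ (S.next_memC h)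

theorem next_le {γ α x : Ω} (hx : x ∈ S.C γ) (hx' : α ≤ x) : S.next γ α ≤ x := by
  have hne : (S.C γ ∩ Set.Ici α).Nonempty := ⟨x, hx, hx'⟩
  have hm : x ∈ S.C γ ∩ Set.Ici α := ⟨hx, hx'⟩
  unfold next
  rw [dif_pos hne]
  exact not_lt.mp (WellFounded.not_lt_min _ _ hm)

/-- no element of `C γ` lies in `[α, next γ α)`. -/
theorem inter_eq {γ α β : Ω} (h1 : α ≤ β) (h2 : β ≤ S.next γ α) :
    S.C γ ∩ Set.Iio β = S.C γ ∩ Set.Iio α := by
  ext x
  constructor
  · rintro ⟨hx, hx'⟩
    refine ⟨hx, ?_⟩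
    by_contra hcon
    have hcon' : α ≤ x := not_lt.mp hcon
    have := S.next_le hx hcon'
    exact absurd (lt_of_lt_of_le hx' (le_trans h2 this)) (lt_irrefl _)
  · rintro ⟨hx, hx'⟩
    exact ⟨hx, lt_of_lt_of_le hx' h1⟩

theorem next_eq {γ α β : Ω} (h : α < γ) (h1 : α ≤ β) (h2 : β ≤ S.next γ α) :
    S.next γ β = S.next γ α := by
  have hβ : β < γ := lt_of_le_of_lt h2 (S.next_lt h)
  apply le_antisymm
  · exact S.next_le (S.next_memC h) h2
  · exact S.next_le (S.next_memC hβ) (le_trans h1 (S.le_next hβ))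

/-- Combine an optional maximum with a list. -/
def combine : Option Ω → List Ω → List Ω
  | none, l => l
  | some m, l => m :: l.filter (fun x => decide (m < x))

open Classical in
/-- The maximum of a set, if there is one. -/
noncomputable def maxOf (T : Set Ω) : Option Ω :=
  if h : ∃ m ∈ T, ∀ x ∈ T, x ≤ m then some h.choose else none

/-- The maximum of `C γ ∩ Iio α`, if there is one. -/
noncomputable def prev (γ α : Ω) : Option Ω := maxOf (S.C γ ∩ Set.Iio α)

theorem prev_some {γ α m : Ω} (h : S.prev γ α = some m) :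
    m ∈ S.C γ ∩ Set.Iio α ∧ ∀ x ∈ S.C γ ∩ Set.Iio α, x ≤ m := by
  unfold prev maxOf at h
  split_ifs at h with h'
  · have := h'.choose_spec
    simp only [Option.some.injEq] at h
    rw [h] at this
    exact this

theorem prev_congr {γ α β : Ω} (h : S.C γ ∩ Set.Iio α = S.C γ ∩ Set.Iio β) :
    S.prev γ α = S.prev γ β := by
  unfold prev
  rw [h]

theorem exists_prev {γ α x : Ω} (h : α < γ) (hx : x ∈ S.C γ) (hx' : x < α) :
    ∃ m, S.prev γ α = some m ∧ x ≤ m := by
  classical
  have hfin := S.fin γ α h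
  have hne : (S.C γ ∩ Set.Iio α).Nonempty := ⟨x, hx, hx'⟩
  obtain ⟨m, hm, hmax⟩ := Set.exists_max_image _ (fun y => y) hfin hne
  have hex : ∃ m ∈ S.C γ ∩ Set.Iio α, ∀ x ∈ S.C γ ∩ Set.Iio α, x ≤ m := ⟨m, hm, hmax⟩
  refine ⟨hex.choose, ?_, ?_⟩
  · unfold prev maxOf
    rw [dif_pos hex]
  · exact hex.choose_spec.2 x ⟨hx, hx'⟩

/-- The lower trace, as a list. `F γ α` for `α < γ`. -/
noncomputable def F (γ α : Ω) : List Ω :=
  open Classical in
  if h : α < γ then combine (S.prev γ α) (F (S.next γ α) α) else []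
termination_by (wellFounded_lt (α := Ω)).wrap γ
decreasing_by exact S.next_lt h

/-- The function `ρ₁`. `e γ α` for `α < γ`. -/
noncomputable def e (γ α : Ω) : ℕ :=
  open Classical in
  if h : α < γ then max (S.C γ ∩ Set.Iio α).ncard (e (S.next γ α) α) else 0
termination_by (wellFounded_lt (α := Ω)).wrap γ
decreasing_by exact S.next_lt h

theorem F_of_lt {γ α : Ω} (h : α < γ) :
    S.F γ α = combine (S.prev γ α) (S.F (S.next γ α) α) := by
  rw [F, dif_pos h]

theorem F_of_not_lt {γ α : Ω} (h : ¬ α < γ) : S.F γ α = [] := by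
  rw [F, dif_neg h]

theorem e_of_lt {γ α : Ω} (h : α < γ) :
    S.e γ α = max (S.C γ ∩ Set.Iio α).ncard (S.e (S.next γ α) α) := by
  rw [e, dif_pos h]

theorem mem_combine {o : Option Ω} {l : List Ω} {x : Ω} (h : x ∈ combine o l) :
    (o = some x ∨ x ∈ l) ∧ ∀ m, o = some m → m ≤ x := by
  cases o with
  | none => exact ⟨Or.inr h, by simp⟩
  | some m =>
    simp only [combine, List.mem_cons, List.mem_filter, decide_eq_true_eq] at h
    rcases h with h | h
    · subst h
      exact ⟨Or.inl rfl, by rintro m' hm'; simp at hm'; exact hm'.ge⟩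
    · exact ⟨Or.inr h.1, by rintro m' hm'; simp at hm'; subst hm'; exact h.2.le⟩

theorem F_lt (γ : Ω) : ∀ α x : Ω, x ∈ S.F γ α → x < α := by
  induction γ using WellFoundedLT.induction with
  | ind γ ih =>
    intro α x hx
    by_cases h : α < γ
    · rw [S.F_of_lt h] at hx
      rcases (mem_combine hx).1 with h1 | h1
      · exact (S.prev_some h1).1.2
      · exact ih _ (S.next_lt h) α x h1
    · rw [S.F_of_not_lt h] at hx
      simp at hx

/-- Q1 -/
theorem F_high {β γ' : Ω} (hβ : ∀ x < β, ∃ y < β, x < y) (hγ' : γ' < β) :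
    ∃ ξ, ξ < β ∧ ∀ α, ξ < α → α < β → S.F β α ≠ [] ∧ ∀ x ∈ S.F β α, γ' < x := by
  obtain ⟨y, hy, hy'⟩ := hβ γ' hγ'
  obtain ⟨c, hc, hc'⟩ := S.cof β y hy
  have hcβ := S.sub β c hc
  refine ⟨c, hcβ, ?_⟩
  intro α h1 h2
  obtain ⟨m, hm, hm'⟩ := S.exists_prev h2 hc h1
  rw [S.F_of_lt h2, hm]
  constructor
  · simp [combine]
  · intro x hx
    have := (mem_combine hx).2 m rfl
    exact lt_of_lt_of_le (lt_of_lt_of_le hy' hc') (le_trans hm' this)

theorem combine_append {o : Option Ω} {l l' : List Ω} (h : ∀ m, o = some m → ∀ x ∈ l', m < x) :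
    combine o (l ++ l') = combine o l ++ l' := by
  cases o with
  | none => rfl
  | some m =>
    simp only [combine, List.filter_append, List.cons_append]
    congr 2
    rw [List.filter_eq_self]
    intro x hx
    simpa using h m rfl x hx

/-- Q2 -/
theorem F_append (γ : Ω) : ∀ β : Ω, β < γ → (∀ x < β, ∃ y < β, x < y) → (∃ z, z < β) →
    ∃ h, h < β ∧ ∀ α, h < α → α < β → S.F γ α = S.F γ β ++ S.F β α := by
  induction γ using WellFoundedLT.induction with
  | ind γ ih =>
    intro β hβγ hlim hz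
    -- a bound above all elements of C γ ∩ Iio β
    obtain ⟨m0, hm0, hm0'⟩ : ∃ m0, m0 < β ∧ ∀ x ∈ S.C γ ∩ Set.Iio β, x ≤ m0 := by
      by_cases hne : (S.C γ ∩ Set.Iio β).Nonempty
      · obtain ⟨m, hm, hmax⟩ := Set.exists_max_image _ (fun y => y) (S.fin γ β hβγ) hne
        exact ⟨m, hm.2, hmax⟩
      · obtain ⟨z, hz⟩ := hz
        refine ⟨z, hz, ?_⟩
        intro x hx
        exact absurd ⟨x, hx⟩ hne
    obtain ⟨ξ, hξ, hξ'⟩ := S.F_high hlim hm0
    have hnext : ∀ α, m0 < α → α < β → S.next γ α = S.next γ β ∧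
        S.C γ ∩ Set.Iio α = S.C γ ∩ Set.Iio β := by
      intro α h1 h2
      have h3 : β ≤ S.next γ α := by
        by_contra hcon
        have hcon' := not_le.mp hcon
        have hα : α < γ := lt_trans h2 hβγ
        have h4 := hm0' (S.next γ α) ⟨S.next_memC hα, hcon'⟩
        exact absurd (lt_of_le_of_lt (le_trans (S.le_next hα) h4) h1) (lt_irrefl _)
      exact ⟨(S.next_eq (lt_trans h2 hβγ) h2.le h3).symm, (S.inter_eq h2.le h3).symm⟩
    have hηγ := S.next_lt hβγ
    have hβη := S.le_next hβγ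
    have main : ∃ h, h < β ∧ ∀ α, h < α → α < β →
        S.F (S.next γ β) α = S.F (S.next γ β) β ++ S.F β α := by
      rcases eq_or_lt_of_le hβη with h | h
      · refine ⟨m0, hm0, ?_⟩
        intro α h1 h2
        rw [← h, S.F_of_not_lt (lt_irrefl β)]
        simp
      · exact ih _ hηγ β h hlim hz
    obtain ⟨h0, h0β, hh0⟩ := main
    refine ⟨max h0 (max m0 ξ), by simp [h0β, hm0, hξ], ?_⟩
    intro α h1 h2
    have e1 : h0 < α := lt_of_le_of_lt (le_max_left _ _) h1
    have e2 : m0 < α := lt_of_le_of_lt (le_trans (le_max_left _ _) (le_max_right _ _)) h1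
    have e3 : ξ < α := lt_of_le_of_lt (le_trans (le_max_right _ _) (le_max_right _ _)) h1
    obtain ⟨e4, e5⟩ := hnext α e2 h2
    rw [S.F_of_lt (lt_trans h2 hβγ), S.F_of_lt hβγ, e4, S.prev_congr e5, hh0 α e1 h2]
    apply combine_append
    intro m hm x hx
    have hmm := hm0' m (S.prev_some hm).1
    exact lt_of_le_of_lt hmm ((hξ' α e3 h2).2 x hx)

theorem ncard_lt {γ c c' : Ω} (hc : c ∈ S.C γ) (h : c < c') (hc' : c' < γ) :
    (S.C γ ∩ Set.Iio c).ncard < (S.C γ ∩ Set.Iio c').ncard := by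
  apply Set.ncard_lt_ncard _ (S.fin γ c' hc')
  refine ⟨fun x hx => ⟨hx.1, lt_trans hx.2 h⟩, ?_⟩
  intro hcon
  have := hcon ⟨hc, h⟩
  exact lt_irrefl _ this.2

/-- E1: finite-to-one -/
theorem e_fin (γ : Ω) : ∀ n : ℕ, {ξ | ξ < γ ∧ S.e γ ξ ≤ n}.Finite := by
  induction γ using WellFoundedLT.induction with
  | ind γ ih =>
    intro n
    have hCn : {c | c ∈ S.C γ ∧ (S.C γ ∩ Set.Iio c).ncard ≤ n}.Finite := by
      apply Set.Finite.of_injOn (f := fun c => (S.C γ ∩ Set.Iio c).ncard) (t := Set.Iic n)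
      · intro c hc
        exact hc.2
      · intro c hc c' hc' heq
        rcases lt_trichotomy c c' with h | h | h
        · exact absurd heq (ne_of_lt (S.ncard_lt hc.1 h (S.sub γ _ hc'.1)))
        · exact h
        · exact absurd heq.symm (ne_of_lt (S.ncard_lt hc'.1 h (S.sub γ _ hc.1)))
      · exact Set.finite_Iic n
    refine Set.Finite.subset (Set.Finite.biUnion hCn
      (t := fun c => insert c {ξ | ξ < c ∧ S.e c ξ ≤ n}) ?_) ?_
    · intro c hc
      exact (ih c (S.sub γ c hc.1) n).insert c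
    · rintro ξ ⟨h1, h2⟩
      rw [S.e_of_lt h1] at h2
      have h3 := le_trans (le_max_left _ _) h2
      have h4 := le_trans (le_max_right _ _) h2
      rw [Set.mem_iUnion₂]
      refine ⟨S.next γ ξ, ⟨S.next_memC h1, ?_⟩, ?_⟩
      · rw [S.inter_eq (S.le_next h1) le_rfl]
        exact h3
      · rcases eq_or_lt_of_le (S.le_next h1) with h | h
        · left; exact h
        · right; exact ⟨h, h4⟩

/-- E2: coherent -/
theorem e_coh (γ : Ω) : ∀ α : Ω, α < γ → {ξ | ξ < α ∧ S.e α ξ ≠ S.e γ ξ}.Finite := by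
  induction γ using WellFoundedLT.induction with
  | ind γ ih =>
    intro α hα
    set k := (S.C γ ∩ Set.Iio α).ncard with hk
    -- the part where next γ ξ < α
    have A : ({ξ | ξ < α ∧ S.e α ξ ≠ S.e γ ξ} ∩ {ξ | S.next γ ξ < α}).Finite := by
      refine Set.Finite.subset (Set.Finite.biUnion (S.fin γ α hα)
        (t := fun c => insert c ({ξ | ξ < c ∧ S.e c ξ ≠ S.e α ξ} ∪
          {ξ | ξ < α ∧ S.e α ξ ≤ (S.C γ ∩ Set.Iio c).ncard})) ?_) ?_
      · intro c hc
        exact ((ih α hα c hc.2).union (S.e_fin α _)).insert c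
      · rintro ξ ⟨⟨h1, h2⟩, h3⟩
        have hξγ := lt_trans h1 hα
        rw [Set.mem_iUnion₂]
        refine ⟨S.next γ ξ, ⟨S.next_memC hξγ, h3⟩, ?_⟩
        rcases eq_or_lt_of_le (S.le_next hξγ) with h | h
        · left; exact h
        · right
          by_cases h4 : S.e (S.next γ ξ) ξ = S.e α ξ
          · right
            refine ⟨h1, ?_⟩
            rw [S.e_of_lt hξγ, h4] at h2
            rw [S.inter_eq (S.le_next hξγ) le_rfl]
            by_contra hcon
            exact h2 (max_eq_right (not_le.mp hcon).le).symm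
          · left
            exact ⟨h, h4⟩
    have B : ({ξ | ξ < α ∧ S.e α ξ ≠ S.e γ ξ} ∩ {ξ | ¬ S.next γ ξ < α}).Finite := by
      have hη : {ξ | ξ < α ∧ S.e α ξ ≠ S.e (S.next γ α) ξ}.Finite := by
        rcases eq_or_lt_of_le (S.le_next hα) with h | h
        · rw [← h]; simp
        · exact ih _ (S.next_lt hα) α h
      refine Set.Finite.subset (hη.union (S.e_fin α k)) ?_
      rintro ξ ⟨⟨h1, h2⟩, h3⟩
      have hξγ := lt_trans h1 hα
      have h4 : α ≤ S.next γ ξ := not_lt.mp h3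
      have h5 := S.next_eq hξγ h1.le h4
      have h6 := S.inter_eq h1.le h4
      by_cases h7 : S.e α ξ = S.e (S.next γ α) ξ
      · right
        refine ⟨h1, ?_⟩
        rw [S.e_of_lt hξγ, ← h6, ← h5, ← h7] at h2
        by_contra hcon
        exact h2 (max_eq_right (not_le.mp hcon).le).symm
      · left
        exact ⟨h1, h7⟩
    refine Set.Finite.subset (A.union B) ?_
    intro ξ hξ
    by_cases h : S.next γ ξ < α
    · left; exact ⟨hξ, h⟩
    · right; exact ⟨hξ, h⟩

theorem e_coh' {δ α β : Ω} (hα : δ ≤ α) (hβ : δ ≤ β) : {ξ | ξ < δ ∧ S.e α ξ ≠ S.e β ξ}.Finite := by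
  rcases lt_trichotomy α β with h | h | h
  · exact (S.e_coh β α h).subset (fun ξ hξ => ⟨lt_of_lt_of_le hξ.1 hα, hξ.2⟩)
  · subst h; simp
  · exact (S.e_coh α β h).subset (fun ξ hξ => ⟨lt_of_lt_of_le hξ.1 hβ, fun h' => hξ.2 h'.symm⟩)

end CSeq

end Pool.Agent.H670
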