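import Mathlib

/-!
# MP_670a4f_lc, Walk: a ladder system on a well order with countable initial segments, the minimal walk, the
maximal weight of the walk (a coherent sequence of finite-to-one functions) and the lower trace
-/

set_option autoImplicit false

namespace Pool.Agent.H.MP_670a4f_lc

open Set

variable {W : Type*} [LinearOrder W] [WellFoundedLT W]

/-- A ladder system: every `C b` is a cofinal subset of `{x | x < b}` with finite proper initial parts. -/
structure Lad (W : Type*) [LinearOrder W] where
  C : W → Set W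
  sub : ∀ b x, x ∈ C b → x < b
  cof : ∀ a b, a < b → ∃ x ∈ C b, a ≤ x
  fin : ∀ a b, a < b → (C b ∩ Iio a).Finite

omit [WellFoundedLT W] in
theorem exists_lad (hc : ∀ a : W, (Iio a).Countable) : Nonempty (Lad W) := by
  classical
  have key : ∀ b : W, ∃ C : Set W, (∀ x ∈ C, x < b) ∧ (∀ a, a < b → ∃ x ∈ C, a ≤ x) ∧
      ∀ a, a < b → (C ∩ Iio a).Finite := by
    intro b
    rcases (Iio b).eq_empty_or_nonempty with h | h
    · refine ⟨∅, fun x hx => absurd hx (Set.notMem_empty x), fun a ha => ?_, fun a ha => ?_⟩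
      · have : a ∈ Iio b := ha
        rw [h] at this
        exact absurd this (Set.notMem_empty a)
      · rw [Set.empty_inter]
        exact Set.finite_empty
    · obtain ⟨f, hf⟩ := (hc b).exists_eq_range h
      -- running maximum
      let m : ℕ → W := fun n => (Finset.range (n + 1)).sup' ⟨0, by simp⟩ f
      have hm1 : ∀ n, m n < b := by
        intro n
        refine (Finset.sup'_lt_iff _).2 ?_
        intro i _
        have : f i ∈ Iio b := by
          rw [hf]
          exact ⟨i, rfl⟩
        exact this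
      have hm2 : ∀ n i, i ≤ n → f i ≤ m n := by
        intro n i hi
        exact Finset.le_sup' f (Finset.mem_range.2 (Nat.lt_succ_of_le hi))
      refine ⟨range m, ?_, ?_, ?_⟩
      · rintro x ⟨n, rfl⟩
        exact hm1 n
      · intro a ha
        have : a ∈ Iio b := ha
        rw [hf] at this
        obtain ⟨n, rfl⟩ := this
        exact ⟨m n, ⟨n, rfl⟩, hm2 n n le_rfl⟩
      · intro a ha
        have : a ∈ Iio b := ha
        rw [hf] at this
        obtain ⟨n, rfl⟩ := this
        apply ((Finset.range n).image m).finite_toSet.subset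
        rintro x ⟨⟨i, rfl⟩, hx⟩
        rw [Finset.coe_image]
        refine ⟨i, ?_, rfl⟩
        rw [Finset.coe_range, Set.mem_Iio]
        by_contra hi
        exact absurd (hm2 i n (not_lt.1 hi)) (not_le.2 hx)
  choose C h1 h2 h3 using key
  exact ⟨⟨C, h1, fun a b => h2 b a, fun a b => h3 b a⟩⟩

namespace Lad

variable (S : Lad W)

local instance (priority := 2000) : WellFoundedRelation W := ⟨(· < ·), wellFounded_lt⟩

/-- the least element of `C b` which is at least `a` -/
noncomputable def nx (a b : W) (h : a < b) : W :=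
  WellFounded.min (wellFounded_lt) {x | x ∈ S.C b ∧ a ≤ x}
    (let ⟨x, hx, hx'⟩ := S.cof a b h; ⟨x, hx, hx'⟩)

theorem nx_mem {a b : W} (h : a < b) : S.nx a b h ∈ S.C b :=
  (WellFounded.min_mem (wellFounded_lt) {x | x ∈ S.C b ∧ a ≤ x} _).1

theorem le_nx {a b : W} (h : a < b) : a ≤ S.nx a b h :=
  (WellFounded.min_mem (wellFounded_lt) {x | x ∈ S.C b ∧ a ≤ x} _).2

theorem nx_lt {a b : W} (h : a < b) : S.nx a b h < b := S.sub b _ (S.nx_mem h)

theorem nx_le {a b x : W} (h : a < b) (hx : x ∈ S.C b) (hax : a ≤ x) : S.nx a b h ≤ x := by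
  by_contra hlt
  exact WellFounded.not_lt_min (wellFounded_lt) {x | x ∈ S.C b ∧ a ≤ x} ⟨hx, hax⟩ (not_le.1 hlt)

theorem nx_eq {a b c : W} (h : a < b) (hc : c ∈ S.C b) (hac : a ≤ c)
    (hmin : ∀ x ∈ S.C b, a ≤ x → c ≤ x) : S.nx a b h = c :=
  le_antisymm (S.nx_le h hc hac) (hmin _ (S.nx_mem h) (S.le_nx h))

/-- The part of `C b` below `a` is the part below `nx a b`. -/
theorem inter_nx {a b : W} (h : a < b) : S.C b ∩ Iio (S.nx a b h) = S.C b ∩ Iio a := by
  ext x
  constructor
  · rintro ⟨hx, hx'⟩
    refine ⟨hx, ?_⟩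
    by_contra hax
    exact absurd (S.nx_le h hx (not_lt.1 hax)) (not_le.2 hx')
  · rintro ⟨hx, hx'⟩
    exact ⟨hx, lt_of_lt_of_le hx' (S.le_nx h)⟩

/-- maximal weight of the walk -/
noncomputable def e (a b : W) : ℕ :=
  if h : a < b then max ((S.C b ∩ Iio a).ncard) (e a (S.nx a b h)) else 0
termination_by b
decreasing_by exact S.nx_lt h

theorem e_lt {a b : W} (h : a < b) :
    S.e a b = max ((S.C b ∩ Iio a).ncard) (S.e a (S.nx a b h)) := by
  rw [e, dif_pos h]

theorem e_self (a : W) : S.e a a = 0 := by
  rw [e, dif_neg (lt_irrefl a)]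

omit [WellFoundedLT W] in
theorem few_pred (b : W) (n : ℕ) : {c | c ∈ S.C b ∧ (S.C b ∩ Iio c).ncard ≤ n}.Finite := by
  apply Set.Finite.of_finite_image (f := fun c => (S.C b ∩ Iio c).ncard)
  · apply (Set.finite_Iic n).subset
    rintro _ ⟨c, hc, rfl⟩
    exact hc.2
  · have key : ∀ x y, x ∈ S.C b → y ∈ S.C b → x < y →
        (S.C b ∩ Iio x).ncard < (S.C b ∩ Iio y).ncard := by
      intro x y hx hy hxy
      apply Set.ncard_lt_ncard _ (S.fin y b (S.sub b y hy))
      constructor
      · rintro z ⟨hz, hz'⟩
        exact ⟨hz, lt_trans hz' hxy⟩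
      · intro hsub
        exact lt_irrefl x (hsub ⟨hx, hxy⟩).2
    intro x hx y hy hxy
    simp only at hxy
    rcases lt_trichotomy x y with h | h | h
    · exact absurd hxy (key x y hx.1 hy.1 h).ne
    · exact h
    · exact absurd hxy (key y x hy.1 hx.1 h).ne'

/-- The functions `x ↦ e x b` are finite-to-one. -/
theorem e_fin (b : W) (n : ℕ) : {a | a < b ∧ S.e a b ≤ n}.Finite := by
  induction b using WellFoundedLT.induction with
  | ind b ih =>
    have h1 : {a | a < b ∧ S.e a b ≤ n} ⊆
        ⋃ c ∈ {c | c ∈ S.C b ∧ (S.C b ∩ Iio c).ncard ≤ n}, ({a | a < c ∧ S.e a c ≤ n} ∪ {c}) := by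
      rintro a ⟨hab, he⟩
      rw [S.e_lt hab] at he
      rw [Set.mem_iUnion₂]
      refine ⟨S.nx a b hab, ⟨S.nx_mem hab, ?_⟩, ?_⟩
      · rw [S.inter_nx hab]
        exact (le_max_left _ _).trans he
      · rcases (S.le_nx hab).lt_or_eq with h | h
        · exact Or.inl ⟨h, (le_max_right _ _).trans he⟩
        · exact Or.inr h
    apply Set.Finite.subset _ h1
    apply (S.few_pred b n).biUnion
    rintro c ⟨hc, -⟩
    exact (ih c (S.sub b c hc)).union (Set.finite_singleton c)

/-- Coherence. -/
theorem e_coh : ∀ b a : W, a < b → {x | x < a ∧ S.e x a ≠ S.e x b}.Finite := by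
  intro b
  induction b using WellFoundedLT.induction with
  | ind b ih =>
    intro a hab
    have hG : (insert (S.nx a b hab) (S.C b ∩ Iio a)).Finite := (S.fin a b hab).insert _
    have h1 : {x | x < a ∧ S.e x a ≠ S.e x b} ⊆
        ⋃ c ∈ insert (S.nx a b hab) (S.C b ∩ Iio a),
          ({x | x < c ∧ S.e x c ≤ (S.C b ∩ Iio c).ncard} ∪ {c} ∪
            {x | x < a ∧ x < c ∧ S.e x c ≠ S.e x a}) := by
      rintro x ⟨hxa, hne⟩
      have hxb : x < b := hxa.trans hab
      rw [Set.mem_iUnion₂]
      refine ⟨S.nx x b hxb, ?_, ?_⟩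
      · by_cases hlt : S.nx x b hxb < a
        · exact Or.inr ⟨S.nx_mem hxb, hlt⟩
        · left
          have h2 : a ≤ S.nx x b hxb := not_lt.1 hlt
          apply le_antisymm
          · exact S.nx_le hxb (S.nx_mem hab) (hxa.le.trans (S.le_nx hab))
          · exact S.nx_le hab (S.nx_mem hxb) h2
      · by_cases hx : x < S.nx x b hxb
        · by_cases hle : S.e x (S.nx x b hxb) ≤ (S.C b ∩ Iio (S.nx x b hxb)).ncard
          · exact Or.inl (Or.inl ⟨hx, hle⟩)
          · right
            refine ⟨hxa, hx, ?_⟩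
            intro heq
            apply hne
            rw [S.e_lt hxb, ← S.inter_nx hxb, max_eq_right (not_le.1 hle).le, heq]
        · left
          right
          exact le_antisymm (S.le_nx hxb) (not_lt.1 hx)
    apply Set.Finite.subset _ h1
    apply hG.biUnion
    intro c hc
    have hcb : c < b := by
      rcases hc with h | h
      · rw [h]
        exact S.nx_lt hab
      · exact S.sub b c h.1
    refine ((S.e_fin c _).union (Set.finite_singleton c)).union ?_
    rcases lt_trichotomy a c with h | h | h
    · apply (ih c hcb a h).subset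
      rintro x ⟨hxa, -, hne⟩
      exact ⟨hxa, fun heq => hne heq.symm⟩
    · subst h
      apply Set.finite_empty.subset
      rintro x ⟨-, -, hne⟩
      exact absurd rfl hne
    · apply (ih a hab c h).subset
      rintro x ⟨-, hxc, hne⟩
      exact ⟨hxc, hne⟩

/-- Two functions agree almost everywhere below `d`. -/
theorem e_coh2 {d a b : W} (ha : d ≤ a) (hb : d ≤ b) : {x | x < d ∧ S.e x a ≠ S.e x b}.Finite := by
  have h1 : ∀ c, d ≤ c → {x | x < d ∧ S.e x d ≠ S.e x c}.Finite := by
    intro c hc
    rcases hc.lt_or_eq with h | h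
    · exact S.e_coh c d h
    · subst h
      apply Set.finite_empty.subset
      rintro x ⟨-, hne⟩
      exact absurd rfl hne
  apply ((h1 a ha).union (h1 b hb)).subset
  rintro x ⟨hx, hne⟩
  by_cases h : S.e x d = S.e x a
  · right
    refine ⟨hx, ?_⟩
    rw [h]
    exact hne
  · exact Or.inl ⟨hx, h⟩

/-- the lower trace of the walk from `b` to `a`, as an increasing list -/
noncomputable def L (a b : W) : List W := by
  classical
  exact if h : a < b then
    if hF : ((S.fin a b h).toFinset).Nonempty then
      ((S.fin a b h).toFinset.max' hF) ::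
        (L a (S.nx a b h)).filter (fun x => ((S.fin a b h).toFinset.max' hF) < x)
    else L a (S.nx a b h)
  else []
termination_by b
decreasing_by
  all_goals exact S.nx_lt h

theorem L_not {a b : W} (h : ¬ a < b) : S.L a b = [] := by
  rw [L, dif_neg h]

theorem L_self (a : W) : S.L a a = [] := S.L_not (lt_irrefl a)

/-- One step, if `C b` meets `{x | x < a}`: `m` is the maximum of the intersection. -/
theorem L_cons {a b m : W} (h : a < b) (hm : m ∈ S.C b) (hma : m < a)
    (hmax : ∀ x ∈ S.C b, x < a → x ≤ m) :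
    S.L a b = m :: (S.L a (S.nx a b h)).filter (fun x => m < x) := by
  classical
  have hF : ((S.fin a b h).toFinset).Nonempty := ⟨m, by simp [hm, hma]⟩
  have hmx : (S.fin a b h).toFinset.max' hF = m := by
    apply le_antisymm
    · apply Finset.max'_le
      intro y hy
      rw [Set.Finite.mem_toFinset] at hy
      exact hmax y hy.1 hy.2
    · apply Finset.le_max'
      rw [Set.Finite.mem_toFinset]
      exact ⟨hm, hma⟩
  rw [L, dif_pos h, dif_pos hF, hmx]

/-- One step, if `C b` does not meet `{x | x < a}`. -/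
theorem L_skip {a b : W} (h : a < b) (hE : ∀ x ∈ S.C b, ¬ x < a) :
    S.L a b = S.L a (S.nx a b h) := by
  classical
  have hF : ¬ ((S.fin a b h).toFinset).Nonempty := by
    rintro ⟨x, hx⟩
    rw [Set.Finite.mem_toFinset] at hx
    exact hE x hx.1 hx.2
  rw [L, dif_pos h, dif_neg hF]

omit [WellFoundedLT W] in
theorem exists_max {a b : W} (h : a < b) :
    (∀ x ∈ S.C b, ¬ x < a) ∨ ∃ m ∈ S.C b, m < a ∧ ∀ x ∈ S.C b, x < a → x ≤ m := by
  classical
  by_cases hF : ((S.fin a b h).toFinset).Nonempty
  · right
    refine ⟨(S.fin a b h).toFinset.max' hF, ?_⟩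
    have := (S.fin a b h).toFinset.max'_mem hF
    rw [Set.Finite.mem_toFinset] at this
    refine ⟨this.1, this.2, ?_⟩
    intro x hx hxa
    apply Finset.le_max'
    rw [Set.Finite.mem_toFinset]
    exact ⟨hx, hxa⟩
  · left
    intro x hx hxa
    exact hF ⟨x, by simp [hx, hxa]⟩

theorem L_lt {a : W} : ∀ b : W, ∀ x ∈ S.L a b, x < a := by
  classical
  intro b
  induction b using WellFoundedLT.induction with
  | ind b ih =>
    intro x hx
    by_cases h : a < b
    · rcases S.exists_max h with hE | ⟨m, hm, hma, hmax⟩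
      · rw [S.L_skip h hE] at hx
        exact ih _ (S.nx_lt h) x hx
      · rw [S.L_cons h hm hma hmax, List.mem_cons] at hx
        rcases hx with rfl | hx
        · exact hma
        · exact ih _ (S.nx_lt h) x (List.mem_of_mem_filter hx)
    · rw [S.L_not h] at hx
      exact absurd hx (List.not_mem_nil)

/-- If `c ∈ C b`, `c < a < b` then the lower trace is not empty and its elements are at least `c`. -/
theorem L_ge {a b c : W} (h : a < b) (hc : c ∈ S.C b) (hca : c < a) :
    S.L a b ≠ [] ∧ ∀ x ∈ S.L a b, c ≤ x := by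
  rcases S.exists_max h with hE | ⟨m, hm, hma, hmax⟩
  · exact absurd hca (hE c hc)
  · rw [S.L_cons h hm hma hmax]
    refine ⟨List.cons_ne_nil _ _, ?_⟩
    intro x hx
    rw [List.mem_cons] at hx
    rcases hx with rfl | hx
    · exact hmax c hc hca
    · rw [List.mem_filter] at hx
      have h2 : m < x := of_decide_eq_true hx.2
      exact (hmax c hc hca).trans h2.le

/-- The lower trace is the concatenation of the lower traces of the two parts of the walk. -/
theorem L_append {a b : W} (hab : S.L a b ≠ []) : ∀ c : W, b ≤ c →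
    (∀ x ∈ S.L b c, ∀ y ∈ S.L a b, x < y) → S.L a c = S.L b c ++ S.L a b := by
  have hab' : a < b := by
    by_contra h
    exact hab (S.L_not h)
  obtain ⟨y0, hy0⟩ := List.exists_mem_of_ne_nil _ hab
  intro c
  induction c using WellFoundedLT.induction with
  | ind c ih =>
    intro hbc hlt
    rcases hbc.lt_or_eq with h | h
    · have hac : a < c := hab'.trans h
      -- no element of `C c` in `[a, b)`
      have hno : ∀ x ∈ S.C c, x < b → x < a := by
        intro x hx hxb
        rcases S.exists_max h with hE | ⟨m, hm, hmb, hmax⟩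
        · exact absurd hxb (hE x hx)
        · have h1 : m ∈ S.L b c := by
            rw [S.L_cons h hm hmb hmax]
            exact List.mem_cons_self
          exact ((hmax x hx hxb).trans_lt (hlt m h1 y0 hy0)).trans (S.L_lt b y0 hy0)
      have hnx : S.nx a c hac = S.nx b c h := by
        apply S.nx_eq hac (S.nx_mem h) (hab'.le.trans (S.le_nx h))
        intro x hx hax
        apply S.nx_le h hx
        by_contra hxb
        exact absurd (hno x hx (not_le.1 hxb)) (not_lt.2 hax)
      rcases S.exists_max h with hE | ⟨m, hm, hmb, hmax⟩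
      · have hE' : ∀ x ∈ S.C c, ¬ x < a := fun x hx hxa => hE x hx (hxa.trans hab')
        rw [S.L_skip h hE] at hlt ⊢
        rw [S.L_skip hac hE', hnx]
        exact ih _ (S.nx_lt h) (S.le_nx h) hlt
      · have hma : m < a := hno m hm hmb
        have hmax' : ∀ x ∈ S.C c, x < a → x ≤ m := fun x hx hxa => hmax x hx (hxa.trans hab')
        have hmem : ∀ x, x ∈ S.L b c ↔ x = m ∨ (x ∈ S.L b (S.nx b c h) ∧ m < x) := by
          intro x
          rw [S.L_cons h hm hmb hmax, List.mem_cons, List.mem_filter, decide_eq_true_iff]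
        have hmy : ∀ y ∈ S.L a b, m < y := fun y hy => hlt m ((hmem m).2 (Or.inl rfl)) y hy
        have hih : S.L a (S.nx b c h) = S.L b (S.nx b c h) ++ S.L a b := by
          apply ih _ (S.nx_lt h) (S.le_nx h)
          intro x hx y hy
          by_cases hmx : m < x
          · exact hlt x ((hmem x).2 (Or.inr ⟨hx, hmx⟩)) y hy
          · exact (not_lt.1 hmx).trans_lt (hmy y hy)
        rw [S.L_cons hac hm hma hmax', S.L_cons h hm hmb hmax, hnx, hih, List.filter_append,
          List.cons_append]
        congr 2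
        apply List.filter_eq_self.2
        intro y hy
        exact decide_eq_true (hmy y hy)
    · subst h
      rw [S.L_self, List.nil_append]

end Lad

end Pool.Agent.H.MP_670a4f_lc
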